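import Pool.Agent.Helper7.Cube.Defs

set_option linter.all false

open MeasureTheory ProbabilityTheory Matrix
open scoped ENNReal

namespace Pool.Agent.Helper7.Simplex.Cube

namespace J21274

theorem W_point_parseval {d : ℕ} {ι : Type*} [Fintype ι] (w : ι → Fin d → ℝ)
    (hI : ∑ i, vecMulVec (w i) (w i) = 1) (x : Fin d → ℝ) : ∑ i, (w i ⬝ᵥ x) ^ 2 = x ⬝ᵥ x := by
  have hent : ∀ a b, ∑ i, w i a * w i b = if a = b then 1 else 0 := by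
    intro a b
    have h := congrFun (congrFun hI a) b
    rw [Matrix.sum_apply, Matrix.one_apply] at h
    rw [← h]
    rfl
  have h1 : ∀ i, (w i ⬝ᵥ x) ^ 2 = ∑ a, ∑ b, (x a * x b) * (w i a * w i b) := by
    intro i
    rw [pow_two]
    unfold dotProduct
    rw [Finset.sum_mul_sum]
    apply Finset.sum_congr rfl
    intro a _
    apply Finset.sum_congr rfl
    intro b _
    ring
  calc ∑ i, (w i ⬝ᵥ x) ^ 2 = ∑ i, ∑ a, ∑ b, (x a * x b) * (w i a * w i b) :=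
        Finset.sum_congr rfl (fun i _ => h1 i)
    _ = ∑ a, ∑ b, (x a * x b) * ∑ i, (w i a * w i b) := by
        rw [Finset.sum_comm]
        apply Finset.sum_congr rfl
        intro a _
        rw [Finset.sum_comm]
        apply Finset.sum_congr rfl
        intro b _
        rw [Finset.mul_sum]
    _ = ∑ a, ∑ b, (x a * x b) * (if a = b then 1 else 0) := by
        apply Finset.sum_congr rfl
        intro a _
        apply Finset.sum_congr rfl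
        intro b _
        rw [hent]
    _ = x ⬝ᵥ x := by
        unfold dotProduct
        apply Finset.sum_congr rfl
        intro a _
        simp

theorem W_point_sym {ι : Type*} [Fintype ι] [DecidableEq ι] (P : ι → ι → ℝ) (hP : ∀ i j, P i j = P j i)
    (c : ι → ℝ) (hd : ∀ i, P i i = c i ^ 2) (hs : ∀ i, ∑ j, P i j = c i) (a : ι → ℝ) :
    ∑ i, ∑ j, P i j * (if i = j then 0 else (1 / 2) * (a i + a j)) = ∑ i, (c i - c i ^ 2) * a i := by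
  have h1 : ∑ i, ∑ j, P i j * (if i = j then 0 else (1 / 2) * (a i + a j)) =
      ∑ i, ∑ j, (P i j * ((1 / 2) * (a i + a j)) - (if i = j then P i j * a i else 0)) := by
    apply Finset.sum_congr rfl
    intro i _
    apply Finset.sum_congr rfl
    intro j _
    by_cases h : i = j
    · subst h
      rw [if_pos rfl, if_pos rfl]
      ring
    · rw [if_neg h, if_neg h]
      ring
  have h2 : ∑ i, ∑ j, P i j * ((1 / 2) * (a i + a j)) = ∑ i, c i * a i := by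
    have h3 : ∑ i, ∑ j, P i j * ((1 / 2) * (a i + a j)) =
        (1 / 2) * ∑ i, ∑ j, P i j * a i + (1 / 2) * ∑ i, ∑ j, P i j * a j := by
      rw [Finset.mul_sum, Finset.mul_sum, ← Finset.sum_add_distrib]
      apply Finset.sum_congr rfl
      intro i _
      rw [Finset.mul_sum, Finset.mul_sum, ← Finset.sum_add_distrib]
      apply Finset.sum_congr rfl
      intro j _
      ring
    have h4 : ∑ i, ∑ j, P i j * a i = ∑ i, c i * a i := by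
      apply Finset.sum_congr rfl
      intro i _
      rw [← Finset.sum_mul, hs]
    have h5 : ∑ i, ∑ j, P i j * a j = ∑ i, c i * a i := by
      rw [Finset.sum_comm]
      apply Finset.sum_congr rfl
      intro j _
      rw [← Finset.sum_mul]
      congr 1
      rw [← hs j]
      apply Finset.sum_congr rfl
      intro i _
      exact hP i j
    rw [h3, h4, h5]
    ring
  rw [h1]
  simp only [Finset.sum_sub_distrib]
  rw [h2, ← Finset.sum_sub_distrib]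
  apply Finset.sum_congr rfl
  intro i _
  rw [Finset.sum_ite_eq, if_pos (Finset.mem_univ i), hd]
  ring

theorem W_point {d : ℕ} {ι : Type*} [Fintype ι] (w : ι → Fin d → ℝ)
    (hI : ∑ i, vecMulVec (w i) (w i) = 1) (r : ℝ) (hr : 1 ≤ r)
    (hPW : ∀ Y Z T U δ : ℝ, mfun r δ Y Z ≤
      (1 / 2) * r * ((T - Y) ^ 2 + (U - Z) ^ 2) + KK (δ + (1 / 2) * (T ^ 2 - U ^ 2)))
    (hc0 : ∀ i, 0 < w i ⬝ᵥ w i) (hcr : ∀ i, r * (1 - w i ⬝ᵥ w i) ≤ 1)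
    (T : ι → ℝ) (g : Fin d → ℝ) :
    Wfun w r g ≤ Ffun w T g := by
  classical
  have hpar := W_point_parseval w hI
  obtain ⟨c, hc⟩ : ∃ c : ι → ℝ, ∀ i, c i = w i ⬝ᵥ w i := ⟨_, fun _ => rfl⟩
  obtain ⟨s, hs⟩ : ∃ s : ι → ℝ, ∀ i, s i = √(w i ⬝ᵥ w i) := ⟨_, fun _ => rfl⟩
  obtain ⟨Y, hY⟩ : ∃ Y : ι → ℝ, ∀ i, Y i = (w i ⬝ᵥ g) / √(w i ⬝ᵥ w i) := ⟨_, fun _ => rfl⟩
  obtain ⟨P, hP⟩ : ∃ P : ι → ι → ℝ, ∀ i j, P i j = (w i ⬝ᵥ w j) ^ 2 := ⟨_, fun _ _ => rfl⟩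
  have hss : ∀ i, s i * s i = c i := by
    intro i
    rw [hs, hc]
    exact Real.mul_self_sqrt (hc0 i).le
  have hs0 : ∀ i, s i ≠ 0 := by
    intro i
    rw [hs]
    exact (Real.sqrt_pos.mpr (hc0 i)).ne'
  have hsY : ∀ i, s i * Y i = w i ⬝ᵥ g := by
    intro i
    rw [hY, ← hs, mul_div_cancel₀ _ (hs0 i)]
  have hgg : g ⬝ᵥ g = ∑ i, c i * Y i ^ 2 := by
    rw [← hpar g]
    apply Finset.sum_congr rfl
    intro i _
    rw [← hsY i, ← hss i]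
    ring
  have hlin : (∑ i, (√(w i ⬝ᵥ w i) * T i) • w i) ⬝ᵥ g = ∑ i, c i * (T i * Y i) := by
    rw [sum_dotProduct]
    apply Finset.sum_congr rfl
    intro i _
    rw [smul_dotProduct, ← hs, ← hsY i, ← hss i, smul_eq_mul]
    ring
  have hPs : ∀ i j, P i j = P j i := by
    intro i j
    rw [hP, hP, dotProduct_comm]
  have hPd : ∀ i, P i i = c i ^ 2 := by
    intro i
    rw [hP, hc]
  have hPr : ∀ i, ∑ j, P i j = c i := by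
    intro i
    rw [hc, ← hpar (w i)]
    apply Finset.sum_congr rfl
    intro j _
    rw [hPs, hP]
  have hP0 : ∀ i j, 0 ≤ P i j := by
    intro i j
    rw [hP]
    exact sq_nonneg _
  have hkey : ∀ i j, (w i ⬝ᵥ w j) ^ 2 *
      mfun r ((1 / 2) * (Real.log (w i ⬝ᵥ w i) - Real.log (w j ⬝ᵥ w j)))
      ((w i ⬝ᵥ g) / √(w i ⬝ᵥ w i)) ((w j ⬝ᵥ g) / √(w j ⬝ᵥ w j)) ≤
      r * (P i j * (if i = j then 0 else (1 / 2) * ((T i - Y i) ^ 2 + (T j - Y j) ^ 2))) +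
      (w i ⬝ᵥ w j) ^ 2 *
      KK (((1 / 2) * Real.log (w i ⬝ᵥ w i) + (1 / 2) * T i ^ 2) -
        ((1 / 2) * Real.log (w j ⬝ᵥ w j) + (1 / 2) * T j ^ 2)) := by
    intro i j
    by_cases h : i = j
    · subst h
      rw [if_pos rfl, sub_self, sub_self, mul_zero, mul_zero, mul_zero, zero_add]
      apply le_of_eq
      have h1 : ∀ y, mfun r 0 y y = 0 := by
        intro y
        unfold mfun sfun
        rw [sub_self, sub_self]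
        ring
      have h2 : KK 0 = 0 := by
        unfold KK
        rw [abs_zero, neg_zero, Real.exp_zero]
        ring
      rw [h1, h2]
    · rw [if_neg h, ← hP, ← hY, ← hY]
      have h3 := hPW (Y i) (Y j) (T i) (T j) ((1 / 2) * (Real.log (w i ⬝ᵥ w i) - Real.log (w j ⬝ᵥ w j)))
      have h4 := mul_le_mul_of_nonneg_left h3 (hP0 i j)
      refine h4.trans (le_of_eq ?_)
      have h5 : (1 / 2) * (Real.log (w i ⬝ᵥ w i) - Real.log (w j ⬝ᵥ w j)) + (1 / 2) * (T i ^ 2 - T j ^ 2) =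
          ((1 / 2) * Real.log (w i ⬝ᵥ w i) + (1 / 2) * T i ^ 2) -
        ((1 / 2) * Real.log (w j ⬝ᵥ w j) + (1 / 2) * T j ^ 2) := by ring
      rw [h5]
      ring
  have hsum : Wfun w r g ≤ (1 / 2) * ∑ i, ∑ j,
      (r * (P i j * (if i = j then 0 else (1 / 2) * ((T i - Y i) ^ 2 + (T j - Y j) ^ 2))) +
      (w i ⬝ᵥ w j) ^ 2 *
      KK (((1 / 2) * Real.log (w i ⬝ᵥ w i) + (1 / 2) * T i ^ 2) -
        ((1 / 2) * Real.log (w j ⬝ᵥ w j) + (1 / 2) * T j ^ 2))) := by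
    unfold Wfun
    apply mul_le_mul_of_nonneg_left _ (by norm_num)
    exact Finset.sum_le_sum (fun i _ => Finset.sum_le_sum (fun j _ => hkey i j))
  refine hsum.trans ?_
  simp only [Finset.sum_add_distrib, ← Finset.mul_sum]
  rw [W_point_sym P hPs c hPd hPr (fun i => (T i - Y i) ^ 2)]
  have hquad : (1 / 2) * ∑ i, (w i ⬝ᵥ w i) * T i ^ 2 - (∑ i, (√(w i ⬝ᵥ w i) * T i) • w i) ⬝ᵥ g
    + (1 / 2) * (g ⬝ᵥ g) = (1 / 2) * ∑ i, c i * (T i - Y i) ^ 2 := by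
    rw [hlin, hgg, Finset.mul_sum, Finset.mul_sum, Finset.mul_sum, ← Finset.sum_sub_distrib, ← Finset.sum_add_distrib]
    apply Finset.sum_congr rfl
    intro i _
    rw [← hc]
    ring
  unfold Ffun
  rw [hquad, mul_add]
  apply add_le_add _ (le_refl _)
  apply mul_le_mul_of_nonneg_left _ (by norm_num)
  rw [Finset.mul_sum]
  apply Finset.sum_le_sum
  intro i _
  have h1 := hcr i
  rw [← hc] at h1
  have h2 : 0 ≤ c i * (T i - Y i) ^ 2 := by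
    apply mul_nonneg _ (sq_nonneg _)
    rw [hc]
    exact (hc0 i).le
  calc r * ((c i - c i ^ 2) * (T i - Y i) ^ 2) = (r * (1 - c i)) * (c i * (T i - Y i) ^ 2) := by ring
    _ ≤ 1 * (c i * (T i - Y i) ^ 2) := mul_le_mul_of_nonneg_right h1 h2
    _ = c i * (T i - Y i) ^ 2 := one_mul _

end J21274

namespace J21275

theorem W_int {d : ℕ} {ι : Type*} [Fintype ι] (w : ι → Fin d → ℝ) (r κ : ℝ)
    (hEX : ∀ (a b : Fin d → ℝ), a ⬝ᵥ a = 1 → b ⬝ᵥ b = 1 → ∀ δ : ℝ,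
      Integrable (fun y => mfun r δ (a ⬝ᵥ y) (b ⬝ᵥ y))
        (Measure.pi (fun _ : Fin d => gaussianReal 0 1)) ∧
      κ * (1 - (a ⬝ᵥ b) ^ 2) ≤
        ∫ y, mfun r δ (a ⬝ᵥ y) (b ⬝ᵥ y) ∂(Measure.pi (fun _ : Fin d => gaussianReal 0 1)))
    (hc0 : ∀ i, 0 < w i ⬝ᵥ w i) :
    Measurable (Wfun w r) ∧
    Integrable (Wfun w r) (Measure.pi (fun _ : Fin d => gaussianReal 0 1)) ∧
    (κ / 2) * ∑ i, ∑ j, (w i ⬝ᵥ w j) ^ 2 *
        (1 - (w i ⬝ᵥ w j) ^ 2 / ((w i ⬝ᵥ w i) * (w j ⬝ᵥ w j))) ≤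
      ∫ g, Wfun w r g ∂(Measure.pi (fun _ : Fin d => gaussianReal 0 1)) := by
  set μ : Measure (Fin d → ℝ) := Measure.pi (fun _ : Fin d => gaussianReal 0 1) with hμ
  set a : ι → Fin d → ℝ := fun i => (√(w i ⬝ᵥ w i))⁻¹ • w i with ha
  have hs : ∀ i, 0 < √(w i ⬝ᵥ w i) := fun i => Real.sqrt_pos.2 (hc0 i)
  have hss : ∀ i, √(w i ⬝ᵥ w i) * √(w i ⬝ᵥ w i) = w i ⬝ᵥ w i :=
    fun i => Real.mul_self_sqrt (hc0 i).le
  have hay : ∀ i y, a i ⬝ᵥ y = (w i ⬝ᵥ y) / √(w i ⬝ᵥ w i) := by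
    intro i y
    simp only [ha]
    rw [smul_dotProduct, smul_eq_mul, div_eq_inv_mul]
  have haa : ∀ i j, a i ⬝ᵥ a j = (w i ⬝ᵥ w j) / (√(w i ⬝ᵥ w i) * √(w j ⬝ᵥ w j)) := by
    intro i j
    rw [hay]
    simp only [ha]
    rw [dotProduct_smul, smul_eq_mul]
    field_simp [(hs i).ne', (hs j).ne']
  have ha1 : ∀ i, a i ⬝ᵥ a i = 1 := by
    intro i
    rw [haa, hss, div_self (hc0 i).ne']
  have ha2 : ∀ i j, (a i ⬝ᵥ a j) ^ 2 = (w i ⬝ᵥ w j) ^ 2 / ((w i ⬝ᵥ w i) * (w j ⬝ᵥ w j)) := by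
    intro i j
    rw [haa, div_pow, mul_pow, Real.sq_sqrt (hc0 i).le, Real.sq_sqrt (hc0 j).le]
  set F : ι → ι → (Fin d → ℝ) → ℝ := fun i j g =>
    mfun r ((1 / 2) * (Real.log (w i ⬝ᵥ w i) - Real.log (w j ⬝ᵥ w j)))
      (a i ⬝ᵥ g) (a j ⬝ᵥ g) with hF
  have hW : Wfun w r = fun g => (1 / 2) * ∑ i, ∑ j, (w i ⬝ᵥ w j) ^ 2 * F i j g := by
    funext g
    unfold Wfun
    simp only [hF, hay]
  have hdm : ∀ v : Fin d → ℝ, Measurable (fun g : Fin d → ℝ => v ⬝ᵥ g) := by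
    intro v
    unfold dotProduct
    fun_prop
  have hFm : ∀ i j, Measurable (F i j) := by
    intro i j
    have h1 := hdm (a i)
    have h2 := hdm (a j)
    simp only [hF]
    unfold mfun sfun
    fun_prop
  have hFi : ∀ i j, Integrable (F i j) μ := fun i j => (hEX (a i) (a j) (ha1 i) (ha1 j) _).1
  have hFl : ∀ i j, κ * (1 - (w i ⬝ᵥ w j) ^ 2 / ((w i ⬝ᵥ w i) * (w j ⬝ᵥ w j))) ≤
      ∫ g, F i j g ∂μ := by
    intro i j
    rw [← ha2]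
    exact (hEX (a i) (a j) (ha1 i) (ha1 j) _).2
  have hin : ∀ i j, Integrable (fun g => (w i ⬝ᵥ w j) ^ 2 * F i j g) μ :=
    fun i j => (hFi i j).const_mul _
  have hin2 : ∀ i, Integrable (fun g => ∑ j, (w i ⬝ᵥ w j) ^ 2 * F i j g) μ :=
    fun i => integrable_finsetSum _ fun j _ => hin i j
  have hin3 : Integrable (fun g => ∑ i, ∑ j, (w i ⬝ᵥ w j) ^ 2 * F i j g) μ :=
    integrable_finsetSum _ fun i _ => hin2 i
  refine ⟨?_, ?_, ?_⟩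
  · rw [hW]
    refine Measurable.const_mul ?_ _
    refine Finset.measurable_sum _ fun i _ => Finset.measurable_sum _ fun j _ => ?_
    exact (hFm i j).const_mul _
  · rw [hW]
    exact hin3.const_mul _
  · rw [hW]
    rw [integral_const_mul, integral_finsetSum _ (fun i _ => hin2 i)]
    have h1 : ∀ i, ∫ g, ∑ j, (w i ⬝ᵥ w j) ^ 2 * F i j g ∂μ =
        ∑ j, (w i ⬝ᵥ w j) ^ 2 * ∫ g, F i j g ∂μ := by
      intro i
      rw [integral_finsetSum _ (fun j _ => hin i j)]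
      refine Finset.sum_congr rfl fun j _ => ?_
      rw [integral_const_mul]
    rw [Finset.sum_congr rfl (fun i _ => h1 i)]
    have h2 : ∑ i, ∑ j, (w i ⬝ᵥ w j) ^ 2 *
        (κ * (1 - (w i ⬝ᵥ w j) ^ 2 / ((w i ⬝ᵥ w i) * (w j ⬝ᵥ w j)))) ≤
          ∑ i, ∑ j, (w i ⬝ᵥ w j) ^ 2 * ∫ g, F i j g ∂μ :=
      Finset.sum_le_sum fun i _ => Finset.sum_le_sum fun j _ =>
        mul_le_mul_of_nonneg_left (hFl i j) (sq_nonneg _)
    have h3 : ∑ i, ∑ j, (w i ⬝ᵥ w j) ^ 2 *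
        (κ * (1 - (w i ⬝ᵥ w j) ^ 2 / ((w i ⬝ᵥ w i) * (w j ⬝ᵥ w j)))) =
          κ * ∑ i, ∑ j, (w i ⬝ᵥ w j) ^ 2 *
        (1 - (w i ⬝ᵥ w j) ^ 2 / ((w i ⬝ᵥ w i) * (w j ⬝ᵥ w j))) := by
      rw [Finset.mul_sum]
      refine Finset.sum_congr rfl fun i _ => ?_
      rw [Finset.mul_sum]
      refine Finset.sum_congr rfl fun j _ => ?_
      ring
    rw [h3] at h2
    linarith

end J21275

namespace J21276

theorem dens {d : ℕ} {ι : Type*} [Fintype ι] (w : ι → Fin d → ℝ)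
    (hI : ∑ i, vecMulVec (w i) (w i) = 1) (hc0 : ∀ i, 0 < w i ⬝ᵥ w i)
    (hK : ∀ t : ι → ℝ, 0 < (∑ i, Real.exp (t i) • vecMulVec (w i) (w i)).det ∧
      ∑ i, (w i ⬝ᵥ w i) * t i + (1 / 2) * ∑ i, ∑ j, (w i ⬝ᵥ w j) ^ 2 * KK (t i - t j) ≤
        Real.log (∑ i, Real.exp (t i) • vecMulVec (w i) (w i)).det)
    (T : ι → ℝ) (W : (Fin d → ℝ) → ℝ) (hW : ∀ g, W g ≤ Ffun w T g) :
    0 < (∑ i, (√(w i ⬝ᵥ w i) * (gpdf (T i))⁻¹) • vecMulVec (w i) (w i)).det ∧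
    ENNReal.ofReal ((∑ i, (√(w i ⬝ᵥ w i) * (gpdf (T i))⁻¹) • vecMulVec (w i) (w i)).det⁻¹) ≤
      ENNReal.ofReal (Real.exp (-((1 / 2) * ∑ i, (w i ⬝ᵥ w i) * Real.log (w i ⬝ᵥ w i)))) *
        ((⨅ g : Fin d → ℝ, ENNReal.ofReal (Real.exp ((1 / 2) *
          ∑ a, (g a - (∑ i, (√(w i ⬝ᵥ w i) * T i) • w i) a) ^ 2 - W g))) *
        ENNReal.ofReal (∏ a, gpdf ((∑ i, (√(w i ⬝ᵥ w i) * T i) • w i) a))) := by
  classical
  set y : Fin d → ℝ := ∑ i, (√(w i ⬝ᵥ w i) * T i) • w i with hy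
  set t : ι → ℝ := fun i => (1 / 2) * Real.log (w i ⬝ᵥ w i) + (1 / 2) * T i ^ 2 with ht
  set S : ℝ := ∑ i, ∑ j, (w i ⬝ᵥ w j) ^ 2 * KK (t i - t j) with hS
  have h2pi : (0 : ℝ) < √(2 * Real.pi) := Real.sqrt_pos.2 (by positivity)
  have hg : ∀ i, √(w i ⬝ᵥ w i) * (gpdf (T i))⁻¹ = √(2 * Real.pi) * Real.exp (t i) := by
    intro i
    have h1 : √(w i ⬝ᵥ w i) = Real.exp ((1 / 2) * Real.log (w i ⬝ᵥ w i)) := by
      rw [Real.sqrt_eq_rpow, Real.rpow_def_of_pos (hc0 i)]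
      congr 1; ring
    have h2 : (gpdf (T i))⁻¹ = √(2 * Real.pi) * Real.exp ((1 / 2) * T i ^ 2) := by
      unfold gpdf
      rw [mul_inv, inv_inv, ← Real.exp_neg]
      congr 2; ring
    rw [h1, h2, ht]
    simp only
    rw [Real.exp_add]; ring
  have hM : (∑ i, (√(w i ⬝ᵥ w i) * (gpdf (T i))⁻¹) • vecMulVec (w i) (w i)) =
      √(2 * Real.pi) • ∑ i, Real.exp (t i) • vecMulVec (w i) (w i) := by
    rw [Finset.smul_sum]
    refine Finset.sum_congr rfl fun i _ => ?_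
    rw [hg i, mul_smul]
  have hdet : (∑ i, (√(w i ⬝ᵥ w i) * (gpdf (T i))⁻¹) • vecMulVec (w i) (w i)).det =
      √(2 * Real.pi) ^ d * (∑ i, Real.exp (t i) • vecMulVec (w i) (w i)).det := by
    rw [hM, Matrix.det_smul, Fintype.card_fin]
  obtain ⟨hD, hlog⟩ := hK t
  rw [hdet]
  refine ⟨by positivity, ?_⟩
  set D := (∑ i, Real.exp (t i) • vecMulVec (w i) (w i)).det with hDdef
  have hprod : ∏ a, gpdf (y a) = (√(2 * Real.pi) ^ d)⁻¹ * Real.exp (-((1 / 2) * (y ⬝ᵥ y))) := by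
    unfold gpdf
    rw [Finset.prod_mul_distrib, Finset.prod_const, Finset.card_univ, Fintype.card_fin,
      ← Real.exp_sum, inv_pow]
    congr 2
    rw [dotProduct, Finset.mul_sum, ← Finset.sum_neg_distrib]
    refine Finset.sum_congr rfl fun a _ => ?_
    ring
  have hct : ∑ i, (w i ⬝ᵥ w i) * t i = (1 / 2) * ∑ i, (w i ⬝ᵥ w i) * Real.log (w i ⬝ᵥ w i) +
      (1 / 2) * ∑ i, (w i ⬝ᵥ w i) * T i ^ 2 := by
    rw [Finset.mul_sum, Finset.mul_sum, ← Finset.sum_add_distrib]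
    refine Finset.sum_congr rfl fun i _ => ?_
    simp only [ht]; ring
  have hinf : ENNReal.ofReal (Real.exp ((1 / 2) * (y ⬝ᵥ y) -
      (1 / 2) * ∑ i, (w i ⬝ᵥ w i) * T i ^ 2 - (1 / 2) * S)) ≤
      ⨅ g : Fin d → ℝ, ENNReal.ofReal (Real.exp ((1 / 2) * ∑ a, (g a - y a) ^ 2 - W g)) := by
    refine le_iInf fun g => ENNReal.ofReal_le_ofReal (Real.exp_le_exp.2 ?_)
    have h1 : ∑ a, (g a - y a) ^ 2 = g ⬝ᵥ g - 2 * (y ⬝ᵥ g) + y ⬝ᵥ y := by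
      simp only [dotProduct]
      rw [Finset.mul_sum, ← Finset.sum_sub_distrib, ← Finset.sum_add_distrib]
      refine Finset.sum_congr rfl fun a _ => ?_
      ring
    have h2 : W g ≤ (1 / 2) * ∑ i, (w i ⬝ᵥ w i) * T i ^ 2 - y ⬝ᵥ g
        + (1 / 2) * (g ⬝ᵥ g) + (1 / 2) * S := hW g
    rw [h1]
    linarith
  calc ENNReal.ofReal ((√(2 * Real.pi) ^ d * D)⁻¹)
      ≤ ENNReal.ofReal (Real.exp (-((1 / 2) * ∑ i, (w i ⬝ᵥ w i) * Real.log (w i ⬝ᵥ w i))) *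
        (Real.exp ((1 / 2) * (y ⬝ᵥ y) -
      (1 / 2) * ∑ i, (w i ⬝ᵥ w i) * T i ^ 2 - (1 / 2) * S) * ∏ a, gpdf (y a))) := by
        refine ENNReal.ofReal_le_ofReal ?_
        rw [hprod]
        have h3 : Real.exp (-((1 / 2) * ∑ i, (w i ⬝ᵥ w i) * Real.log (w i ⬝ᵥ w i))) *
          (Real.exp ((1 / 2) * (y ⬝ᵥ y) -
            (1 / 2) * ∑ i, (w i ⬝ᵥ w i) * T i ^ 2 - (1 / 2) * S) *
            ((√(2 * Real.pi) ^ d)⁻¹ * Real.exp (-((1 / 2) * (y ⬝ᵥ y))))) =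
          (√(2 * Real.pi) ^ d)⁻¹ * Real.exp (-(∑ i, (w i ⬝ᵥ w i) * t i + (1 / 2) * S)) := by
          rw [hct]
          have : -((1 / 2) * ∑ i, (w i ⬝ᵥ w i) * Real.log (w i ⬝ᵥ w i) +
              (1 / 2) * ∑ i, (w i ⬝ᵥ w i) * T i ^ 2 + (1 / 2) * S) =
              -((1 / 2) * ∑ i, (w i ⬝ᵥ w i) * Real.log (w i ⬝ᵥ w i)) +
              (((1 / 2) * (y ⬝ᵥ y) - (1 / 2) * ∑ i, (w i ⬝ᵥ w i) * T i ^ 2 - (1 / 2) * S) +
                -((1 / 2) * (y ⬝ᵥ y))) := by ring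
          rw [this, Real.exp_add, Real.exp_add]
          ring
        rw [h3, mul_inv]
        refine mul_le_mul_of_nonneg_left ?_ (by positivity)
        rw [Real.exp_neg]
        refine inv_anti₀ (Real.exp_pos _) ?_
        rw [← Real.le_log_iff_exp_le hD]
        exact hlog
    _ = ENNReal.ofReal (Real.exp (-((1 / 2) * ∑ i, (w i ⬝ᵥ w i) * Real.log (w i ⬝ᵥ w i)))) *
        (ENNReal.ofReal (Real.exp ((1 / 2) * (y ⬝ᵥ y) -
      (1 / 2) * ∑ i, (w i ⬝ᵥ w i) * T i ^ 2 - (1 / 2) * S)) *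
        ENNReal.ofReal (∏ a, gpdf (y a))) := by
        rw [ENNReal.ofReal_mul (Real.exp_pos _).le, ENNReal.ofReal_mul (Real.exp_pos _).le]
    _ ≤ _ := by gcongr

end J21276

namespace J21277

theorem iso_vol {d : ℕ} {ι : Type*} [Fintype ι] (w : ι → Fin d → ℝ)
    (hI : ∑ i, vecMulVec (w i) (w i) = 1) (hc0 : ∀ i, 0 < w i ⬝ᵥ w i)
    (W : (Fin d → ℝ) → ℝ) (hWm : Measurable W)
    (hWi : Integrable W (Measure.pi (fun _ : Fin d => gaussianReal 0 1)))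
    (hW : ∀ T g, W g ≤ Ffun w T g)
    (hQ : ∃ Q : ℝ → ℝ, ∀ s : ℝ, -(1 / 2) < s → s < 1 / 2 →
      gtail (Q s) = 1 / 2 - s ∧ HasDerivAt Q (gpdf (Q s))⁻¹ s)
    (hfd : ∀ (φ : ι → ℝ → ℝ) (φ' : ι → ℝ) (y : Fin d → ℝ),
      (∀ i, HasDerivAt (φ i) (φ' i) (w i ⬝ᵥ y)) →
      ∃ L : (Fin d → ℝ) →L[ℝ] (Fin d → ℝ),
      HasFDerivAt (fun y : Fin d → ℝ => ∑ i, φ i (w i ⬝ᵥ y) • w i) L y ∧
      L.det = (∑ i, φ' i • vecMulVec (w i) (w i)).det)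
    (htr : ∀ (U : Set (Fin d → ℝ)), MeasurableSet U → ∀ (φ φ' : ι → ℝ → ℝ),
      (∀ x ∈ U, ∀ y ∈ U, ∀ i, w i ⬝ᵥ x < w i ⬝ᵥ y → φ i (w i ⬝ᵥ x) < φ i (w i ⬝ᵥ y)) →
      (∀ x ∈ U, ∃ L : (Fin d → ℝ) →L[ℝ] (Fin d → ℝ),
        HasFDerivAt (fun y : Fin d → ℝ => ∑ i, φ i (w i ⬝ᵥ y) • w i) L x ∧
        L.det = (∑ i, φ' i (w i ⬝ᵥ x) • vecMulVec (w i) (w i)).det) →
      (∀ x ∈ U, 0 < (∑ i, φ' i (w i ⬝ᵥ x) • vecMulVec (w i) (w i)).det) →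
      ∀ (G : (Fin d → ℝ) → ℝ≥0∞),
      (∀ x ∈ U, ENNReal.ofReal ((∑ i, φ' i (w i ⬝ᵥ x) • vecMulVec (w i) (w i)).det⁻¹) ≤
        G (∑ i, φ i (w i ⬝ᵥ x) • w i)) →
      volume U ≤ ∫⁻ y, G y)
    (hdns : ∀ (T : ι → ℝ),
      0 < (∑ i, (√(w i ⬝ᵥ w i) * (gpdf (T i))⁻¹) • vecMulVec (w i) (w i)).det ∧
      ENNReal.ofReal ((∑ i, (√(w i ⬝ᵥ w i) * (gpdf (T i))⁻¹) • vecMulVec (w i) (w i)).det⁻¹) ≤
      ENNReal.ofReal (Real.exp (-((1 / 2) * ∑ i, (w i ⬝ᵥ w i) * Real.log (w i ⬝ᵥ w i)))) *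
        ((⨅ g : Fin d → ℝ, ENNReal.ofReal (Real.exp ((1 / 2) *
          ∑ a, (g a - (∑ i, (√(w i ⬝ᵥ w i) * T i) • w i) a) ^ 2 - W g))) *
        ENNReal.ofReal (∏ a, gpdf ((∑ i, (√(w i ⬝ᵥ w i) * T i) • w i) a))))
    (hmeas : Measurable (fun y : Fin d → ℝ => ⨅ g : Fin d → ℝ,
      ENNReal.ofReal (Real.exp ((1 / 2) * ∑ i, (g i - y i) ^ 2 - W g))))
    (hdens : ∀ f : (Fin d → ℝ) → ℝ≥0∞, Measurable f →
      ∫⁻ y, f y ∂(Measure.pi (fun _ : Fin d => gaussianReal 0 1)) =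
        ∫⁻ y : Fin d → ℝ, f y * ENNReal.ofReal (∏ i, gpdf (y i)))
    (hT2 : ∀ (H : (Fin d → ℝ) → ℝ≥0∞), Measurable H →
      (∀ g y, H y ≤ ENNReal.ofReal (Real.exp ((1 / 2) * ∑ i, (g i - y i) ^ 2 - W g))) →
      ∫⁻ y, H y ∂(Measure.pi (fun _ : Fin d => gaussianReal 0 1)) ≤
      ENNReal.ofReal (Real.exp (-∫ g, W g ∂(Measure.pi (fun _ : Fin d => gaussianReal 0 1))))) :
    volume {x : Fin d → ℝ | ∀ i, |w i ⬝ᵥ x| < 1 / 2} ≤
      ENNReal.ofReal (Real.exp (-((1 / 2) * ∑ i, (w i ⬝ᵥ w i) * Real.log (w i ⬝ᵥ w i)))) *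
      ENNReal.ofReal (Real.exp (-∫ g, W g ∂(Measure.pi (fun _ : Fin d => gaussianReal 0 1)))) := by
  classical
  obtain ⟨Q, hQ⟩ := hQ
  have hgp : ∀ u, 0 < gpdf u := by
    intro u
    unfold gpdf
    positivity
  have hmono : StrictMonoOn Q (Set.Ioo (-(1 / 2) : ℝ) (1 / 2)) := by
    apply strictMonoOn_of_deriv_pos (convex_Ioo _ _)
    · intro s hs
      exact (hQ s hs.1 hs.2).2.continuousAt.continuousWithinAt
    · intro s hs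
      rw [interior_Ioo] at hs
      rw [(hQ s hs.1 hs.2).2.deriv]
      exact inv_pos.mpr (hgp _)
  set U : Set (Fin d → ℝ) := {x : Fin d → ℝ | ∀ i, |w i ⬝ᵥ x| < 1 / 2} with hU
  have hUm : MeasurableSet U := by
    have h1 : U = ⋂ i, {x : Fin d → ℝ | |w i ⬝ᵥ x| < 1 / 2} := by
      ext x
      simp [hU]
    rw [h1]
    apply MeasurableSet.iInter
    intro i
    apply measurableSet_lt _ measurable_const
    apply Continuous.measurable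
    unfold dotProduct
    fun_prop
  have hUi : ∀ x ∈ U, ∀ i, w i ⬝ᵥ x ∈ Set.Ioo (-(1 / 2) : ℝ) (1 / 2) := by
    intro x hx i
    have h1 : |w i ⬝ᵥ x| < 1 / 2 := hx i
    exact ⟨by linarith [(abs_lt.mp h1).1], (abs_lt.mp h1).2⟩
  refine (htr U hUm (fun i s => √(w i ⬝ᵥ w i) * Q s)
    (fun i s => √(w i ⬝ᵥ w i) * (gpdf (Q s))⁻¹) ?_ ?_ ?_
    (fun y => ENNReal.ofReal (Real.exp (-((1 / 2) * ∑ i, (w i ⬝ᵥ w i) * Real.log (w i ⬝ᵥ w i)))) *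
        ((⨅ g : Fin d → ℝ, ENNReal.ofReal (Real.exp ((1 / 2) *
          ∑ a, (g a - y a) ^ 2 - W g))) *
        ENNReal.ofReal (∏ a, gpdf (y a)))) ?_).trans ?_
  · intro x hx y hy i hxy
    exact mul_lt_mul_of_pos_left (hmono (hUi x hx i) (hUi y hy i) hxy)
      (Real.sqrt_pos.mpr (hc0 i))
  · intro x hx
    exact hfd (fun i s => √(w i ⬝ᵥ w i) * Q s)
      (fun i => √(w i ⬝ᵥ w i) * (gpdf (Q (w i ⬝ᵥ x)))⁻¹) x
      (fun i => (hQ _ (hUi x hx i).1 (hUi x hx i).2).2.const_mul _)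
  · intro x hx
    exact (hdns (fun i => Q (w i ⬝ᵥ x))).1
  · intro x hx
    exact (hdns (fun i => Q (w i ⬝ᵥ x))).2
  · rw [lintegral_const_mul' _ _ ENNReal.ofReal_ne_top]
    gcongr
    rw [← hdens _ hmeas]
    exact hT2 _ hmeas (fun g y => iInf_le _ g)

end J21277

namespace J21278

theorem iso_Q_nonneg {d m : ℕ} (w : Fin m → Fin d → ℝ) (hpos : ∀ i, 0 < w i ⬝ᵥ w i) :
    0 ≤ ∑ i, ∑ j, (w i ⬝ᵥ w j) ^ 2 *
      (1 - (w i ⬝ᵥ w j) ^ 2 / ((w i ⬝ᵥ w i) * (w j ⬝ᵥ w j))) := by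
  refine Finset.sum_nonneg fun i _ => Finset.sum_nonneg fun j _ => ?_
  refine mul_nonneg (sq_nonneg _) ?_
  have h1 : (w i ⬝ᵥ w j) ^ 2 ≤ (w i ⬝ᵥ w i) * (w j ⬝ᵥ w j) := by
    have h := Finset.sum_mul_sq_le_sq_mul_sq Finset.univ (w i) (w j)
    simp only [dotProduct]
    refine h.trans (le_of_eq ?_)
    congr 1
    · exact Finset.sum_congr rfl fun k _ => sq _
    · exact Finset.sum_congr rfl fun k _ => sq _
  have h2 : (w i ⬝ᵥ w j) ^ 2 / ((w i ⬝ᵥ w i) * (w j ⬝ᵥ w j)) ≤ 1 := by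
    rw [div_le_one (mul_pos (hpos i) (hpos j))]
    exact h1
  linarith

theorem iso_lam7 (b : ℕ) (hb : 7 ≤ b) : b * Ab b - 1 ≤ 0.085 := by
  have hbR : (7 : ℝ) ≤ b := by exact_mod_cast hb
  have hb1 : (0 : ℝ) < b - 1 := by linarith
  have hb0 : (0 : ℝ) < b := by linarith
  have hy : 1 ≤ (b : ℝ) / (b - 1) := by
    rw [le_div_iff₀ hb1]
    linarith
  have hy0 : 0 < (b : ℝ) / (b - 1) := by positivity
  have h1 : Real.log ((b : ℝ) / (b - 1)) ≤ Real.sinh (Real.log ((b : ℝ) / (b - 1))) :=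
    Real.self_le_sinh_iff.2 (Real.log_nonneg hy)
  rw [Real.sinh_log hy0, inv_div] at h1
  unfold Ab
  have h2 : (b : ℝ) * Real.log ((b : ℝ) / (b - 1)) ≤
      b * (((b : ℝ) / (b - 1) - (b - 1) / b) / 2) := mul_le_mul_of_nonneg_left h1 hb0.le
  have h3 : (b : ℝ) * (((b : ℝ) / (b - 1) - (b - 1) / b) / 2) - 1 = 1 / (2 * (b - 1)) := by
    field_simp
    ring
  have h4 : (1 : ℝ) / (2 * (b - 1)) ≤ 1 / 12 := by
    apply one_div_le_one_div_of_le (by norm_num)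
    linarith
  have h5 : (1 : ℝ) / 12 ≤ 0.085 := by norm_num
  linarith

theorem iso_lam6 : ((6 : ℕ) : ℝ) * Ab 6 - 1 ≤ 0.0965 := by
  have h1 : Real.log (6 / 5) ≤ 0.18275 := by
    rw [Real.log_le_iff_le_exp (by norm_num)]
    have h2 := Real.sum_le_exp_of_nonneg (x := 0.18275) (by norm_num) 4
    refine le_trans ?_ h2
    simp only [Finset.sum_range_succ, Finset.sum_range_zero, Nat.factorial]
    norm_num
  unfold Ab
  have h3 : (((6 : ℕ) : ℝ)) / (((6 : ℕ) : ℝ) - 1) = 6 / 5 := by norm_num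
  rw [h3]
  push_cast
  linarith

theorem iso_final {d m : ℕ} (w : Fin m → Fin d → ℝ)
    (hI : ∑ i, vecMulVec (w i) (w i) = 1) (b : ℕ) (hb : 6 ≤ b)
    (hc : ∀ i, 1 / (b : ℝ) ≤ w i ⬝ᵥ w i) (hc' : ∀ i, w i ⬝ᵥ w i ≤ 1 / ((b : ℝ) - 1))
    (hdem : ∑ i, (-((w i ⬝ᵥ w i) * Real.log (w i ⬝ᵥ w i)) - Ab b - Bb b * (w i ⬝ᵥ w i)) ≤
      (b * Ab b - 1) * ∑ i, ∑ j, (w i ⬝ᵥ w j) ^ 2 *
        (1 - (w i ⬝ᵥ w j) ^ 2 / ((w i ⬝ᵥ w i) * (w j ⬝ᵥ w j))))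
    (hbd : volume {x : Fin d → ℝ | ∀ i, |w i ⬝ᵥ x| ≤ 1 / 2} ≤
      volume {x : Fin d → ℝ | ∀ i, |w i ⬝ᵥ x| < 1 / 2})
    (hvol : ∀ r κ : ℝ, 1 ≤ r → (∀ i, r * (1 - w i ⬝ᵥ w i) ≤ 1) →
      ((r = 1.2 ∧ κ = 0.0965) ∨ (r = 1 ∧ κ = 0.085)) →
      volume {x : Fin d → ℝ | ∀ i, |w i ⬝ᵥ x| < 1 / 2} ≤
      ENNReal.ofReal (Real.exp (-((1 / 2) * ∑ i, (w i ⬝ᵥ w i) * Real.log (w i ⬝ᵥ w i)))) *
      ENNReal.ofReal (Real.exp (-((κ / 2) * ∑ i, ∑ j, (w i ⬝ᵥ w j) ^ 2 *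
        (1 - (w i ⬝ᵥ w j) ^ 2 / ((w i ⬝ᵥ w i) * (w j ⬝ᵥ w j))))))) :
    volume {x : Fin d → ℝ | ∀ i, |w i ⬝ᵥ x| ≤ 1 / 2} ≤
      ENNReal.ofReal (Real.exp ((m * Ab b + d * Bb b) / 2)) := by
  have hbR : (6 : ℝ) ≤ b := by exact_mod_cast hb
  have hb0 : (0 : ℝ) < b := by linarith
  have hpos : ∀ i, 0 < w i ⬝ᵥ w i := by
    intro i
    have h1 : 0 < 1 / (b : ℝ) := by positivity
    exact lt_of_lt_of_le h1 (hc i)
  have hQ := iso_Q_nonneg w hpos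
  have htr : ∑ i, w i ⬝ᵥ w i = (d : ℝ) := by
    have h1 := congrArg Matrix.trace hI
    rw [Matrix.trace_sum, Matrix.trace_one, Fintype.card_fin] at h1
    rw [← h1]
    refine Finset.sum_congr rfl fun i _ => ?_
    rw [Matrix.trace_vecMulVec]
  obtain ⟨Q, hQdef⟩ : ∃ Q, Q = ∑ i, ∑ j, (w i ⬝ᵥ w j) ^ 2 *
      (1 - (w i ⬝ᵥ w j) ^ 2 / ((w i ⬝ᵥ w i) * (w j ⬝ᵥ w j))) := ⟨_, rfl⟩
  rw [← hQdef] at hQ hdem
  obtain ⟨S, hS⟩ : ∃ S, S = ∑ i, (w i ⬝ᵥ w i) * Real.log (w i ⬝ᵥ w i) := ⟨_, rfl⟩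
  have hdem' : -S - m * Ab b - Bb b * d ≤ (b * Ab b - 1) * Q := by
    have e : ∑ i, (-((w i ⬝ᵥ w i) * Real.log (w i ⬝ᵥ w i)) - Ab b - Bb b * (w i ⬝ᵥ w i)) =
        -S - m * Ab b - Bb b * d := by
      rw [Finset.sum_sub_distrib, Finset.sum_sub_distrib, Finset.sum_neg_distrib, ← hS,
        Finset.sum_const, Finset.card_univ, Fintype.card_fin, nsmul_eq_mul, ← Finset.mul_sum, htr]
    rw [← e]
    exact hdem
  have hfin : ∀ r κ : ℝ, 1 ≤ r → (∀ i, r * (1 - w i ⬝ᵥ w i) ≤ 1) →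
      ((r = 1.2 ∧ κ = 0.0965) ∨ (r = 1 ∧ κ = 0.085)) → b * Ab b - 1 ≤ κ →
      volume {x : Fin d → ℝ | ∀ i, |w i ⬝ᵥ x| ≤ 1 / 2} ≤
      ENNReal.ofReal (Real.exp ((m * Ab b + d * Bb b) / 2)) := by
    intro r κ hr hri hrk hlam
    refine hbd.trans ((hvol r κ hr hri hrk).trans ?_)
    rw [← hQdef, ← hS, ← ENNReal.ofReal_mul (Real.exp_pos _).le, ← Real.exp_add]
    refine ENNReal.ofReal_le_ofReal (Real.exp_le_exp.2 ?_)
    have h1 : (b * Ab b - 1) * Q ≤ κ * Q := mul_le_mul_of_nonneg_right hlam hQ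
    linarith
  rcases Nat.lt_or_ge b 7 with h7 | h7
  · have hb6 : b = 6 := by omega
    subst hb6
    refine hfin 1.2 0.0965 (by norm_num) ?_ (Or.inl ⟨rfl, rfl⟩) iso_lam6
    intro i
    have h1 := hc i
    push_cast at h1
    norm_num
    linarith
  · refine hfin 1 0.085 le_rfl ?_ (Or.inr ⟨rfl, rfl⟩) (iso_lam7 b h7)
    intro i
    have := hpos i
    linarith

end J21278

end Pool.Agent.Helper7.Simplex.Cube
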