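import Pool.Agent.Helper7.Cube.Defs

set_option linter.all false

open MeasureTheory ProbabilityTheory Matrix
open scoped ENNReal

namespace Pool.Agent.Helper7.Simplex.Cube

namespace J21022

theorem P_law_one (c : ℝ) : ∫ x, Complex.exp (((c * x : ℝ) : ℂ) * Complex.I) ∂(gaussianReal 0 1)
    = Complex.exp ((-(c ^ 2 / 2) : ℝ) : ℂ) := by
  have h1 := charFun_gaussianReal (μ := 0) (v := 1) c
  rw [charFun_apply_real] at h1
  have h2 : ∀ x : ℝ, Complex.exp (((c * x : ℝ) : ℂ) * Complex.I)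
      = Complex.exp ((c : ℂ) * x * Complex.I) := by
    intro x; push_cast; rfl
  simp_rw [h2]
  rw [h1]
  congr 1
  push_cast
  simp

theorem P_law_pi {d : ℕ} (c : Fin d → ℝ) :
    ∫ y, Complex.exp (((c ⬝ᵥ y : ℝ) : ℂ) * Complex.I)
      ∂(Measure.pi (fun _ : Fin d => gaussianReal 0 1))
    = Complex.exp ((-(c ⬝ᵥ c / 2) : ℝ) : ℂ) := by
  have h1 : ∀ y : Fin d → ℝ, Complex.exp (((c ⬝ᵥ y : ℝ) : ℂ) * Complex.I)
      = ∏ i, Complex.exp (((c i * y i : ℝ) : ℂ) * Complex.I) := by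
    intro y
    rw [← Complex.exp_sum, ← Finset.sum_mul, ← Complex.ofReal_sum]
    rfl
  simp_rw [h1]
  rw [integral_fintype_prod_eq_prod (𝕜 := ℂ)
    (fun (i : Fin d) (x : ℝ) => Complex.exp (((c i * x : ℝ) : ℂ) * Complex.I))]
  simp_rw [P_law_one]
  rw [← Complex.exp_sum, ← Complex.ofReal_sum]
  congr 2
  rw [Finset.sum_neg_distrib, ← Finset.sum_div]
  congr 2
  refine Finset.sum_congr rfl fun i _ => by ring

theorem P_law_prod (s t : ℝ) :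
    ∫ p : ℝ × ℝ, Complex.exp (((s * p.1 + t * p.2 : ℝ) : ℂ) * Complex.I)
      ∂((gaussianReal 0 1).prod (gaussianReal 0 1))
    = Complex.exp ((-((s ^ 2 + t ^ 2) / 2) : ℝ) : ℂ) := by
  have h1 : ∀ p : ℝ × ℝ, Complex.exp (((s * p.1 + t * p.2 : ℝ) : ℂ) * Complex.I)
      = Complex.exp (((s * p.1 : ℝ) : ℂ) * Complex.I)
        * Complex.exp (((t * p.2 : ℝ) : ℂ) * Complex.I) := by
    intro p
    rw [← Complex.exp_add, Complex.ofReal_add, add_mul]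
  simp_rw [h1]
  rw [integral_prod_mul (fun x : ℝ => Complex.exp (((s * x : ℝ) : ℂ) * Complex.I))
    (fun x : ℝ => Complex.exp (((t * x : ℝ) : ℂ) * Complex.I)), P_law_one, P_law_one,
    ← Complex.exp_add, ← Complex.ofReal_add]
  congr 2
  ring

theorem P_law {d : ℕ} (a b : Fin d → ℝ) (ha : a ⬝ᵥ a = 1) (hb : b ⬝ᵥ b = 1) :
    (Measure.pi (fun _ : Fin d => gaussianReal 0 1)).map (fun y => (a ⬝ᵥ y, b ⬝ᵥ y)) =
      ((gaussianReal 0 1).prod (gaussianReal 0 1)).map (fun p : ℝ × ℝ =>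
        (√((1 + a ⬝ᵥ b) / 2) * p.1 + √((1 - a ⬝ᵥ b) / 2) * p.2,
         √((1 + a ⬝ᵥ b) / 2) * p.1 - √((1 - a ⬝ᵥ b) / 2) * p.2)) := by
  have hm1 : Measurable (fun y : Fin d → ℝ => (a ⬝ᵥ y, b ⬝ᵥ y)) := by
    unfold dotProduct
    fun_prop
  have hm2 : Measurable (fun p : ℝ × ℝ =>
        (√((1 + a ⬝ᵥ b) / 2) * p.1 + √((1 - a ⬝ᵥ b) / 2) * p.2,
         √((1 + a ⬝ᵥ b) / 2) * p.1 - √((1 - a ⬝ᵥ b) / 2) * p.2)) := by fun_prop
  have hpos : ∀ c : Fin d → ℝ, 0 ≤ c ⬝ᵥ c := by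
    intro c
    unfold dotProduct
    exact Finset.sum_nonneg fun i _ => mul_self_nonneg _
  have h1 : 0 ≤ 1 + a ⬝ᵥ b := by
    have := hpos (a + b)
    rw [add_dotProduct, dotProduct_add, dotProduct_add, ha, hb, dotProduct_comm b a] at this
    linarith
  have h2 : 0 ≤ 1 - a ⬝ᵥ b := by
    have := hpos (a - b)
    rw [sub_dotProduct, dotProduct_sub, dotProduct_sub, ha, hb, dotProduct_comm b a] at this
    linarith
  have hc : √((1 + a ⬝ᵥ b) / 2) ^ 2 = (1 + a ⬝ᵥ b) / 2 := Real.sq_sqrt (by linarith)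
  have he : √((1 - a ⬝ᵥ b) / 2) ^ 2 = (1 - a ⬝ᵥ b) / 2 := Real.sq_sqrt (by linarith)
  have : IsProbabilityMeasure ((Measure.pi (fun _ : Fin d => gaussianReal 0 1)).map
      (fun y => (a ⬝ᵥ y, b ⬝ᵥ y))) := Measure.isProbabilityMeasure_map hm1.aemeasurable
  have : IsProbabilityMeasure (((gaussianReal 0 1).prod (gaussianReal 0 1)).map
      (fun p : ℝ × ℝ =>
        (√((1 + a ⬝ᵥ b) / 2) * p.1 + √((1 - a ⬝ᵥ b) / 2) * p.2,
         √((1 + a ⬝ᵥ b) / 2) * p.1 - √((1 - a ⬝ᵥ b) / 2) * p.2))) :=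
    Measure.isProbabilityMeasure_map hm2.aemeasurable
  apply Measure.ext_of_charFunDual
  ext L
  have hL : ∀ s t : ℝ, L (s, t) = L (1, 0) * s + L (0, 1) * t := by
    intro s t
    have h3 : ((s, t) : ℝ × ℝ) = s • (1, 0) + t • (0, 1) := by simp
    rw [h3, map_add, map_smul, map_smul, smul_eq_mul, smul_eq_mul]
    ring
  have hcont : Continuous (fun v : ℝ × ℝ => Complex.exp ((L v : ℂ) * Complex.I)) := by fun_prop
  rw [charFunDual_apply, charFunDual_apply,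
    integral_map hm1.aemeasurable hcont.aestronglyMeasurable,
    integral_map hm2.aemeasurable hcont.aestronglyMeasurable]
  generalize √((1 + a ⬝ᵥ b) / 2) = c at hc ⊢
  generalize √((1 - a ⬝ᵥ b) / 2) = e at he ⊢
  have hl : ∀ y : Fin d → ℝ, L (a ⬝ᵥ y, b ⬝ᵥ y) = (L (1, 0) • a + L (0, 1) • b) ⬝ᵥ y := by
    intro y
    rw [hL, add_dotProduct, smul_dotProduct, smul_dotProduct, smul_eq_mul, smul_eq_mul]
  have hr : ∀ p : ℝ × ℝ, L (c * p.1 + e * p.2, c * p.1 - e * p.2)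
      = ((L (1, 0) + L (0, 1)) * c) * p.1 + ((L (1, 0) - L (0, 1)) * e) * p.2 := by
    intro p
    rw [hL]
    ring
  simp_rw [hl, hr]
  rw [P_law_pi, P_law_prod]
  congr 3
  rw [add_dotProduct, dotProduct_add, dotProduct_add, smul_dotProduct, smul_dotProduct,
    smul_dotProduct, smul_dotProduct, dotProduct_smul, dotProduct_smul, dotProduct_smul,
    dotProduct_smul, ha, hb, dotProduct_comm b a]
  simp only [smul_eq_mul]
  rw [mul_pow, mul_pow, hc, he]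
  ring


/-- joint law of two unit functionals of a standard Gaussian vector, asymmetric form; adapt the
proof of `P_law` above -/
theorem law2 {d : ℕ} (a b : Fin d → ℝ) (ha : a ⬝ᵥ a = 1) (hb : b ⬝ᵥ b = 1) :
    (Measure.pi (fun _ : Fin d => gaussianReal 0 1)).map (fun y => (a ⬝ᵥ y, b ⬝ᵥ y)) =
      ((gaussianReal 0 1).prod (gaussianReal 0 1)).map (fun p : ℝ × ℝ =>
        (p.1, (a ⬝ᵥ b) * p.1 + √(1 - (a ⬝ᵥ b) ^ 2) * p.2)) := by
  have hm1 : Measurable (fun y : Fin d → ℝ => (a ⬝ᵥ y, b ⬝ᵥ y)) := by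
    unfold dotProduct
    fun_prop
  have hm2 : Measurable (fun p : ℝ × ℝ =>
        (p.1, (a ⬝ᵥ b) * p.1 + √(1 - (a ⬝ᵥ b) ^ 2) * p.2)) := by fun_prop
  have hpos : ∀ c : Fin d → ℝ, 0 ≤ c ⬝ᵥ c := by
    intro c
    unfold dotProduct
    exact Finset.sum_nonneg fun i _ => mul_self_nonneg _
  have h1 : 0 ≤ 1 + a ⬝ᵥ b := by
    have := hpos (a + b)
    rw [add_dotProduct, dotProduct_add, dotProduct_add, ha, hb, dotProduct_comm b a] at this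
    linarith
  have h2 : 0 ≤ 1 - a ⬝ᵥ b := by
    have := hpos (a - b)
    rw [sub_dotProduct, dotProduct_sub, dotProduct_sub, ha, hb, dotProduct_comm b a] at this
    linarith
  have he : √(1 - (a ⬝ᵥ b) ^ 2) ^ 2 = 1 - (a ⬝ᵥ b) ^ 2 := Real.sq_sqrt (by nlinarith)
  have : IsProbabilityMeasure ((Measure.pi (fun _ : Fin d => gaussianReal 0 1)).map
      (fun y => (a ⬝ᵥ y, b ⬝ᵥ y))) := Measure.isProbabilityMeasure_map hm1.aemeasurable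
  have : IsProbabilityMeasure (((gaussianReal 0 1).prod (gaussianReal 0 1)).map
      (fun p : ℝ × ℝ =>
        (p.1, (a ⬝ᵥ b) * p.1 + √(1 - (a ⬝ᵥ b) ^ 2) * p.2))) :=
    Measure.isProbabilityMeasure_map hm2.aemeasurable
  apply Measure.ext_of_charFunDual
  ext L
  have hL : ∀ s t : ℝ, L (s, t) = L (1, 0) * s + L (0, 1) * t := by
    intro s t
    have h3 : ((s, t) : ℝ × ℝ) = s • (1, 0) + t • (0, 1) := by simp
    rw [h3, map_add, map_smul, map_smul, smul_eq_mul, smul_eq_mul]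
    ring
  have hcont : Continuous (fun v : ℝ × ℝ => Complex.exp ((L v : ℂ) * Complex.I)) := by fun_prop
  rw [charFunDual_apply, charFunDual_apply,
    integral_map hm1.aemeasurable hcont.aestronglyMeasurable,
    integral_map hm2.aemeasurable hcont.aestronglyMeasurable]
  generalize √(1 - (a ⬝ᵥ b) ^ 2) = e at he ⊢
  have hl : ∀ y : Fin d → ℝ, L (a ⬝ᵥ y, b ⬝ᵥ y) = (L (1, 0) • a + L (0, 1) • b) ⬝ᵥ y := by
    intro y
    rw [hL, add_dotProduct, smul_dotProduct, smul_dotProduct, smul_eq_mul, smul_eq_mul]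
  have hr : ∀ p : ℝ × ℝ, L (p.1, (a ⬝ᵥ b) * p.1 + e * p.2)
      = (L (1, 0) + L (0, 1) * (a ⬝ᵥ b)) * p.1 + (L (0, 1) * e) * p.2 := by
    intro p
    rw [hL]
    ring
  simp_rw [hl, hr]
  rw [P_law_pi, P_law_prod]
  congr 3
  rw [add_dotProduct, dotProduct_add, dotProduct_add, smul_dotProduct, smul_dotProduct,
    smul_dotProduct, smul_dotProduct, dotProduct_smul, dotProduct_smul, dotProduct_smul,
    dotProduct_smul, ha, hb, dotProduct_comm b a]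
  simp only [smul_eq_mul]
  rw [mul_pow (L (0, 1)) e, he]
  ring

end J21022

namespace J21023

theorem gauss_plane_pdf (a c σ : ℝ) (B : NNReal) (hB : (B : ℝ) = 1 + a * σ ^ 2) (hB0 : 0 < (B : ℝ)) (v : ℝ) :
    gaussianPDFReal 0 1 v * Real.exp (-(a * (c + σ * v) ^ 2) / 2) =
      ((√(B : ℝ))⁻¹ * Real.exp (-(a * c ^ 2 / B) / 2)) * gaussianPDFReal (-(a * c * σ) / B) (B⁻¹) v := by
  unfold gaussianPDFReal
  have h1 : √(2 * Real.pi * ((B⁻¹ : NNReal) : ℝ)) = √(2 * Real.pi) * (√(B : ℝ))⁻¹ := by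
    rw [NNReal.coe_inv, Real.sqrt_mul (by positivity), Real.sqrt_inv]
  have hs : √(B : ℝ) ≠ 0 := (Real.sqrt_pos.2 hB0).ne'
  have hB1 : (B : ℝ) ≠ 0 := hB0.ne'
  have hE : -(v - 0) ^ 2 / (2 * ((1 : NNReal) : ℝ)) + -(a * (c + σ * v) ^ 2) / 2 =
      -(a * c ^ 2 / B) / 2 + -(v - -(a * c * σ) / B) ^ 2 / (2 * ((B⁻¹ : NNReal) : ℝ)) := by
    rw [NNReal.coe_inv, NNReal.coe_one]
    field_simp
    rw [hB]
    ring
  have h2 : Real.exp (-(v - 0) ^ 2 / (2 * ((1 : NNReal) : ℝ))) * Real.exp (-(a * (c + σ * v) ^ 2) / 2) =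
      Real.exp (-(a * c ^ 2 / B) / 2) *
        Real.exp (-(v - -(a * c * σ) / B) ^ 2 / (2 * ((B⁻¹ : NNReal) : ℝ))) := by
    rw [← Real.exp_add, ← Real.exp_add, hE]
  have h3 : √(2 * Real.pi * ((1 : NNReal) : ℝ)) = √(2 * Real.pi) := by
    rw [NNReal.coe_one, mul_one]
  rw [h1, h3, mul_assoc, h2, mul_inv, inv_inv]
  field_simp

theorem gauss_plane_inner (a c σ : ℝ) (ha : 0 ≤ a) :
    ∫ v, Real.exp (-(a * (c + σ * v) ^ 2) / 2) ∂(gaussianReal 0 1) =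
      (√(1 + a * σ ^ 2))⁻¹ * Real.exp (-(a * c ^ 2 / (1 + a * σ ^ 2)) / 2) := by
  have hB0 : 0 < 1 + a * σ ^ 2 := by positivity
  let B : NNReal := ⟨1 + a * σ ^ 2, hB0.le⟩
  have hB : (B : ℝ) = 1 + a * σ ^ 2 := rfl
  rw [integral_gaussianReal_eq_integral_smul one_ne_zero]
  simp only [smul_eq_mul]
  simp only [gauss_plane_pdf a c σ B hB (by rw [hB]; exact hB0)]
  rw [integral_const_mul, integral_gaussianPDFReal_eq_one, mul_one, hB]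
  exact inv_ne_zero (fun h => hB0.ne' (by rw [← hB, h]; rfl))

theorem gauss_plane_second (v : NNReal) :
    ∫ x, x ^ 2 ∂(gaussianReal 0 v) = v := by
  have h1 := variance_fun_id_gaussianReal (μ := 0) (v := v)
  rw [variance_of_integral_eq_zero (by fun_prop) (by rw [integral_id_gaussianReal])] at h1
  exact h1

theorem gauss_plane_sq (s : ℝ) (hs : 0 ≤ s) :
    ∫ u, u ^ 2 * Real.exp (-(s * u ^ 2) / 2) ∂(gaussianReal 0 1) =
      (√(1 + s) * (1 + s))⁻¹ := by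
  have hB0 : 0 < 1 + s := by positivity
  let B : NNReal := ⟨1 + s, hB0.le⟩
  have hB : (B : ℝ) = 1 + s * 1 ^ 2 := by change 1 + s = _; ring
  have hB' : (B : ℝ) = 1 + s := rfl
  have hBi : B⁻¹ ≠ 0 := inv_ne_zero (fun h => hB0.ne' (by rw [← hB', h]; rfl))
  rw [integral_gaussianReal_eq_integral_smul one_ne_zero]
  simp only [smul_eq_mul]
  have h1 : ∀ u : ℝ, gaussianPDFReal 0 1 u * (u ^ 2 * Real.exp (-(s * u ^ 2) / 2)) =
      (√(1 + s))⁻¹ * (gaussianPDFReal 0 (B⁻¹) u * u ^ 2) := by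
    intro u
    have h2 := gauss_plane_pdf s 0 1 B hB (by rw [hB']; exact hB0) u
    simp only [zero_add, one_mul, mul_zero, zero_mul, neg_zero, zero_div, Real.exp_zero, mul_one,
      hB', ne_eq, OfNat.ofNat_ne_zero, not_false_eq_true, zero_pow] at h2
    calc gaussianPDFReal 0 1 u * (u ^ 2 * Real.exp (-(s * u ^ 2) / 2)) =
        (gaussianPDFReal 0 1 u * Real.exp (-(s * u ^ 2) / 2)) * u ^ 2 := by ring
      _ = _ := by rw [h2]; ring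
  simp only [h1]
  rw [integral_const_mul]
  have h3 := gauss_plane_second (B⁻¹)
  rw [integral_gaussianReal_eq_integral_smul hBi] at h3
  simp only [smul_eq_mul] at h3
  rw [h3, NNReal.coe_inv, hB', mul_inv]

theorem gauss_plane_le (p q : ℝ) (hp : 0 ≤ p) (hq : 0 ≤ q) (a b : ℝ) :
    Real.exp (-(p * a ^ 2 + q * b ^ 2) / 2) ≤ 1 := by
  rw [Real.exp_le_one_iff]
  have : 0 ≤ p * a ^ 2 + q * b ^ 2 := by positivity
  linarith

/-- closed forms for Gaussian integrals in the plane; `ρ² + σ² = 1` -/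
theorem gauss_plane (ρ σ : ℝ) (hρ : ρ ^ 2 + σ ^ 2 = 1) (p q : ℝ) (hp : 0 ≤ p) (hq : 0 ≤ q) :
    Integrable (fun x : ℝ × ℝ => Real.exp (-(p * x.1 ^ 2 + q * (ρ * x.1 + σ * x.2) ^ 2) / 2))
      ((gaussianReal 0 1).prod (gaussianReal 0 1)) ∧
    Integrable (fun x : ℝ × ℝ =>
      x.1 ^ 2 * Real.exp (-(p * x.1 ^ 2 + q * (ρ * x.1 + σ * x.2) ^ 2) / 2))
      ((gaussianReal 0 1).prod (gaussianReal 0 1)) ∧
    ∫ x : ℝ × ℝ, Real.exp (-(p * x.1 ^ 2 + q * (ρ * x.1 + σ * x.2) ^ 2) / 2)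
      ∂((gaussianReal 0 1).prod (gaussianReal 0 1)) = (√(1 + p + q + p * q * σ ^ 2))⁻¹ ∧
    ∫ x : ℝ × ℝ, x.1 ^ 2 * Real.exp (-(p * x.1 ^ 2 + q * (ρ * x.1 + σ * x.2) ^ 2) / 2)
      ∂((gaussianReal 0 1).prod (gaussianReal 0 1)) =
        (1 + q * σ ^ 2) * (√(1 + p + q + p * q * σ ^ 2) * (1 + p + q + p * q * σ ^ 2))⁻¹ := by
  have hcont : Continuous (fun x : ℝ × ℝ =>
      Real.exp (-(p * x.1 ^ 2 + q * (ρ * x.1 + σ * x.2) ^ 2) / 2)) := by fun_prop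
  have i1 : Integrable (fun x : ℝ × ℝ => Real.exp (-(p * x.1 ^ 2 + q * (ρ * x.1 + σ * x.2) ^ 2) / 2))
      ((gaussianReal 0 1).prod (gaussianReal 0 1)) := by
    refine Integrable.mono' (integrable_const (1 : ℝ)) hcont.aestronglyMeasurable ?_
    filter_upwards with x
    rw [Real.norm_eq_abs, Real.abs_exp]
    exact gauss_plane_le p q hp hq _ _
  have isq : Integrable (fun u : ℝ => u ^ 2) (gaussianReal 0 1) := by
    have h1 := memLp_id_gaussianReal (μ := 0) (v := 1) 2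
    exact h1.integrable_sq
  have i2 : Integrable (fun x : ℝ × ℝ =>
      x.1 ^ 2 * Real.exp (-(p * x.1 ^ 2 + q * (ρ * x.1 + σ * x.2) ^ 2) / 2))
      ((gaussianReal 0 1).prod (gaussianReal 0 1)) := by
    have h1 : Integrable (fun x : ℝ × ℝ => x.1 ^ 2) ((gaussianReal 0 1).prod (gaussianReal 0 1)) :=
      isq.comp_fst _
    refine Integrable.mono' h1 (by fun_prop) ?_
    filter_upwards with x
    rw [norm_mul, Real.norm_eq_abs, Real.norm_eq_abs, Real.abs_exp, abs_of_nonneg (sq_nonneg _)]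
    exact mul_le_of_le_one_right (sq_nonneg _) (gauss_plane_le p q hp hq _ _)
  have hA : 0 < 1 + q * σ ^ 2 := by positivity
  set s := p + q * ρ ^ 2 / (1 + q * σ ^ 2) with hs
  have hs0 : 0 ≤ s := by positivity
  have hD : (1 + q * σ ^ 2) * (1 + s) = 1 + p + q + p * q * σ ^ 2 := by
    rw [hs]
    field_simp
    linear_combination q * hρ
  have hinner : ∀ u : ℝ, ∫ v, Real.exp (-(p * u ^ 2 + q * (ρ * u + σ * v) ^ 2) / 2) ∂(gaussianReal 0 1) =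
      (√(1 + q * σ ^ 2))⁻¹ * Real.exp (-(s * u ^ 2) / 2) := by
    intro u
    have h1 : ∀ v : ℝ, Real.exp (-(p * u ^ 2 + q * (ρ * u + σ * v) ^ 2) / 2) =
        Real.exp (-(p * u ^ 2) / 2) * Real.exp (-(q * (ρ * u + σ * v) ^ 2) / 2) := by
      intro v
      rw [← Real.exp_add]; congr 1; ring
    simp only [h1]
    rw [integral_const_mul, gauss_plane_inner q (ρ * u) σ hq]
    rw [mul_left_comm, ← Real.exp_add]
    congr 2
    rw [hs]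
    ring
  have hsq : √(1 + q * σ ^ 2) * √(1 + s) = √(1 + p + q + p * q * σ ^ 2) := by
    rw [← hD, Real.sqrt_mul hA.le]
  refine ⟨i1, i2, ?_, ?_⟩
  · rw [integral_prod _ i1]
    simp only [hinner]
    rw [integral_const_mul]
    have h1 := gauss_plane_inner s 0 1 hs0
    simp only [zero_add, one_mul, ne_eq, OfNat.ofNat_ne_zero, not_false_eq_true, zero_pow, mul_zero,
      zero_div, neg_zero, Real.exp_zero, mul_one, one_pow] at h1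
    rw [h1, ← mul_inv, hsq]
  · rw [integral_prod _ i2]
    have h1 : ∀ u : ℝ, ∫ v, u ^ 2 * Real.exp (-(p * u ^ 2 + q * (ρ * u + σ * v) ^ 2) / 2) ∂(gaussianReal 0 1) =
      (√(1 + q * σ ^ 2))⁻¹ * (u ^ 2 * Real.exp (-(s * u ^ 2) / 2)) := by
      intro u
      rw [integral_const_mul, hinner]; ring
    simp only [h1]
    rw [integral_const_mul, gauss_plane_sq s hs0, ← hsq, ← hD]
    have hA1 := hA.ne'
    have hs1 : 1 + s ≠ 0 := by positivity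
    have hA2 : √(1 + q * σ ^ 2) ≠ 0 := (Real.sqrt_pos.2 hA).ne'
    have hs2 : √(1 + s) ≠ 0 := (Real.sqrt_pos.2 (by positivity)).ne'
    field_simp

end J21023

namespace J21024

theorem gauss_two_tr {d : ℕ} (a b : Fin d → ℝ) (ρ σ : ℝ)
    (hlaw : (Measure.pi (fun _ : Fin d => gaussianReal 0 1)).map (fun y => (a ⬝ᵥ y, b ⬝ᵥ y)) =
      ((gaussianReal 0 1).prod (gaussianReal 0 1)).map (fun p : ℝ × ℝ =>
        (p.1, ρ * p.1 + σ * p.2))) (f : ℝ × ℝ → ℝ) (hf : Continuous f)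
    (hi : Integrable (fun x : ℝ × ℝ => f (x.1, ρ * x.1 + σ * x.2))
      ((gaussianReal 0 1).prod (gaussianReal 0 1))) :
    Integrable (fun y => f (a ⬝ᵥ y, b ⬝ᵥ y)) (Measure.pi (fun _ : Fin d => gaussianReal 0 1)) ∧
    ∫ y, f (a ⬝ᵥ y, b ⬝ᵥ y) ∂(Measure.pi (fun _ : Fin d => gaussianReal 0 1)) =
      ∫ x : ℝ × ℝ, f (x.1, ρ * x.1 + σ * x.2) ∂((gaussianReal 0 1).prod (gaussianReal 0 1)) := by
  have hΦ : Continuous (fun y : Fin d → ℝ => (a ⬝ᵥ y, b ⬝ᵥ y)) := by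
    unfold dotProduct
    fun_prop
  have hΨ : Continuous (fun p : ℝ × ℝ => (p.1, ρ * p.1 + σ * p.2)) := by fun_prop
  have h1 : Integrable f (((gaussianReal 0 1).prod (gaussianReal 0 1)).map (fun p : ℝ × ℝ =>
        (p.1, ρ * p.1 + σ * p.2))) := by
    rw [integrable_map_measure hf.aestronglyMeasurable hΨ.measurable.aemeasurable]
    exact hi
  constructor
  · have h2 := h1
    rw [← hlaw, integrable_map_measure hf.aestronglyMeasurable hΦ.measurable.aemeasurable] at h2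
    exact h2
  · have h2 := integral_map (μ := Measure.pi (fun _ : Fin d => gaussianReal 0 1))
      (f := f) hΦ.measurable.aemeasurable hf.aestronglyMeasurable
    have h3 := integral_map (μ := (gaussianReal 0 1).prod (gaussianReal 0 1))
      (f := f) hΨ.measurable.aemeasurable hf.aestronglyMeasurable
    rw [← h2, ← h3, hlaw]

theorem gauss_two_cs {d : ℕ} (a b : Fin d → ℝ) (ha : a ⬝ᵥ a = 1) (hb : b ⬝ᵥ b = 1) :
    (√(1 - (a ⬝ᵥ b) ^ 2)) ^ 2 = 1 - (a ⬝ᵥ b) ^ 2 := by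
  apply Real.sq_sqrt
  have h := Finset.sum_mul_sq_le_sq_mul_sq Finset.univ a b
  have h1 : ∑ i, a i ^ 2 = 1 := by rw [← ha]; simp [dotProduct, sq]
  have h2 : ∑ i, b i ^ 2 = 1 := by rw [← hb]; simp [dotProduct, sq]
  rw [h1, h2] at h
  have h3 : (a ⬝ᵥ b) ^ 2 ≤ 1 * 1 := h
  linarith


theorem gauss_two {d : ℕ} 
    (hlaw : ∀ a b : Fin d → ℝ, a ⬝ᵥ a = 1 → b ⬝ᵥ b = 1 →
      (Measure.pi (fun _ : Fin d => gaussianReal 0 1)).map (fun y => (a ⬝ᵥ y, b ⬝ᵥ y)) =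
      ((gaussianReal 0 1).prod (gaussianReal 0 1)).map (fun p : ℝ × ℝ =>
        (p.1, (a ⬝ᵥ b) * p.1 + √(1 - (a ⬝ᵥ b) ^ 2) * p.2)))
    (hplane : ∀ (ρ σ : ℝ), ρ ^ 2 + σ ^ 2 = 1 → ∀ (p q : ℝ), 0 ≤ p → 0 ≤ q →
    Integrable (fun x : ℝ × ℝ => Real.exp (-(p * x.1 ^ 2 + q * (ρ * x.1 + σ * x.2) ^ 2) / 2))
      ((gaussianReal 0 1).prod (gaussianReal 0 1)) ∧
    Integrable (fun x : ℝ × ℝ =>
      x.1 ^ 2 * Real.exp (-(p * x.1 ^ 2 + q * (ρ * x.1 + σ * x.2) ^ 2) / 2))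
      ((gaussianReal 0 1).prod (gaussianReal 0 1)) ∧
    ∫ x : ℝ × ℝ, Real.exp (-(p * x.1 ^ 2 + q * (ρ * x.1 + σ * x.2) ^ 2) / 2)
      ∂((gaussianReal 0 1).prod (gaussianReal 0 1)) = (√(1 + p + q + p * q * σ ^ 2))⁻¹ ∧
    ∫ x : ℝ × ℝ, x.1 ^ 2 * Real.exp (-(p * x.1 ^ 2 + q * (ρ * x.1 + σ * x.2) ^ 2) / 2)
      ∂((gaussianReal 0 1).prod (gaussianReal 0 1)) =
        (1 + q * σ ^ 2) * (√(1 + p + q + p * q * σ ^ 2) * (1 + p + q + p * q * σ ^ 2))⁻¹)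
    (a b : Fin d → ℝ) (ha : a ⬝ᵥ a = 1) (hb : b ⬝ᵥ b = 1) (p q : ℝ) (hp : 0 ≤ p) (hq : 0 ≤ q) :
    Integrable (fun y => Real.exp (-(p * (a ⬝ᵥ y) ^ 2 + q * (b ⬝ᵥ y) ^ 2) / 2))
      (Measure.pi (fun _ : Fin d => gaussianReal 0 1)) ∧
    Integrable (fun y => (a ⬝ᵥ y) ^ 2 * Real.exp (-(p * (a ⬝ᵥ y) ^ 2 + q * (b ⬝ᵥ y) ^ 2) / 2))
      (Measure.pi (fun _ : Fin d => gaussianReal 0 1)) ∧
    ∫ y, Real.exp (-(p * (a ⬝ᵥ y) ^ 2 + q * (b ⬝ᵥ y) ^ 2) / 2)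
      ∂(Measure.pi (fun _ : Fin d => gaussianReal 0 1)) =
        (√(1 + p + q + p * q * (1 - (a ⬝ᵥ b) ^ 2)))⁻¹ ∧
    ∫ y, (a ⬝ᵥ y) ^ 2 * Real.exp (-(p * (a ⬝ᵥ y) ^ 2 + q * (b ⬝ᵥ y) ^ 2) / 2)
      ∂(Measure.pi (fun _ : Fin d => gaussianReal 0 1)) =
        (1 + q * (1 - (a ⬝ᵥ b) ^ 2)) * (√(1 + p + q + p * q * (1 - (a ⬝ᵥ b) ^ 2)) *
          (1 + p + q + p * q * (1 - (a ⬝ᵥ b) ^ 2)))⁻¹ := by
  have hs := gauss_two_cs a b ha hb
  obtain ⟨i1, i2, e1, e2⟩ := hplane (a ⬝ᵥ b) (√(1 - (a ⬝ᵥ b) ^ 2)) (by rw [hs]; ring) p q hp hq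
  rw [hs] at e1 e2
  obtain ⟨j1, k1⟩ := gauss_two_tr a b _ _ (hlaw a b ha hb)
    (fun x : ℝ × ℝ => Real.exp (-(p * x.1 ^ 2 + q * x.2 ^ 2) / 2)) (by fun_prop) i1
  obtain ⟨j2, k2⟩ := gauss_two_tr a b _ _ (hlaw a b ha hb)
    (fun x : ℝ × ℝ => x.1 ^ 2 * Real.exp (-(p * x.1 ^ 2 + q * x.2 ^ 2) / 2)) (by fun_prop) i2
  exact ⟨j1, j2, k1.trans e1, k2.trans e2⟩

end J21024

namespace J21026

def HIx {α : Type*} [MeasurableSpace α] (μ : Measure α) (f : α → ℝ) (v : ℝ) : Prop :=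
  Integrable f μ ∧ ∫ y, f y ∂μ = v

theorem HIx.add {α : Type*} [MeasurableSpace α] {μ : Measure α} {f g : α → ℝ} {u v : ℝ}
    (hf : HIx μ f u) (hg : HIx μ g v) : HIx μ (fun y => f y + g y) (u + v) :=
  ⟨hf.1.add hg.1, by rw [integral_add hf.1 hg.1, hf.2, hg.2]⟩

theorem HIx.smul {α : Type*} [MeasurableSpace α] {μ : Measure α} {f : α → ℝ} {u : ℝ}
    (hf : HIx μ f u) (c : ℝ) : HIx μ (fun y => c * f y) (c * u) :=
  ⟨hf.1.const_mul c, by rw [integral_const_mul, hf.2]⟩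

theorem HIx.congr {α : Type*} [MeasurableSpace α] {μ : Measure α} {f g : α → ℝ} {u v : ℝ}
    (hf : HIx μ f u) (h : ∀ y, f y = g y) (h' : u = v) : HIx μ g v := by
  have : f = g := funext h
  subst this; subst h'; exact hf

theorem EX {d : ℕ}
    (hg : ∀ (a b : Fin d → ℝ) (_ : a ⬝ᵥ a = 1) (_ : b ⬝ᵥ b = 1) (p q : ℝ) (_ : 0 ≤ p) (_ : 0 ≤ q),
    Integrable (fun y => Real.exp (-(p * (a ⬝ᵥ y) ^ 2 + q * (b ⬝ᵥ y) ^ 2) / 2))
      (Measure.pi (fun _ : Fin d => gaussianReal 0 1)) ∧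
    Integrable (fun y => (a ⬝ᵥ y) ^ 2 * Real.exp (-(p * (a ⬝ᵥ y) ^ 2 + q * (b ⬝ᵥ y) ^ 2) / 2))
      (Measure.pi (fun _ : Fin d => gaussianReal 0 1)) ∧
    ∫ y, Real.exp (-(p * (a ⬝ᵥ y) ^ 2 + q * (b ⬝ᵥ y) ^ 2) / 2)
      ∂(Measure.pi (fun _ : Fin d => gaussianReal 0 1)) =
        (√(1 + p + q + p * q * (1 - (a ⬝ᵥ b) ^ 2)))⁻¹ ∧
    ∫ y, (a ⬝ᵥ y) ^ 2 * Real.exp (-(p * (a ⬝ᵥ y) ^ 2 + q * (b ⬝ᵥ y) ^ 2) / 2)
      ∂(Measure.pi (fun _ : Fin d => gaussianReal 0 1)) =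
        (1 + q * (1 - (a ⬝ᵥ b) ^ 2)) * (√(1 + p + q + p * q * (1 - (a ⬝ᵥ b) ^ 2)) *
          (1 + p + q + p * q * (1 - (a ⬝ᵥ b) ^ 2)))⁻¹)
    (a b : Fin d → ℝ) (ha : a ⬝ᵥ a = 1) (hb : b ⬝ᵥ b = 1) (r δ : ℝ) (hr : 0 < r) :
    Integrable (fun y => mfun r δ (a ⬝ᵥ y) (b ⬝ᵥ y))
      (Measure.pi (fun _ : Fin d => gaussianReal 0 1)) ∧
    ∫ y, mfun r δ (a ⬝ᵥ y) (b ⬝ᵥ y) ∂(Measure.pi (fun _ : Fin d => gaussianReal 0 1)) =
      (1 / 2) * ((1 - (a ⬝ᵥ b) ^ 2) / (√2 * 2))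
      - (1 / (2 * r)) * ((1 + (1 - (a ⬝ᵥ b) ^ 2)) * ((√3 * 3)⁻¹ -
          (√(3 + (1 - (a ⬝ᵥ b) ^ 2)) * (3 + (1 - (a ⬝ᵥ b) ^ 2)))⁻¹))
      - (0.6138 / 2) * ((√3)⁻¹ - (√(3 + (1 - (a ⬝ᵥ b) ^ 2)))⁻¹) := by
  set μ := (Measure.pi (fun _ : Fin d => gaussianReal 0 1)) with hμ
  have hba : b ⬝ᵥ a = a ⬝ᵥ b := dotProduct_comm _ _
  set e : ℝ := 1 - (a ⬝ᵥ b) ^ 2 with he
  have hF : ∀ p q : ℝ, 0 ≤ p → 0 ≤ q →
      HIx μ (fun y => Real.exp (-(p * (a ⬝ᵥ y) ^ 2 + q * (b ⬝ᵥ y) ^ 2) / 2))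
        (√(1 + p + q + p * q * e))⁻¹ := fun p q hp hq =>
    ⟨(hg a b ha hb p q hp hq).1, (hg a b ha hb p q hp hq).2.2.1⟩
  have hY : ∀ p q : ℝ, 0 ≤ p → 0 ≤ q →
      HIx μ (fun y => (a ⬝ᵥ y) ^ 2 * Real.exp (-(p * (a ⬝ᵥ y) ^ 2 + q * (b ⬝ᵥ y) ^ 2) / 2))
        ((1 + q * e) * (√(1 + p + q + p * q * e) * (1 + p + q + p * q * e))⁻¹) :=
    fun p q hp hq => ⟨(hg a b ha hb p q hp hq).2.1, (hg a b ha hb p q hp hq).2.2.2⟩
  have hZ : ∀ p q : ℝ, 0 ≤ p → 0 ≤ q →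
      HIx μ (fun y => (b ⬝ᵥ y) ^ 2 * Real.exp (-(p * (a ⬝ᵥ y) ^ 2 + q * (b ⬝ᵥ y) ^ 2) / 2))
        ((1 + p * e) * (√(1 + p + q + p * q * e) * (1 + p + q + p * q * e))⁻¹) := by
    intro p q hp hq
    have h1 : HIx μ _ _ := ⟨(hg b a hb ha q p hq hp).2.1, (hg b a hb ha q p hq hp).2.2.2⟩
    refine h1.congr (fun y => ?_) ?_
    · rw [add_comm (q * _)]
    · rw [hba, ← he, show 1 + q + p + q * p * e = 1 + p + q + p * q * e by ring]
  have H := (((((((((((((((hY 0 1 (by norm_num) (by norm_num)).smul (1/4)).add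
    ((hZ 0 1 (by norm_num) (by norm_num)).smul (-1/4))).add
    ((hY 1 0 (by norm_num) (by norm_num)).smul (-1/4))).add
    ((hZ 1 0 (by norm_num) (by norm_num)).smul (1/4))).add
    ((hY 0 2 (by norm_num) (by norm_num)).smul (-(1/(8*r))))).add
    ((hZ 0 2 (by norm_num) (by norm_num)).smul (-(1/(8*r))))).add
    ((hY 1 1 (by norm_num) (by norm_num)).smul (2/(8*r)))).add
    ((hZ 1 1 (by norm_num) (by norm_num)).smul (2/(8*r)))).add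
    ((hY 2 0 (by norm_num) (by norm_num)).smul (-(1/(8*r))))).add
    ((hZ 2 0 (by norm_num) (by norm_num)).smul (-(1/(8*r))))).add
    ((hF 0 1 (by norm_num) (by norm_num)).smul (δ/2))).add
    ((hF 1 0 (by norm_num) (by norm_num)).smul (-δ/2))).add
    ((hF 0 2 (by norm_num) (by norm_num)).smul (-0.6138/4))).add
    ((hF 1 1 (by norm_num) (by norm_num)).smul (0.6138/2))).add
    ((hF 2 0 (by norm_num) (by norm_num)).smul (-0.6138/4))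
  suffices hs : HIx μ (fun y => mfun r δ (a ⬝ᵥ y) (b ⬝ᵥ y)) ((1 / 2) * (e / (√2 * 2))
      - (1 / (2 * r)) * ((1 + e) * ((√3 * 3)⁻¹ - (√(3 + e) * (3 + e))⁻¹))
      - (0.6138 / 2) * ((√3)⁻¹ - (√(3 + e))⁻¹)) from ⟨hs.1, hs.2⟩
  refine H.congr (fun y => ?_) ?_
  · generalize a ⬝ᵥ y = Y
    generalize b ⬝ᵥ y = Z
    simp only [mfun, sfun]
    have e01 : Real.exp (-(0 * Y ^ 2 + 1 * Z ^ 2) / 2) = Real.exp (-(Z ^ 2 / 2)) := by
      congr 1; ring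
    have e10 : Real.exp (-(1 * Y ^ 2 + 0 * Z ^ 2) / 2) = Real.exp (-(Y ^ 2 / 2)) := by
      congr 1; ring
    have e02 : Real.exp (-(0 * Y ^ 2 + 2 * Z ^ 2) / 2) = Real.exp (-(Z ^ 2 / 2)) ^ 2 := by
      rw [sq (Real.exp _), ← Real.exp_add]; congr 1; ring
    have e20 : Real.exp (-(2 * Y ^ 2 + 0 * Z ^ 2) / 2) = Real.exp (-(Y ^ 2 / 2)) ^ 2 := by
      rw [sq (Real.exp _), ← Real.exp_add]; congr 1; ring
    have e11 : Real.exp (-(1 * Y ^ 2 + 1 * Z ^ 2) / 2)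
        = Real.exp (-(Y ^ 2 / 2)) * Real.exp (-(Z ^ 2 / 2)) := by
      rw [← Real.exp_add]; congr 1; ring
    rw [e01, e10, e02, e20, e11]
    generalize Real.exp (-(Y ^ 2 / 2)) = A
    generalize Real.exp (-(Z ^ 2 / 2)) = B
    field_simp
    ring
  · rw [show (1:ℝ) + 0 + 1 + 0 * 1 * e = 2 by ring, show (1:ℝ) + 1 + 0 + 1 * 0 * e = 2 by ring,
      show (1:ℝ) + 0 + 2 + 0 * 2 * e = 3 by ring, show (1:ℝ) + 2 + 0 + 2 * 0 * e = 3 by ring,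
      show (1:ℝ) + 1 + 1 + 1 * 1 * e = 3 + e by ring]
    rw [div_eq_mul_inv e]
    generalize (√2 * 2)⁻¹ = a1
    generalize (√3 * 3)⁻¹ = a2
    generalize (√(3 + e) * (3 + e))⁻¹ = a3
    generalize (√3)⁻¹ = a4
    generalize (√(3 + e))⁻¹ = a5
    generalize (√2)⁻¹ = a6
    field_simp
    ring

end J21026

end Pool.Agent.Helper7.Simplex.Cube
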