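import Pool.Agent.Helper7.Cube.Defs

set_option linter.all false

open MeasureTheory ProbabilityTheory Matrix
open scoped ENNReal

namespace Pool.Agent.Helper7.Simplex.Cube

namespace J20587

theorem BM_compact (t : ℝ) (ht0 : 0 < t) (ht1 : t < 1) (A B C : Set ℝ)
    (hC : MeasurableSet C)
    (H : ∀ x ∈ A, ∀ y ∈ B, (1 - t) * x + t * y ∈ C) (K L : Set ℝ) (hKA : K ⊆ A) (hLB : L ⊆ B)
    (hK : IsCompact K) (hL : IsCompact L) (hKn : K.Nonempty) (hLn : L.Nonempty) :
    ENNReal.ofReal (1 - t) * volume K + ENNReal.ofReal t * volume L ≤ volume C := by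
  have ht1' : 0 < 1 - t := by linarith
  obtain ⟨M, hMK, hM⟩ := hK.exists_isGreatest hKn
  obtain ⟨m, hmL, hm⟩ := hL.exists_isLeast hLn
  have affK : volume ((fun x => (1 - t) * x + t * m) '' K) = ENNReal.ofReal (1 - t) * volume K := by
    have : (fun x => (1 - t) * x + t * m) '' K = (fun x => x + t * m) '' ((fun x => (1 - t) • x) '' K) := by
      rw [Set.image_image]; rfl
    rw [this, Set.image_add_right, measure_preimage_add_right, Set.image_smul, Measure.addHaar_smul]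
    simp [abs_of_pos ht1']
  have affL : volume ((fun y => (1 - t) * M + t * y) '' L) = ENNReal.ofReal t * volume L := by
    have : (fun y => (1 - t) * M + t * y) '' L = (fun x => (1 - t) * M + x) '' ((fun x => t • x) '' L) := by
      rw [Set.image_image]; rfl
    rw [this, Set.image_add_left, measure_preimage_add, Set.image_smul, Measure.addHaar_smul]
    simp [abs_of_pos ht0]
  rw [← affK, ← affL]
  have hmeas : MeasurableSet ((fun y => (1 - t) * M + t * y) '' L) := by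
    apply IsCompact.measurableSet
    exact hL.image (by fun_prop)
  have hd : AEDisjoint volume ((fun x => (1 - t) * x + t * m) '' K) ((fun y => (1 - t) * M + t * y) '' L) := by
    unfold AEDisjoint
    have hsub : ((fun x => (1 - t) * x + t * m) '' K) ∩ ((fun y => (1 - t) * M + t * y) '' L) ⊆ {(1 - t) * M + t * m} := by
      rintro z ⟨⟨x, hx, rfl⟩, ⟨y, hy, hxy⟩⟩
      have h1 := hM hx
      have h2 := hm hy
      simp only at hxy
      simp only [Set.mem_singleton_iff]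
      have h3 : (1 - t) * x ≤ (1 - t) * M := mul_le_mul_of_nonneg_left h1 ht1'.le
      have h4 : t * m ≤ t * y := mul_le_mul_of_nonneg_left h2 ht0.le
      linarith
    exact measure_mono_null hsub (by simp)
  rw [← measure_union₀ hmeas.nullMeasurableSet hd]
  apply measure_mono
  rintro z (⟨x, hx, rfl⟩ | ⟨y, hy, rfl⟩)
  · exact H x (hKA hx) m (hLB hmL)
  · exact H M (hKA hMK) y (hLB hy)

theorem BM_sup (a : ℝ≥0∞) (A : Set ℝ) (hA : MeasurableSet A) (hAne : A.Nonempty) :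
    a * volume A ≤ ⨆ K : Set ℝ, ⨆ (_ : K ⊆ A ∧ IsCompact K ∧ K.Nonempty), a * volume K := by
  obtain ⟨x0, hx0⟩ := hAne
  rw [hA.measure_eq_iSup_isCompact]
  simp only [ENNReal.mul_iSup]
  apply iSup_le; intro K
  apply iSup_le; intro hKA
  apply iSup_le; intro hK
  refine le_trans ?_ (le_iSup₂_of_le (insert x0 K) ⟨Set.insert_subset hx0 hKA, hK.insert x0, Set.insert_nonempty _ _⟩ le_rfl)
  gcongr
  exact Set.subset_insert _ _

/-- one-dimensional Brunn-Minkowski: C contains (1-t)A+tB -/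
theorem BM_one (t : ℝ) (ht0 : 0 < t) (ht1 : t < 1) (A B C : Set ℝ)
    (hA : MeasurableSet A) (hB : MeasurableSet B) (hC : MeasurableSet C)
    (hAne : A.Nonempty) (hBne : B.Nonempty)
    (H : ∀ x ∈ A, ∀ y ∈ B, (1 - t) * x + t * y ∈ C) :
    ENNReal.ofReal (1 - t) * volume A + ENNReal.ofReal t * volume B ≤ volume C := by
  refine le_trans (add_le_add (BM_sup _ A hA hAne) (BM_sup _ B hB hBne)) ?_
  obtain ⟨x0, hx0⟩ := hAne
  obtain ⟨y0, hy0⟩ := hBne
  apply ENNReal.biSup_add_biSup_le'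
  · exact ⟨{x0}, by simpa using hx0, isCompact_singleton, Set.singleton_nonempty _⟩
  · exact ⟨{y0}, by simpa using hy0, isCompact_singleton, Set.singleton_nonempty _⟩
  · rintro K ⟨hKA, hK, hKn⟩ L ⟨hLB, hL, hLn⟩
    exact BM_compact t ht0 ht1 A B C hC H K L hKA hLB hK hL hKn hLn

end J20587

namespace J20588

theorem plo845_norm (t : ℝ) (ht0 : 0 < t) (ht1 : t < 1)
    (hBM : ∀ A B C : Set ℝ, MeasurableSet A → MeasurableSet B → MeasurableSet C →
      A.Nonempty → B.Nonempty → (∀ x ∈ A, ∀ y ∈ B, (1 - t) * x + t * y ∈ C) →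
      ENNReal.ofReal (1 - t) * volume A + ENNReal.ofReal t * volume B ≤ volume C)
    (f g h : ℝ → ℝ≥0∞)
    (hf : Measurable f) (hg : Measurable g) (hh : Measurable h)
    (H : ∀ x y, f x ^ (1 - t) * g y ^ t ≤ h ((1 - t) * x + t * y))
    (hf1 : ∀ x, f x ≤ 1) (hg1 : ∀ x, g x ≤ 1) (hfs : ∀ s < 1, ∃ x, s < f x)
    (hgs : ∀ s < 1, ∃ x, s < g x) :
    ENNReal.ofReal (1 - t) * (∫⁻ x, f x) + ENNReal.ofReal t * (∫⁻ x, g x) ≤ ∫⁻ x, h x := by
  have hft : ∀ x, f x ≠ ⊤ := fun x => ne_top_of_le_ne_top ENNReal.one_ne_top (hf1 x)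
  have hgt : ∀ x, g x ≠ ⊤ := fun x => ne_top_of_le_ne_top ENNReal.one_ne_top (hg1 x)
  set k : ℝ → ℝ≥0∞ := fun x => min (h x) 1 with hk
  have hkm : Measurable k := hh.min measurable_const
  have hkt : ∀ x, k x ≠ ⊤ := fun x => ne_top_of_le_ne_top ENNReal.one_ne_top (min_le_right _ _)
  have hkh : ∫⁻ x, k x ≤ ∫⁻ x, h x := lintegral_mono fun x => min_le_left _ _
  refine le_trans ?_ hkh
  have lay : ∀ u : ℝ → ℝ≥0∞, Measurable u → (∀ x, u x ≠ ⊤) →
      ∫⁻ x, u x = ∫⁻ s in Set.Ioi (0:ℝ), volume {x | s < (u x).toReal} := by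
    intro u hu hut
    have h1 := MeasureTheory.lintegral_eq_lintegral_meas_lt (volume : Measure ℝ)
      (f := fun x => (u x).toReal) (Filter.Eventually.of_forall fun x => ENNReal.toReal_nonneg)
      hu.ennreal_toReal.aemeasurable
    rw [← h1]
    exact lintegral_congr fun x => (ENNReal.ofReal_toReal (hut x)).symm
  rw [lay f hf hft, lay g hg hgt, lay k hkm hkt]
  have hma : ∀ u : ℝ → ℝ≥0∞, Measurable fun s : ℝ => volume {x | s < (u x).toReal} := by
    intro u
    have : Antitone fun s : ℝ => volume {x : ℝ | s < (u x).toReal} := by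
      intro s s' hss
      exact measure_mono fun x hx => lt_of_le_of_lt hss hx
    exact this.measurable
  rw [← lintegral_const_mul _ (hma f), ← lintegral_const_mul _ (hma g),
    ← lintegral_add_left ((hma f).const_mul _)]
  refine setLIntegral_mono' measurableSet_Ioi fun s hs => ?_
  have hs0 : 0 < s := hs
  by_cases hs1 : s < 1
  · have hofs : ENNReal.ofReal s < 1 := by
      rw [← ENNReal.ofReal_one]
      exact (ENNReal.ofReal_lt_ofReal_iff one_pos).2 hs1
    have hiff : ∀ u : ℝ → ℝ≥0∞, (∀ x, u x ≠ ⊤) → ∀ x, s < (u x).toReal ↔ ENNReal.ofReal s < u x :=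
      fun u hu x => (ENNReal.ofReal_lt_iff_lt_toReal hs0.le (hu x)).symm
    refine hBM _ _ _ ?_ ?_ ?_ ?_ ?_ ?_
    · exact measurableSet_lt measurable_const hf.ennreal_toReal
    · exact measurableSet_lt measurable_const hg.ennreal_toReal
    · exact measurableSet_lt measurable_const hkm.ennreal_toReal
    · obtain ⟨x, hx⟩ := hfs _ hofs
      exact ⟨x, (hiff f hft x).2 hx⟩
    · obtain ⟨x, hx⟩ := hgs _ hofs
      exact ⟨x, (hiff g hgt x).2 hx⟩
    · intro x hx y hy
      have hx' := (hiff f hft x).1 hx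
      have hy' := (hiff g hgt y).1 hy
      refine (hiff k hkt _).2 (lt_min ?_ hofs)
      have hs0' : ENNReal.ofReal s ≠ 0 := by
        simpa using hs0
      have e1 : ENNReal.ofReal s = ENNReal.ofReal s ^ (1 - t) * ENNReal.ofReal s ^ t := by
        rw [← ENNReal.rpow_add _ _ hs0' ENNReal.ofReal_ne_top, sub_add_cancel, ENNReal.rpow_one]
      rw [e1]
      refine lt_of_lt_of_le ?_ (H x y)
      exact ENNReal.mul_lt_mul (ENNReal.rpow_lt_rpow hx' (by linarith))
        (ENNReal.rpow_lt_rpow hy' ht0)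
  · have hempty : ∀ u : ℝ → ℝ≥0∞, (∀ x, u x ≤ 1) → {x : ℝ | s < (u x).toReal} = ∅ := by
      intro u hu
      ext x
      simp only [Set.mem_setOf_eq, Set.mem_empty_iff_false, iff_false, not_lt]
      have h1 : (u x).toReal ≤ 1 := by
        have := ENNReal.toReal_mono ENNReal.one_ne_top (hu x)
        simpa using this
      linarith
    rw [hempty f hf1, hempty g hg1]
    simp

theorem plo845_amgm (t : ℝ) (ht0 : 0 < t) (ht1 : t < 1) (X Y : ℝ≥0∞) :
    X ^ (1 - t) * Y ^ t ≤ ENNReal.ofReal (1 - t) * X + ENNReal.ofReal t * Y := by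
  have h1t : 0 < 1 - t := by linarith
  have hpq : ((1 - t)⁻¹).HolderConjugate (t⁻¹) := by
    rw [Real.holderConjugate_iff]
    refine ⟨?_, ?_⟩
    · rw [one_lt_inv₀ h1t]; linarith
    · rw [inv_inv, inv_inv]; ring
  have h := ENNReal.young_inequality (X ^ (1 - t)) (Y ^ t) hpq
  rw [← ENNReal.rpow_mul, ← ENNReal.rpow_mul, mul_inv_cancel₀ h1t.ne', mul_inv_cancel₀ ht0.ne',
    ENNReal.rpow_one, ENNReal.rpow_one] at h
  refine h.trans (le_of_eq ?_)
  rw [ENNReal.ofReal_inv_of_pos h1t, ENNReal.ofReal_inv_of_pos ht0, div_eq_mul_inv, inv_inv,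
    div_eq_mul_inv, inv_inv, mul_comm X, mul_comm Y]

theorem plo845_bdd (t : ℝ) (ht0 : 0 < t) (ht1 : t < 1)
    (hBM : ∀ A B C : Set ℝ, MeasurableSet A → MeasurableSet B → MeasurableSet C →
      A.Nonempty → B.Nonempty → (∀ x ∈ A, ∀ y ∈ B, (1 - t) * x + t * y ∈ C) →
      ENNReal.ofReal (1 - t) * volume A + ENNReal.ofReal t * volume B ≤ volume C)
    (f g h : ℝ → ℝ≥0∞)
    (hf : Measurable f) (hg : Measurable g) (hh : Measurable h)
    (H : ∀ x y, f x ^ (1 - t) * g y ^ t ≤ h ((1 - t) * x + t * y)) (N N' : ℝ≥0∞) (hN : N ≠ ⊤)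
    (hN' : N' ≠ ⊤) (hfN : ∀ x, f x ≤ N) (hgN : ∀ x, g x ≤ N') :
    (∫⁻ x, f x) ^ (1 - t) * (∫⁻ x, g x) ^ t ≤ ∫⁻ x, h x := by
  have h1t : 0 < 1 - t := by linarith
  set F : ℝ≥0∞ := ⨆ x, f x with hF
  set G : ℝ≥0∞ := ⨆ x, g x with hG
  have hFt : F ≠ ⊤ := ne_top_of_le_ne_top hN (iSup_le hfN)
  have hGt : G ≠ ⊤ := ne_top_of_le_ne_top hN' (iSup_le hgN)
  by_cases hF0 : F = 0
  · have : ∫⁻ x, f x = 0 := by
      have h0 : ∀ x, f x = 0 := fun x => le_antisymm ((le_iSup f x).trans hF0.le) bot_le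
      simp [h0]
    rw [this, ENNReal.zero_rpow_of_pos h1t, zero_mul]
    exact bot_le
  by_cases hG0 : G = 0
  · have : ∫⁻ x, g x = 0 := by
      have h0 : ∀ x, g x = 0 := fun x => le_antisymm ((le_iSup g x).trans hG0.le) bot_le
      simp [h0]
    rw [this, ENNReal.zero_rpow_of_pos ht0, mul_zero]
    exact bot_le
  set D : ℝ≥0∞ := F ^ (1 - t) * G ^ t with hD
  have hFr0 : F ^ (1 - t) ≠ 0 := by
    rw [Ne, ENNReal.rpow_eq_zero_iff]
    push Not
    exact ⟨fun h => absurd h hF0, fun h => absurd h hFt⟩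
  have hGr0 : G ^ t ≠ 0 := by
    rw [Ne, ENNReal.rpow_eq_zero_iff]
    push Not
    exact ⟨fun h => absurd h hG0, fun h => absurd h hGt⟩
  have hFrt : F ^ (1 - t) ≠ ⊤ := ENNReal.rpow_ne_top_of_nonneg h1t.le hFt
  have hGrt : G ^ t ≠ ⊤ := ENNReal.rpow_ne_top_of_nonneg ht0.le hGt
  have hD0 : D ≠ 0 := mul_ne_zero hFr0 hGr0
  have hDt : D ≠ ⊤ := ENNReal.mul_ne_top hFrt hGrt
  have key := plo845_norm t ht0 ht1 hBM (fun x => f x / F) (fun x => g x / G) (fun x => h x / D)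
    (hf.div_const _) (hg.div_const _) (hh.div_const _) (by
      intro x y
      rw [ENNReal.div_rpow_of_nonneg _ _ h1t.le, ENNReal.div_rpow_of_nonneg _ _ ht0.le]
      have e : f x ^ (1 - t) / F ^ (1 - t) * (g y ^ t / G ^ t) =
          (f x ^ (1 - t) * g y ^ t) / D := by
        rw [div_eq_mul_inv, div_eq_mul_inv, div_eq_mul_inv, hD,
          ENNReal.mul_inv (Or.inl hFr0) (Or.inl hFrt)]
        ring
      rw [e]
      exact ENNReal.div_le_div_right (H x y) _)
    (fun x => ENNReal.div_le_of_le_mul (by rw [one_mul]; exact le_iSup f x))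
    (fun x => ENNReal.div_le_of_le_mul (by rw [one_mul]; exact le_iSup g x))
    (by
      intro s hs
      have h1 : s * F < F := by
        calc s * F < 1 * F := (ENNReal.mul_lt_mul_iff_left hF0 hFt).2 hs
          _ = F := one_mul F
      obtain ⟨x, hx⟩ := lt_iSup_iff.1 h1
      exact ⟨x, (ENNReal.lt_div_iff_mul_lt (Or.inl hF0) (Or.inl hFt)).2 hx⟩)
    (by
      intro s hs
      have h1 : s * G < G := by
        calc s * G < 1 * G := (ENNReal.mul_lt_mul_iff_left hG0 hGt).2 hs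
          _ = G := one_mul G
      obtain ⟨x, hx⟩ := lt_iSup_iff.1 h1
      exact ⟨x, (ENNReal.lt_div_iff_mul_lt (Or.inl hG0) (Or.inl hGt)).2 hx⟩)
  have key2 := (plo845_amgm t ht0 ht1 (∫⁻ x, f x / F) (∫⁻ x, g x / G)).trans key
  have e1 : ∫⁻ x, f x / F = (∫⁻ x, f x) / F := by
    simp only [div_eq_mul_inv]
    exact lintegral_mul_const _ hf
  have e2 : ∫⁻ x, g x / G = (∫⁻ x, g x) / G := by
    simp only [div_eq_mul_inv]
    exact lintegral_mul_const _ hg
  have e3 : ∫⁻ x, h x / D = (∫⁻ x, h x) / D := by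
    simp only [div_eq_mul_inv]
    exact lintegral_mul_const _ hh
  rw [e1, e2, e3, ENNReal.div_rpow_of_nonneg _ _ h1t.le, ENNReal.div_rpow_of_nonneg _ _ ht0.le]
    at key2
  have e4 : (∫⁻ x, f x) ^ (1 - t) / F ^ (1 - t) * ((∫⁻ x, g x) ^ t / G ^ t) =
      ((∫⁻ x, f x) ^ (1 - t) * (∫⁻ x, g x) ^ t) / D := by
    rw [div_eq_mul_inv, div_eq_mul_inv, div_eq_mul_inv, hD,
      ENNReal.mul_inv (Or.inl hFr0) (Or.inl hFrt)]
    ring
  rw [e4] at key2
  have key3 := mul_le_mul' key2 (le_refl D)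
  rwa [ENNReal.div_mul_cancel hD0 hDt, ENNReal.div_mul_cancel hD0 hDt] at key3

theorem plo845_trunc (f : ℝ → ℝ≥0∞) (hf : Measurable f) :
    ∫⁻ x, f x = ⨆ n : ℕ, ∫⁻ x, min (f x) n := by
  rw [← lintegral_iSup]
  · refine lintegral_congr fun x => ?_
    have : (⨆ n : ℕ, min (f x) (n : ℝ≥0∞)) = min (f x) (⨆ n : ℕ, (n : ℝ≥0∞)) := by
      exact (inf_iSup_eq (f x) (fun n : ℕ => (n : ℝ≥0∞))).symm
    rw [this, ENNReal.iSup_natCast]
    simp
  · intro n
    exact hf.min measurable_const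
  · intro n m hnm x
    exact min_le_min_left _ (by exact_mod_cast hnm)

theorem PL_one (t : ℝ) (ht0 : 0 < t) (ht1 : t < 1)
    (hBM : ∀ A B C : Set ℝ, MeasurableSet A → MeasurableSet B → MeasurableSet C →
      A.Nonempty → B.Nonempty → (∀ x ∈ A, ∀ y ∈ B, (1 - t) * x + t * y ∈ C) →
      ENNReal.ofReal (1 - t) * volume A + ENNReal.ofReal t * volume B ≤ volume C)
    (f g h : ℝ → ℝ≥0∞)
    (hf : Measurable f) (hg : Measurable g) (hh : Measurable h)
    (H : ∀ x y, f x ^ (1 - t) * g y ^ t ≤ h ((1 - t) * x + t * y)) :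
    (∫⁻ x, f x) ^ (1 - t) * (∫⁻ x, g x) ^ t ≤ ∫⁻ x, h x := by
  have h1t : 0 < 1 - t := by linarith
  have key : ∀ n m : ℕ, (∫⁻ x, min (f x) n) ^ (1 - t) * (∫⁻ x, min (g x) m) ^ t ≤ ∫⁻ x, h x := by
    intro n m
    refine plo845_bdd t ht0 ht1 hBM (fun x => min (f x) n) (fun x => min (g x) m) h
      (hf.min measurable_const) (hg.min measurable_const) hh ?_ n m (ENNReal.natCast_ne_top n)
      (ENNReal.natCast_ne_top m) (fun x => min_le_right _ _) (fun x => min_le_right _ _)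
    intro x y
    refine le_trans ?_ (H x y)
    exact mul_le_mul' (ENNReal.rpow_le_rpow (min_le_left _ _) h1t.le)
      (ENNReal.rpow_le_rpow (min_le_left _ _) ht0.le)
  rw [plo845_trunc f hf, plo845_trunc g hg]
  have e1 : (⨆ n : ℕ, ∫⁻ x, min (f x) n) ^ (1 - t) = ⨆ n : ℕ, (∫⁻ x, min (f x) n) ^ (1 - t) :=
    (ENNReal.orderIsoRpow (1 - t) h1t).map_iSup _
  have e2 : (⨆ n : ℕ, ∫⁻ x, min (g x) n) ^ t = ⨆ n : ℕ, (∫⁻ x, min (g x) n) ^ t :=
    (ENNReal.orderIsoRpow t ht0).map_iSup _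
  rw [e1, e2, ENNReal.iSup_mul]
  refine iSup_le fun n => ?_
  rw [ENNReal.mul_iSup]
  exact iSup_le fun m => key n m

end J20588

namespace J20589

theorem PL_cons (t : ℝ) {d : ℕ} (x0 y0 : ℝ) (x y : Fin d → ℝ) :
    (1 - t) • (MeasurableEquiv.piFinSuccAbove (fun _ : Fin (d + 1) => ℝ) 0).symm (x0, x) +
      t • (MeasurableEquiv.piFinSuccAbove (fun _ : Fin (d + 1) => ℝ) 0).symm (y0, y) =
      (MeasurableEquiv.piFinSuccAbove (fun _ : Fin (d + 1) => ℝ) 0).symm
        ((1 - t) * x0 + t * y0, (1 - t) • x + t • y) := by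
  funext i
  refine Fin.cases ?_ (fun j => ?_) i
  · simp [MeasurableEquiv.piFinSuccAbove]
  · simp [MeasurableEquiv.piFinSuccAbove]

theorem PL_int {d : ℕ} (f : (Fin (d + 1) → ℝ) → ℝ≥0∞) (hf : Measurable f) :
    ∫⁻ x, f x = ∫⁻ x0 : ℝ, ∫⁻ y : Fin d → ℝ,
      f ((MeasurableEquiv.piFinSuccAbove (fun _ : Fin (d + 1) => ℝ) 0).symm (x0, y)) := by
  have h1 := (volume_preserving_piFinSuccAbove (fun _ : Fin (d + 1) => ℝ) 0).symm.lintegral_comp hf
  rw [← h1]
  exact lintegral_prod _ (hf.comp (MeasurableEquiv.measurable _)).aemeasurable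

theorem PL_pi (t : ℝ) (ht0 : 0 < t) (ht1 : t < 1)
    (h1 : ∀ f g h : ℝ → ℝ≥0∞, Measurable f → Measurable g → Measurable h →
      (∀ x y, f x ^ (1 - t) * g y ^ t ≤ h ((1 - t) * x + t * y)) →
      (∫⁻ x, f x) ^ (1 - t) * (∫⁻ x, g x) ^ t ≤ ∫⁻ x, h x) (d : ℕ)
    (f g h : (Fin d → ℝ) → ℝ≥0∞) (hf : Measurable f) (hg : Measurable g) (hh : Measurable h)
    (H : ∀ x y, f x ^ (1 - t) * g y ^ t ≤ h ((1 - t) • x + t • y)) :
    (∫⁻ x, f x) ^ (1 - t) * (∫⁻ x, g x) ^ t ≤ ∫⁻ x, h x := by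
  induction d with
  | zero =>
    have e0 : (volume : Measure (Fin 0 → ℝ)) = Measure.dirac default := by
      rw [volume_pi, Measure.pi_of_empty (fun _ : Fin 0 => (volume : Measure ℝ)) default]
    rw [e0, lintegral_dirac, lintegral_dirac, lintegral_dirac]
    refine (H _ _).trans (le_of_eq ?_)
    congr 1
    exact Subsingleton.elim _ _
  | succ d ih =>
    rw [PL_int f hf, PL_int g hg, PL_int h hh]
    set e := (MeasurableEquiv.piFinSuccAbove (fun _ : Fin (d + 1) => ℝ) 0).symm with he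
    have hm : ∀ k : (Fin (d + 1) → ℝ) → ℝ≥0∞, Measurable k →
        Measurable (fun p : ℝ × (Fin d → ℝ) => k (e p)) :=
      fun k hk => hk.comp e.measurable
    apply h1
    · exact (hm f hf).lintegral_prod_right'
    · exact (hm g hg).lintegral_prod_right'
    · exact (hm h hh).lintegral_prod_right'
    · intro x0 y0
      apply ih (fun y => f (e (x0, y))) (fun y => g (e (y0, y)))
        (fun y => h (e ((1 - t) * x0 + t * y0, y)))
      · exact (hm f hf).comp measurable_prodMk_left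
      · exact (hm g hg).comp measurable_prodMk_left
      · exact (hm h hh).comp measurable_prodMk_left
      · intro x y
        have := H (e (x0, x)) (e (y0, y))
        rwa [PL_cons] at this

end J20589

end Pool.Agent.Helper7.Simplex.Cube
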