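import Pool.Agent.Helper7.Cube.Defs

set_option linter.all false

open MeasureTheory ProbabilityTheory Matrix
open scoped ENNReal

namespace Pool.Agent.Helper7.Simplex.Cube

namespace J20602

theorem j20602_kstar {σ : ℝ} (h0 : 0 ≤ σ) (h1 : σ ≤ 1 / 2) :
    σ + (1 - σ) * Real.log (1 - σ) ≤ 0.6138 * σ ^ 2 := by
  have hlog2 := Real.log_two_gt_d9
  have hhalf : Real.log (1 - 1 / 2) = - Real.log 2 := by
    rw [show (1 : ℝ) - 1 / 2 = 2⁻¹ by norm_num, Real.log_inv]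
  rcases eq_or_lt_of_le h0 with h0 | h0
  · subst h0
    simp
  rcases eq_or_lt_of_le h1 with h1 | h1
  · subst h1
    rw [hhalf]
    norm_num
    norm_num at hlog2
    linarith
  by_contra hcon
  push Not at hcon
  set h : ℝ → ℝ := fun x => 0.6138 * x ^ 2 - x - (1 - x) * Real.log (1 - x) with hh
  set h' : ℝ → ℝ := fun x => 1.2276 * x + Real.log (1 - x) with hh'
  have hd : ∀ x < 1, HasDerivAt h (h' x) x := by
    intro x hx
    have h1x : (1 - x) ≠ 0 := by linarith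
    have a1 : HasDerivAt (fun x : ℝ => 1 - x) (-1) x := by
      simpa using (hasDerivAt_id x).const_sub 1
    have a2 := a1.log h1x
    have a3 := a1.mul a2
    have a4 : HasDerivAt (fun x : ℝ => 0.6138 * x ^ 2) (0.6138 * (2 * x)) x := by
      simpa using ((hasDerivAt_id x).pow 2).const_mul (0.6138 : ℝ)
    have a5 := (a4.sub (hasDerivAt_id x)).sub a3
    refine a5.congr_deriv ?_
    simp only [hh']
    field_simp
    ring
  have hc : ContinuousOn h (Set.Icc 0 (1 / 2)) := fun x hx =>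
    (hd x (by linarith [hx.2])).continuousAt.continuousWithinAt
  obtain ⟨ξ₁, hξ₁, e1⟩ := exists_hasDerivAt_eq_slope h h' h0
    (hc.mono (Set.Icc_subset_Icc le_rfl h1.le)) (fun x hx => hd x (by linarith [hx.2]))
  obtain ⟨ξ₂, hξ₂, e2⟩ := exists_hasDerivAt_eq_slope h h' h1
    (hc.mono (Set.Icc_subset_Icc h0.le le_rfl)) (fun x hx => hd x (by linarith [hx.2]))
  have hh0 : h 0 = 0 := by simp [hh]
  have hhσ : h σ < 0 := by simp only [hh]; linarith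
  have hh2 : 0 < h (1 / 2) := by
    simp only [hh]
    rw [hhalf]
    norm_num
    norm_num at hlog2
    linarith
  have n1 : h' ξ₁ < 0 := by
    rw [e1, hh0]
    exact div_neg_of_neg_of_pos (by linarith) (by linarith)
  have n2 : 0 < h' ξ₂ := by
    rw [e2]
    exact div_pos (by linarith) (by linarith)
  have hξ2 : 0 < ξ₂ := lt_trans h0 hξ₂.1
  have hξ12 : ξ₁ < ξ₂ := lt_trans hξ₁.2 hξ₂.1
  have hξ2' : ξ₂ < 1 := by linarith [hξ₂.2]
  set a : ℝ := ξ₁ / ξ₂ with ha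
  have ha0 : 0 < a := div_pos hξ₁.1 hξ2
  have ha1 : a ≤ 1 := (div_le_one hξ2).2 hξ12.le
  have haξ : a * ξ₂ = ξ₁ := div_mul_cancel₀ _ hξ2.ne'
  have hcc := strictConcaveOn_log_Ioi.concaveOn.2 (x := 1 - ξ₂) (y := 1)
    (by show 0 < 1 - ξ₂; linarith) (by show (0 : ℝ) < 1; norm_num) ha0.le
    (by linarith : (0 : ℝ) ≤ 1 - a) (by ring)
  have hcc2 : a * Real.log (1 - ξ₂) ≤ Real.log (1 - ξ₁) := by
    have h5 : a • (1 - ξ₂) + (1 - a) • (1 : ℝ) = 1 - ξ₁ := by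
      simp only [smul_eq_mul]
      linarith
    rw [h5, Real.log_one, smul_zero, add_zero, smul_eq_mul] at hcc
    exact hcc
  have n3 : 0 < a * h' ξ₂ := mul_pos ha0 n2
  have n4 : a * h' ξ₂ ≤ h' ξ₁ := by
    simp only [hh']
    nlinarith
  linarith

theorem j20602_KK {s x : ℝ} (hs : |s| ≤ 1 / 2) : s * x - 0.6138 * s ^ 2 ≤ KK x := by
  set σ := |s| with hσ
  set t := |x| with ht
  have hσ0 : 0 ≤ σ := abs_nonneg s
  have h1 : s * x ≤ σ * t := by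
    rw [hσ, ht, ← abs_mul]
    exact le_abs_self _
  have h2 : s ^ 2 = σ ^ 2 := (sq_abs s).symm
  have hk := j20602_kstar hσ0 hs
  have hpos : 0 < 1 - σ := by linarith
  have h3 : Real.exp (-t) = (1 - σ) * Real.exp (-t - Real.log (1 - σ)) := by
    rw [Real.exp_sub, Real.exp_log hpos]
    field_simp
  have h4 := Real.add_one_le_exp (-t - Real.log (1 - σ))
  have h5 : (1 - σ) * (-t - Real.log (1 - σ) + 1) ≤ Real.exp (-t) := by
    rw [h3]
    exact mul_le_mul_of_nonneg_left h4 hpos.le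
  show _ ≤ Real.exp (-t) - 1 + t
  rw [h2]
  nlinarith

theorem j20602_core {u v : ℝ} (hv : 0 ≤ v) (huv : v ≤ u) :
    (1 / 2) * (Real.exp (-v) - Real.exp (-u)) * (u + v) ≤ u - v := by
  set D := u - v with hD
  have hD0 : 0 ≤ D := by linarith
  have e1 : Real.exp (-u) = Real.exp (-v) * Real.exp (-D) := by
    rw [← Real.exp_add]; congr 1; rw [hD]; ring
  have hE0 : 0 < Real.exp (-v) := Real.exp_pos _
  have hE1 : Real.exp (-v) ≤ 1 := Real.exp_le_one_iff.2 (by linarith)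
  have hF0 : 0 < Real.exp (-D) := Real.exp_pos _
  have hF1 : Real.exp (-D) ≤ 1 := Real.exp_le_one_iff.2 (by linarith)
  have hF2 : 1 - Real.exp (-D) ≤ D := by linarith [Real.add_one_le_exp (-D)]
  have hvE : 2 * v * Real.exp (-v) ≤ 1 := by
    have h1 : 2 * v ≤ Real.exp v := by
      have h2 := Real.quadratic_le_exp_of_nonneg hv
      nlinarith [sq_nonneg (v - 1)]
    have h3 : Real.exp v * Real.exp (-v) = 1 := by rw [← Real.exp_add]; simp
    nlinarith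
  rw [e1]
  have hu : u + v = D + 2 * v := by rw [hD]; ring
  rw [hu]
  have h6 : Real.exp (-v) * (1 - Real.exp (-D)) * D ≤ D := by
    have : Real.exp (-v) * (1 - Real.exp (-D)) ≤ 1 := by nlinarith
    nlinarith
  have h7 : Real.exp (-v) * (1 - Real.exp (-D)) * (2 * v) ≤ D := by
    have : Real.exp (-v) * (1 - Real.exp (-D)) * (2 * v) =
        (2 * v * Real.exp (-v)) * (1 - Real.exp (-D)) := by ring
    rw [this]
    nlinarith
  nlinarith

theorem j20602_num {r : ℝ} (hr : 1 ≤ r) (Y Z : ℝ) :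
    0 ≤ sfun Y Z * (Y ^ 2 - Z ^ 2) - sfun Y Z ^ 2 / r * (Y ^ 2 + Z ^ 2) := by
  have hr0 : 0 < r := by linarith
  have key : sfun Y Z ^ 2 * (Y ^ 2 + Z ^ 2) ≤ sfun Y Z * (Y ^ 2 - Z ^ 2) := by
    rcases le_total (Z ^ 2) (Y ^ 2) with h | h
    · have h1 := j20602_core (u := Y ^ 2 / 2) (v := Z ^ 2 / 2) (by positivity) (by linarith)
      have hs : 0 ≤ sfun Y Z := by
        unfold sfun
        have : Real.exp (-(Y ^ 2 / 2)) ≤ Real.exp (-(Z ^ 2 / 2)) :=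
          Real.exp_le_exp.2 (by linarith)
        linarith
      have h2 : sfun Y Z * (Y ^ 2 + Z ^ 2) ≤ Y ^ 2 - Z ^ 2 := by
        have h3 : sfun Y Z * (Y ^ 2 / 2 + Z ^ 2 / 2) ≤ Y ^ 2 / 2 - Z ^ 2 / 2 := h1
        linarith
      nlinarith
    · have h1 := j20602_core (u := Z ^ 2 / 2) (v := Y ^ 2 / 2) (by positivity) (by linarith)
      have hs : sfun Y Z ≤ 0 := by
        unfold sfun
        have : Real.exp (-(Z ^ 2 / 2)) ≤ Real.exp (-(Y ^ 2 / 2)) :=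
          Real.exp_le_exp.2 (by linarith)
        linarith
      have h2 : -sfun Y Z * (Y ^ 2 + Z ^ 2) ≤ Z ^ 2 - Y ^ 2 := by
        have h4 : -sfun Y Z = (1 / 2) * (Real.exp (-(Y ^ 2 / 2)) - Real.exp (-(Z ^ 2 / 2))) := by
          unfold sfun; ring
        rw [h4]
        linarith
      nlinarith
  have h5 : sfun Y Z ^ 2 / r * (Y ^ 2 + Z ^ 2) ≤ sfun Y Z ^ 2 * (Y ^ 2 + Z ^ 2) := by
    refine mul_le_mul_of_nonneg_right ?_ (by positivity)
    exact div_le_self (sq_nonneg _) hr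
  linarith

theorem j20602_quad {r s : ℝ} (hr : 1 ≤ r) (hs : |s| ≤ 1 / 2) (Y Z T U : ℝ)
    (hnum : 0 ≤ s * (Y ^ 2 - Z ^ 2) - s ^ 2 / r * (Y ^ 2 + Z ^ 2)) :
    s * (Y ^ 2 - Z ^ 2) - s ^ 2 / r * (Y ^ 2 + Z ^ 2) ≤
      r * (T - Y) ^ 2 + s * T ^ 2 + (r * (U - Z) ^ 2 - s * U ^ 2) := by
  have hs' := abs_le.1 hs
  have hr0 : 0 < r := by linarith
  have hA : 0 < r + s := by linarith
  have hB : 0 < r - s := by linarith
  have h1 : r * s * Y ^ 2 / (r + s) ≤ r * (T - Y) ^ 2 + s * T ^ 2 := by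
    rw [div_le_iff₀ hA]
    nlinarith [sq_nonneg ((r + s) * T - r * Y)]
  have h2 : -(r * s * Z ^ 2 / (r - s)) ≤ r * (U - Z) ^ 2 - s * U ^ 2 := by
    rw [neg_le, div_eq_mul_inv, ← div_eq_mul_inv, le_div_iff₀ hB]
    nlinarith [sq_nonneg ((r - s) * U - r * Z)]
  have h3 : r * s * Y ^ 2 / (r + s) - r * s * Z ^ 2 / (r - s) =
      (s * (Y ^ 2 - Z ^ 2) - s ^ 2 / r * (Y ^ 2 + Z ^ 2)) * (r ^ 2 / (r ^ 2 - s ^ 2)) := by
    have hC : r ^ 2 - s ^ 2 ≠ 0 := by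
      have : r ^ 2 - s ^ 2 = (r + s) * (r - s) := by ring
      rw [this]
      positivity
    field_simp
    ring
  have h4 : 1 ≤ r ^ 2 / (r ^ 2 - s ^ 2) := by
    have hC : 0 < r ^ 2 - s ^ 2 := by
      have : r ^ 2 - s ^ 2 = (r + s) * (r - s) := by ring
      rw [this]
      positivity
    rw [le_div_iff₀ hC]
    nlinarith [sq_nonneg s]
  have h5 : s * (Y ^ 2 - Z ^ 2) - s ^ 2 / r * (Y ^ 2 + Z ^ 2) ≤
      (s * (Y ^ 2 - Z ^ 2) - s ^ 2 / r * (Y ^ 2 + Z ^ 2)) * (r ^ 2 / (r ^ 2 - s ^ 2)) :=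
    le_mul_of_one_le_right hnum h4
  linarith

theorem PW (r : ℝ) (hr : 1 ≤ r) (Y Z T U δ : ℝ) :
    mfun r δ Y Z ≤
      (1 / 2) * r * ((T - Y) ^ 2 + (U - Z) ^ 2) + KK (δ + (1 / 2) * (T ^ 2 - U ^ 2)) := by
  have hs : |sfun Y Z| ≤ 1 / 2 := by
    unfold sfun
    have a1 := Real.exp_pos (-(Z ^ 2 / 2))
    have a2 := Real.exp_pos (-(Y ^ 2 / 2))
    have a3 : Real.exp (-(Z ^ 2 / 2)) ≤ 1 := Real.exp_le_one_iff.2 (by nlinarith [sq_nonneg Z])
    have a4 : Real.exp (-(Y ^ 2 / 2)) ≤ 1 := Real.exp_le_one_iff.2 (by nlinarith [sq_nonneg Y])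
    rw [abs_le]
    constructor <;> linarith
  have h1 := j20602_KK (s := sfun Y Z) (x := δ + (1 / 2) * (T ^ 2 - U ^ 2)) hs
  have h2 := j20602_quad hr hs Y Z T U (j20602_num hr Y Z)
  unfold mfun
  nlinarith

end J20602

namespace J21025

private theorem EX_scalar_aux (c r A ε x s : ℝ) (h0 : 0 ≤ ε) (hx2 : x ^ 2 = 3 + ε) (hs2 : s ^ 2 = 3)
    (hs0 : 0 < s) (hsx : s ≤ x) (hr : 0 < r)
    (hP : 0 ≤ (A - c) * (s * x ^ 4 + 3 * x ^ 3) - (1 / (6 * r)) * (x ^ 4 + s * x ^ 3 + x ^ 2 - 2 * s * x - 6)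
      - (0.6138 / 2) * x ^ 2) :
    c * ε ≤ A * ε - (1 / (2 * r)) * ((1 + ε) * ((s * 3)⁻¹ - (x * (3 + ε))⁻¹))
      - (0.6138 / 2) * (s⁻¹ - x⁻¹) := by
  have hx0 : 0 < x := lt_of_lt_of_le hs0 hsx
  have he : ε = x ^ 2 - 3 := by linarith
  have hg : (s * 3)⁻¹ - (x * (3 + ε))⁻¹ = (x - s) * (x ^ 2 + s * x + 3) / (3 * s * x ^ 3) := by
    rw [← hx2]
    have h1 : (x - s) * (x ^ 2 + s * x + 3) = x ^ 3 - 3 * s := by
      linear_combination (-x) * hs2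
    rw [h1]
    field_simp
  have hh : s⁻¹ - x⁻¹ = (x - s) / (s * x) := by
    field_simp
  have hee : ε = (x - s) * (x + s) := by
    rw [he]; linear_combination hs2
  rw [hg, hh]
  have hfin : A * ε - (1 / (2 * r)) * ((1 + ε) * ((x - s) * (x ^ 2 + s * x + 3) / (3 * s * x ^ 3)))
      - (0.6138 / 2) * ((x - s) / (s * x)) - c * ε = (x - s) / (s * x ^ 3) *
      ((A - c) * (s * x ^ 4 + 3 * x ^ 3) - (1 / (6 * r)) * (x ^ 4 + s * x ^ 3 + x ^ 2 - 2 * s * x - 6)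
      - (0.6138 / 2) * x ^ 2) := by
    have e1 : A * ε - c * ε = (x - s) / (s * x ^ 3) * ((A - c) * (s * x ^ 4 + 3 * x ^ 3)) := by
      have : s * x ^ 4 + 3 * x ^ 3 = s * x ^ 3 * (x + s) := by linear_combination (-(x ^ 3)) * hs2
      rw [this, hee]
      field_simp
    have e2 : (1 / (2 * r)) * ((1 + ε) * ((x - s) * (x ^ 2 + s * x + 3) / (3 * s * x ^ 3))) =
        (x - s) / (s * x ^ 3) * ((1 / (6 * r)) * (x ^ 4 + s * x ^ 3 + x ^ 2 - 2 * s * x - 6)) := by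
      have h3 : x ^ 4 + s * x ^ 3 + x ^ 2 - 2 * s * x - 6 = (1 + ε) * (x ^ 2 + s * x + 3) := by
        rw [he]; ring
      rw [h3]
      field_simp
      ring
    have e3 : (0.6138 / 2) * ((x - s) / (s * x)) = (x - s) / (s * x ^ 3) * ((0.6138 / 2) * x ^ 2) := by
      field_simp
    linear_combination e1 - e2 - e3
  have hpos : 0 ≤ (x - s) / (s * x ^ 3) := div_nonneg (by linarith) (by positivity)
  have := mul_nonneg hpos hP
  linarith [hfin]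

/-- the scalar inequality behind the pair constant -/
theorem EX_scalar (ε : ℝ) (h0 : 0 ≤ ε) (h1 : ε ≤ 1) :
    0.0965 * ε ≤ (1 / 2) * (ε / (√2 * 2)) - (1 / (2 * 1.2)) * ((1 + ε) * ((√3 * 3)⁻¹ - (√(3 + ε) * (3 + ε))⁻¹))
      - (0.6138 / 2) * ((√3)⁻¹ - (√(3 + ε))⁻¹) ∧
    0.085 * ε ≤ (1 / 2) * (ε / (√2 * 2)) - (1 / (2 * 1)) * ((1 + ε) * ((√3 * 3)⁻¹ - (√(3 + ε) * (3 + ε))⁻¹))
      - (0.6138 / 2) * ((√3)⁻¹ - (√(3 + ε))⁻¹) := by
  have hs2 : (√3 : ℝ) ^ 2 = 3 := Real.sq_sqrt (by norm_num)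
  have hx2 : (√(3 + ε) : ℝ) ^ 2 = 3 + ε := Real.sq_sqrt (by linarith)
  have hq2 : (√2 : ℝ) ^ 2 = 2 := Real.sq_sqrt (by norm_num)
  have hs0 : 0 < (√3 : ℝ) := Real.sqrt_pos.2 (by norm_num)
  have hq0 : 0 < (√2 : ℝ) := Real.sqrt_pos.2 (by norm_num)
  have hsx : (√3 : ℝ) ≤ √(3 + ε) := Real.sqrt_le_sqrt (by linarith)
  have hx2' : (√(3 + ε) : ℝ) ≤ 2 := by
    rw [Real.sqrt_le_left (by norm_num)]; linarith
  set x : ℝ := √(3 + ε)
  set s : ℝ := √3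
  set q : ℝ := √2
  have hx0 : 0 < x := lt_of_lt_of_le hs0 hsx
  have hsl : 1.73205 ≤ s := by
    by_contra hc
    push Not at hc
    nlinarith
  have hsu : s ≤ 1.73206 := by
    by_contra hc
    push Not at hc
    nlinarith
  have hqu : q ≤ 1.414214 := by
    by_contra hc
    push Not at hc
    nlinarith
  have hA : 0.17677 ≤ 1 / (4 * q) := by
    rw [le_div_iff₀ (by positivity)]
    nlinarith
  have hAe : (1 / 2) * (ε / (q * 2)) = (1 / (4 * q)) * ε := by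
    field_simp
    norm_num
    ring
  rw [hAe]
  set A : ℝ := 1 / (4 * q)
  have hx3 : 0 ≤ x ^ 3 := by positivity
  have hx4 : 0 ≤ x ^ 4 := by positivity
  have hxx : x ^ 2 ≤ 2 * x := by nlinarith
  have hx32 : x ^ 3 ≤ 2 * x ^ 2 := by nlinarith [sq_nonneg x]
  have hx42 : x ^ 4 ≤ 4 * x ^ 2 := by nlinarith [sq_nonneg x]
  constructor
  · refine EX_scalar_aux 0.0965 1.2 A ε x s h0 hx2 hs2 hs0 hsx (by norm_num) ?_
    have k1 : 0 ≤ ((A - 0.0965) * s - 1 / 7.2) := by nlinarith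
    have k2 : 0 ≤ (3 * (A - 0.0965) - s / 7.2) := by
      have k22 : s / 7.2 ≤ 0.2407 := by
        rw [div_le_iff₀ (by norm_num)]
        norm_num at hsu ⊢
        linarith
      norm_num at k22 hA ⊢
      linarith
    have k3 := mul_nonneg k1 hx4
    have k4 := mul_nonneg k2 hx3
    have k5 : 0 ≤ 2 / 7.2 * (s - 1.73205) * x := by
      have : 0 ≤ s - 1.73205 := by linarith
      positivity
    have e : (A - 0.0965) * (s * x ^ 4 + 3 * x ^ 3) - (1 / (6 * 1.2)) * (x ^ 4 + s * x ^ 3 + x ^ 2 - 2 * s * x - 6)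
      - (0.6138 / 2) * x ^ 2 = ((A - 0.0965) * s - 1 / 7.2) * x ^ 4 + (3 * (A - 0.0965) - s / 7.2) * x ^ 3
        + 2 / 7.2 * (s - 1.73205) * x + (2 / 7.2 * 1.73205 * x + 6 / 7.2 - (1 / 7.2 + 0.3069) * x ^ 2) := by
      norm_num
      ring
    rw [e]
    have k6 : 0 ≤ (2 / 7.2 * 1.73205 * x + 6 / 7.2 - (1 / 7.2 + 0.3069) * x ^ 2) := by
      nlinarith
    linarith
  · refine EX_scalar_aux 0.085 1 A ε x s h0 hx2 hs2 hs0 hsx (by norm_num) ?_
    have k1 : -0.00773 ≤ ((A - 0.085) * s - 1 / 6) := by nlinarith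
    have k2 : -0.01337 ≤ (3 * (A - 0.085) - s / 6) := by nlinarith
    have k3 : -0.00773 * x ^ 4 ≤ ((A - 0.085) * s - 1 / 6) * x ^ 4 := mul_le_mul_of_nonneg_right k1 hx4
    have k4 : -0.01337 * x ^ 3 ≤ (3 * (A - 0.085) - s / 6) * x ^ 3 := mul_le_mul_of_nonneg_right k2 hx3
    have k5 : 0 ≤ 2 / 6 * (s - 1.73205) * x := by
      have : 0 ≤ s - 1.73205 := by linarith
      positivity
    have e : (A - 0.085) * (s * x ^ 4 + 3 * x ^ 3) - (1 / (6 * 1)) * (x ^ 4 + s * x ^ 3 + x ^ 2 - 2 * s * x - 6)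
      - (0.6138 / 2) * x ^ 2 = ((A - 0.085) * s - 1 / 6) * x ^ 4 + (3 * (A - 0.085) - s / 6) * x ^ 3
        + 2 / 6 * (s - 1.73205) * x + (2 / 6 * 1.73205 * x + 1 - (1 / 6 + 0.3069) * x ^ 2) := by
      norm_num
      ring
    rw [e]
    nlinarith

end J21025

end Pool.Agent.Helper7.Simplex.Cube
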