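import Pool.Agent.Helper7.Cube.Defs

set_option linter.all false

open MeasureTheory ProbabilityTheory Matrix
open scoped ENNReal

namespace Pool.Agent.Helper7.Simplex.Cube

namespace J21027

/-- number of fractional coordinates -/
theorem extreme_pt_move {ι : Type*} [Fintype ι] [DecidableEq ι] (c α β : ι → ℝ) (hc : ∀ i, 0 < c i)
    (hβ : ∀ i, 0 ≤ β i)
    (q : ι → ℝ) (hq0 : ∀ i, 0 ≤ q i) (hq1 : ∀ i, q i ≤ 1) (hq : ∑ i, c i * q i = 1)
    (i j : ι) (hij : i ≠ j) (hi : q i ≠ 0 ∧ q i ≠ 1) (hj : q j ≠ 0 ∧ q j ≠ 1)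
    (hA : 0 ≤ (α i + 2 * β i * q i) / c i - (α j + 2 * β j * q j) / c j) :
    ∃ q' : ι → ℝ, (∀ k, 0 ≤ q' k) ∧ (∀ k, q' k ≤ 1) ∧ ∑ k, c k * q' k = 1 ∧
      (Finset.univ.filter (fun k => q' k ≠ 0 ∧ q' k ≠ 1)) ⊂
        (Finset.univ.filter (fun k => q k ≠ 0 ∧ q k ≠ 1)) ∧
      ∑ k, (α k * q k + β k * q k ^ 2) ≤ ∑ k, (α k * q' k + β k * q' k ^ 2) := by
  classical
  have hci := hc i
  have hcj := hc j
  obtain ⟨t, ht⟩ : ∃ t, t = min (c i * (1 - q i)) (c j * q j) := ⟨_, rfl⟩
  have ht0 : 0 ≤ t := by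
    rw [ht]
    apply le_min
    · exact mul_nonneg hci.le (by linarith [hq1 i])
    · exact mul_nonneg hcj.le (hq0 j)
  have ht1 : t ≤ c i * (1 - q i) := by rw [ht]; exact min_le_left _ _
  have ht2 : t ≤ c j * q j := by rw [ht]; exact min_le_right _ _
  have ht3 : t = c i * (1 - q i) ∨ t = c j * q j := by
    rw [ht]
    exact min_choice _ _
  obtain ⟨q', hq'⟩ : ∃ q' : ι → ℝ, q' = fun k => if k = i then q i + t / c i else
      if k = j then q j - t / c j else q k := ⟨_, rfl⟩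
  have hq'i : q' i = q i + t / c i := by rw [hq']; simp
  have hq'j : q' j = q j - t / c j := by
    rw [hq']
    show (if j = i then q i + t / c i else if j = j then q j - t / c j else q j) = _
    rw [if_neg hij.symm, if_pos rfl]
  have hq'k : ∀ k, k ≠ i ∧ k ≠ j → q' k = q k := by
    intro k hk
    rw [hq']
    show (if k = i then q i + t / c i else if k = j then q j - t / c j else q k) = _
    rw [if_neg hk.1, if_neg hk.2]
  have hti : t / c i ≤ 1 - q i := by
    rw [div_le_iff₀ hci]; linarith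
  have htj : t / c j ≤ q j := by
    rw [div_le_iff₀ hcj]; linarith
  have hti0 : 0 ≤ t / c i := div_nonneg ht0 hci.le
  have htj0 : 0 ≤ t / c j := div_nonneg ht0 hcj.le
  refine ⟨q', ?_, ?_, ?_, ?_, ?_⟩
  · intro k
    by_cases h1 : k = i
    · rw [h1, hq'i]; linarith [hq0 i]
    · by_cases h2 : k = j
      · rw [h2, hq'j]; linarith
      · rw [hq'k k ⟨h1, h2⟩]; exact hq0 k
  · intro k
    by_cases h1 : k = i
    · rw [h1, hq'i]; linarith [hq0 i]
    · by_cases h2 : k = j
      · rw [h2, hq'j]; linarith [hq1 j]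
      · rw [hq'k k ⟨h1, h2⟩]; exact hq1 k
  · have hs : ∑ k, (c k * q' k - c k * q k) =
        (c i * q' i - c i * q i) + (c j * q' j - c j * q j) := by
      apply Fintype.sum_eq_add i j hij
      intro k hk
      rw [hq'k k hk]; ring
    rw [Finset.sum_sub_distrib, hq'i, hq'j] at hs
    have e1 : c i * (q i + t / c i) - c i * q i = t := by
      field_simp
      ring
    have e2 : c j * (q j - t / c j) - c j * q j = -t := by
      field_simp
      ring
    rw [e1, e2, hq] at hs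
    linarith
  · rw [Finset.ssubset_iff_subset_ne]
    constructor
    · intro k hk
      rw [Finset.mem_filter] at hk ⊢
      refine ⟨Finset.mem_univ _, ?_⟩
      by_cases h1 : k = i
      · rw [h1]; exact hi
      · by_cases h2 : k = j
        · rw [h2]; exact hj
        · rw [← hq'k k ⟨h1, h2⟩]; exact hk.2
    · intro heq
      have hmi : i ∈ Finset.univ.filter (fun k => q k ≠ 0 ∧ q k ≠ 1) := by
        rw [Finset.mem_filter]; exact ⟨Finset.mem_univ _, hi⟩
      have hmj : j ∈ Finset.univ.filter (fun k => q k ≠ 0 ∧ q k ≠ 1) := by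
        rw [Finset.mem_filter]; exact ⟨Finset.mem_univ _, hj⟩
      rw [← heq, Finset.mem_filter] at hmi hmj
      rcases ht3 with h | h
      · apply hmi.2.2
        rw [hq'i, h]
        field_simp
        ring
      · apply hmj.2.1
        rw [hq'j, h]
        field_simp
        ring
  · have hs : ∑ k, ((α k * q' k + β k * q' k ^ 2) - (α k * q k + β k * q k ^ 2)) =
        ((α i * q' i + β i * q' i ^ 2) - (α i * q i + β i * q i ^ 2)) +
        ((α j * q' j + β j * q' j ^ 2) - (α j * q j + β j * q j ^ 2)) := by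
      apply Fintype.sum_eq_add i j hij
      intro k hk
      rw [hq'k k hk]; ring
    rw [Finset.sum_sub_distrib, hq'i, hq'j] at hs
    have e : ((α i * (q i + t / c i) + β i * (q i + t / c i) ^ 2) - (α i * q i + β i * q i ^ 2)) +
        ((α j * (q j - t / c j) + β j * (q j - t / c j) ^ 2) - (α j * q j + β j * q j ^ 2)) =
        t * ((α i + 2 * β i * q i) / c i - (α j + 2 * β j * q j) / c j) +
        (β i * (t / c i) ^ 2 + β j * (t / c j) ^ 2) := by
      ring
    have e1 : 0 ≤ t * ((α i + 2 * β i * q i) / c i - (α j + 2 * β j * q j) / c j) :=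
      mul_nonneg ht0 hA
    have e2 : 0 ≤ β i * (t / c i) ^ 2 + β j * (t / c j) ^ 2 :=
      add_nonneg (mul_nonneg (hβ i) (sq_nonneg _)) (mul_nonneg (hβ j) (sq_nonneg _))
    rw [e] at hs
    linarith

/-- a convex separable quadratic on `{0 ≤ q ≤ 1, ∑ c q = 1}` is maximised at a point with at most one
non-integral coordinate -/
theorem extreme_pt {ι : Type*} [Fintype ι] (c α β : ι → ℝ) (hc : ∀ i, 0 < c i) (hβ : ∀ i, 0 ≤ β i)
    (hv : ∀ (q : ι → ℝ) (i0 : ι), (∀ i, 0 ≤ q i) → (∀ i, q i ≤ 1) → ∑ i, c i * q i = 1 →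
      (∀ i, i ≠ i0 → q i = 0 ∨ q i = 1) → ∑ i, (α i * q i + β i * q i ^ 2) ≤ 0)
    (p : ι → ℝ) (hp0 : ∀ i, 0 ≤ p i) (hp1 : ∀ i, p i ≤ 1) (hp : ∑ i, c i * p i = 1) :
    ∑ i, (α i * p i + β i * p i ^ 2) ≤ 0 := by
  classical
  have main : ∀ (n : ℕ) (q : ι → ℝ), (∀ i, 0 ≤ q i) → (∀ i, q i ≤ 1) → ∑ i, c i * q i = 1 →
      (Finset.univ.filter (fun k => q k ≠ 0 ∧ q k ≠ 1)).card = n →
      ∑ i, (α i * q i + β i * q i ^ 2) ≤ 0 := by
    intro n
    induction n using Nat.strong_induction_on with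
    | _ n ih =>
      intro q hq0 hq1 hq hn
      by_cases h2 : 1 < (Finset.univ.filter (fun k => q k ≠ 0 ∧ q k ≠ 1)).card
      · obtain ⟨i, hi, j, hj, hij⟩ := Finset.one_lt_card.mp h2
        have hi' := (Finset.mem_filter.mp hi).2
        have hj' := (Finset.mem_filter.mp hj).2
        rcases le_total 0 ((α i + 2 * β i * q i) / c i - (α j + 2 * β j * q j) / c j) with hA | hA
        · obtain ⟨q', h1', h2', h3', h4', h5'⟩ :=
            extreme_pt_move c α β hc hβ q hq0 hq1 hq i j hij hi' hj' hA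
          have := ih _ (by rw [← hn]; exact Finset.card_lt_card h4') q' h1' h2' h3' rfl
          linarith
        · obtain ⟨q', h1', h2', h3', h4', h5'⟩ :=
            extreme_pt_move c α β hc hβ q hq0 hq1 hq j i hij.symm hj' hi' (by linarith)
          have := ih _ (by rw [← hn]; exact Finset.card_lt_card h4') q' h1' h2' h3' rfl
          linarith
      · rcases Finset.eq_empty_or_nonempty (Finset.univ.filter (fun k => q k ≠ 0 ∧ q k ≠ 1)) with
          he | ⟨i0, hi0⟩
        · have hne : Nonempty ι := by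
            by_contra hcon
            rw [not_nonempty_iff] at hcon
            rw [Finset.univ_eq_empty, Finset.sum_empty] at hq
            exact zero_ne_one hq
          obtain ⟨i0⟩ := hne
          apply hv q i0 hq0 hq1 hq
          intro i _
          by_contra hcon
          push Not at hcon
          have : i ∈ (Finset.univ.filter (fun k => q k ≠ 0 ∧ q k ≠ 1)) := by
            rw [Finset.mem_filter]; exact ⟨Finset.mem_univ _, hcon⟩
          rw [he] at this
          exact Finset.notMem_empty _ this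
        · apply hv q i0 hq0 hq1 hq
          intro i hi
          by_contra hcon
          push Not at hcon
          have : i ∈ (Finset.univ.filter (fun k => q k ≠ 0 ∧ q k ≠ 1)) := by
            rw [Finset.mem_filter]; exact ⟨Finset.mem_univ _, hcon⟩
          exact h2 (Finset.one_lt_card.mpr ⟨i, this, i0, hi0, hi⟩)
  exact main _ p hp0 hp1 hp rfl

end J21027

namespace J21028

theorem two_var_bern (m x : ℝ) (hm : 0 ≤ m) (hx : 0 ≤ x) (n : ℕ) :
    x ^ (n+1) + (n+1) * x ^ n * (m - x) ≤ m ^ (n+1) := by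
  induction n with
  | zero => simp
  | succ n ih =>
    have h1 := mul_le_mul_of_nonneg_left ih hm
    have h2 : 0 ≤ ((n:ℝ)+1) * x ^ n * (m - x)^2 := by positivity
    push_cast
    have e1 : m ^ (n+1+1) = m * m ^ (n+1) := by ring
    have e2 : x ^ (n+1+1) + ((n:ℝ)+1+1) * x^(n+1) * (m-x) =
      m * (x ^ (n+1) + (n+1) * x ^ n * (m - x)) - ((n:ℝ)+1) * x ^ n * (m - x)^2 := by ring
    linarith

theorem two_var_shift {x : ℝ} (h0 : 0 < x) (h1 : x < 1) :
    HasSum (fun n : ℕ => x ^ (n + 2) / ((n : ℝ) + 2)) (-Real.log (1 - x) - x) := by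
  have h := Real.hasSum_pow_div_log_of_abs_lt_one (x := x) (by rw [abs_of_pos h0]; exact h1)
  have h2 := (hasSum_nat_add_iff' 1).2 h
  simp only [Finset.sum_range_one, Nat.cast_zero, zero_add, pow_one, div_one] at h2
  have e1 : (fun n : ℕ => x ^ (n + 2) / ((n : ℝ) + 2)) =
      fun n : ℕ => x ^ (n + 1 + 1) / (((n + 1 : ℕ) : ℝ) + 1) := by
    funext n
    push_cast
    ring_nf
  rw [e1]
  exact h2

theorem two_var_S1 {x : ℝ} (h0 : 0 < x) (h1 : x < 1) :
    HasSum (fun n : ℕ => x ^ (n + 1) / (((n : ℝ) + 1) * ((n : ℝ) + 2)))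
      (1 - (1 - x) * (-Real.log (1 - x)) / x) := by
  have h := Real.hasSum_pow_div_log_of_abs_lt_one (x := x) (by rw [abs_of_pos h0]; exact h1)
  have h2 := (h.mul_left x).sub (two_var_shift h0 h1)
  have h3 := h2.mul_left x⁻¹
  have e1 : (fun n : ℕ => x ^ (n + 1) / (((n : ℝ) + 1) * ((n : ℝ) + 2))) =
      fun i : ℕ => x⁻¹ * (x * (x ^ (i + 1) / ((i : ℝ) + 1)) - x ^ (i + 2) / ((i : ℝ) + 2)) := by
    funext n
    have : ((n : ℝ) + 1) ≠ 0 := by positivity
    have : ((n : ℝ) + 2) ≠ 0 := by positivity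
    field_simp
    ring
  have e2 : 1 - (1 - x) * (-Real.log (1 - x)) / x =
      x⁻¹ * (x * -Real.log (1 - x) - (-Real.log (1 - x) - x)) := by
    field_simp
    ring
  rw [e1, e2]
  exact h3

theorem two_var_S2 {x : ℝ} (h0 : 0 < x) (h1 : x < 1) :
    HasSum (fun n : ℕ => x ^ n / ((n : ℝ) + 2)) ((-Real.log (1 - x) - x) / x ^ 2) := by
  have h3 := (two_var_shift h0 h1).mul_left (x ^ 2)⁻¹
  have e1 : (fun n : ℕ => x ^ n / ((n : ℝ) + 2)) =
      fun i : ℕ => (x ^ 2)⁻¹ * (x ^ (i + 2) / ((i : ℝ) + 2)) := by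
    funext n
    have : ((n : ℝ) + 2) ≠ 0 := by positivity
    field_simp
    ring
  have e2 : (-Real.log (1 - x) - x) / x ^ 2 = (x ^ 2)⁻¹ * (-Real.log (1 - x) - x) := by
    rw [div_eq_mul_inv, mul_comm]
  rw [e1, e2]
  exact h3

theorem two_var_i {m x : ℝ} (hm0 : 0 < m) (hm1 : m < 1) (h0 : 0 < x) (h1 : x < 1) :
    (1 - m) * (-Real.log (1 - m)) ≤ m * ((1 - x) * (-Real.log (1 - x)) / x -
      (m - x) * ((-Real.log (1 - x) - x) / x ^ 2) - (m - x) ^ 2 / 6) := by
  have hG := ((two_var_S1 h0 h1).add ((two_var_S2 h0 h1).mul_left (m - x))).add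
    (hasSum_ite_eq 1 ((m - x) ^ 2 / 6))
  have hM := two_var_S1 hm0 hm1
  have hle := hasSum_le (fun n => ?_) hG hM
  · have e1 : (1 - m) * (-Real.log (1 - m)) = m * ((1 - m) * (-Real.log (1 - m)) / m) := by
      field_simp
    rw [e1]
    exact mul_le_mul_of_nonneg_left (by linarith) hm0.le
  · by_cases hn : n = 1
    · subst hn
      simp only [if_true, Nat.cast_one]
      apply le_of_eq
      ring
    · simp only [hn, if_false, add_zero]
      have hb := two_var_bern m x hm0.le h0.le n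
      have hp : 0 < ((n : ℝ) + 1) * ((n : ℝ) + 2) := by positivity
      have e1 : x ^ (n + 1) / (((n : ℝ) + 1) * ((n : ℝ) + 2)) + (m - x) * (x ^ n / ((n : ℝ) + 2)) =
          (x ^ (n+1) + (n+1) * x ^ n * (m - x)) / (((n : ℝ) + 1) * ((n : ℝ) + 2)) := by
        field_simp
      rw [e1]
      exact div_le_div_of_nonneg_right hb hp.le

theorem two_var_ii {y : ℝ} (h0 : 0 ≤ y) (h1 : y < 1) : Real.log (1 - y) ≤ -y - y ^ 2 / 2 := by
  have h := Real.hasSum_pow_div_log_of_abs_lt_one (x := y) (by rw [abs_of_nonneg h0]; exact h1)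
  have h2 := sum_le_hasSum (Finset.range 2) (fun i _ => by positivity) h
  simp [Finset.sum_range_succ] at h2
  norm_num at h2
  linarith

theorem two_var (b : ℕ) (hb : 6 ≤ b) (m a : ℝ) (hm0 : 0 ≤ m) (hm : m * b ≤ 1)
    (ha0 : (b : ℝ) - 1 ≤ a) (ha : a ≤ b) :
    -((1 - m) * Real.log (1 - m)) + m * (Real.log (a / ((b : ℝ) - 1)) - Ab b * a
      - (b * Ab b - 1) * (1 - m * a)) ≤ 0 := by
  have hb6 : (6 : ℝ) ≤ b := by exact_mod_cast hb
  set B : ℝ := (b : ℝ) with hB
  have hBpos : 0 < B := by linarith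
  have hx0 : 0 < 1 / B := by positivity
  have hx6 : 1 / B ≤ 1 / 6 := by
    apply one_div_le_one_div_of_le <;> linarith
  have hx1 : 1 / B < 1 := by linarith
  have hA : Ab b = -Real.log (1 - 1 / B) := by
    unfold Ab
    rw [← hB, ← Real.log_inv]
    congr 1
    have : B - 1 ≠ 0 := by linarith
    field_simp
  set A := Ab b with hAdef
  rcases hm0.eq_or_lt with hmz | hmpos
  · rw [← hmz]; simp
  · have hm1 : m < 1 := by
      have : m * 6 ≤ m * B := mul_le_mul_of_nonneg_left hb6 hm0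
      linarith
    have hi := two_var_i hmpos hm1 hx0 hx1
    rw [← hA] at hi
    -- (ii)
    have ha' : 0 < a := by linarith
    have hii : Real.log (a / (B - 1)) ≤ A - (B - a) / B - ((B - a) / B) ^ 2 / 2 := by
      have h1 := two_var_ii (y := (B - a) / B) (by apply div_nonneg <;> linarith)
        (by rw [div_lt_one hBpos]; linarith)
      have h2 : Real.log (a / (B - 1)) = A + Real.log (1 - (B - a) / B) := by
        have hB1 : 0 < B - 1 := by linarith
        rw [hA, ← Real.log_inv, ← Real.log_mul]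
        · congr 1
          have : B - 1 ≠ 0 := hB1.ne'
          field_simp
          ring
        · have : 0 < 1 - 1 / B := by linarith
          positivity
        · have : 1 - (B - a) / B = a / B := by field_simp; ring
          rw [this]
          positivity
      rw [h2]
      linarith
    -- (iii)
    have hA3 : B * (B * A - 1) ≤ 57 / 100 := by
      have h1 := Real.abs_log_sub_add_sum_range_le (x := 1 / B)
        (by rw [abs_of_pos hx0]; exact hx1) 4
      rw [abs_of_pos hx0] at h1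
      have h2 := (abs_le.1 h1).1
      simp only [Finset.sum_range_succ, Finset.sum_range_zero, zero_add] at h2
      norm_num at h2
      have h3 : A ≤ 1 / B + (1 / B) ^ 2 / 2 + (1 / B) ^ 3 / 3 + (1 / B) ^ 4 / 4 +
          (1 / B) ^ 5 * (6 / 5) := by
        have h4 : (1 / B) ^ 5 / (1 - 1 / B) ≤ (1 / B) ^ 5 * (6 / 5) := by
          rw [div_le_iff₀ (by linarith)]
          have : 0 < (1 / B) ^ 5 := by positivity
          nlinarith
        have h5 : (1 / B) ^ 5 / (1 - 1 / B) = (B ^ 5)⁻¹ / (1 - B⁻¹) := by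
          rw [one_div, inv_pow]
        rw [h5] at h4
        rw [hA]
        simp only [one_div, inv_pow] at h4 ⊢
        linarith
      have h6 : B * (B * A - 1) ≤ B * (B * (1 / B + (1 / B) ^ 2 / 2 + (1 / B) ^ 3 / 3 +
          (1 / B) ^ 4 / 4 + (1 / B) ^ 5 * (6 / 5)) - 1) := by
        apply mul_le_mul_of_nonneg_left _ hBpos.le
        have := mul_le_mul_of_nonneg_left h3 hBpos.le
        linarith
      have h7 : B * (B * (1 / B + (1 / B) ^ 2 / 2 + (1 / B) ^ 3 / 3 +
          (1 / B) ^ 4 / 4 + (1 / B) ^ 5 * (6 / 5)) - 1) =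
          1 / 2 + (1 / B) / 3 + (1 / B) ^ 2 / 4 + (1 / B) ^ 3 * (6 / 5) := by
        field_simp
        ring
      have h8 : (1 / B) ^ 2 ≤ (1 / 6) ^ 2 := pow_le_pow_left₀ hx0.le hx6 2
      have h9 : (1 / B) ^ 3 ≤ (1 / 6) ^ 3 := pow_le_pow_left₀ hx0.le hx6 3
      rw [h7] at h6
      norm_num at h8 h9
      norm_num at h6 ⊢
      norm_num at hx6
      linarith
    have hα : 0 ≤ B - a := by linarith
    have hδ : 0 ≤ 1 - B * m := by linarith
    have hquad : (B * (B * A - 1)) * ((B - a) * (1 - B * m)) ≤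
        (B - a) ^ 2 / 2 + (1 - B * m) ^ 2 / 6 := by
      have h1 := mul_le_mul_of_nonneg_right hA3 (mul_nonneg hα hδ)
      nlinarith [sq_nonneg ((B - a) - 57 / 100 * (1 - B * m)), sq_nonneg (1 - B * m)]
    have hE : ((1 - 1 / B) * A / (1 / B) - (m - 1 / B) * ((A - 1 / B) / (1 / B) ^ 2) -
        (m - 1 / B) ^ 2 / 6) + (A - (B - a) / B - ((B - a) / B) ^ 2 / 2) - A * a
        - (B * A - 1) * (1 - m * a) =
        (1 / B ^ 2) * ((B * (B * A - 1)) * ((B - a) * (1 - B * m)) -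
          (B - a) ^ 2 / 2 - (1 - B * m) ^ 2 / 6) := by
      field_simp
      ring
    have hE2 : (1 / B ^ 2) * ((B * (B * A - 1)) * ((B - a) * (1 - B * m)) -
          (B - a) ^ 2 / 2 - (1 - B * m) ^ 2 / 6) ≤ 0 := by
      apply mul_nonpos_of_nonneg_of_nonpos (by positivity)
      linarith
    have hfin : ((1 - 1 / B) * A / (1 / B) - (m - 1 / B) * ((A - 1 / B) / (1 / B) ^ 2) -
        (m - 1 / B) ^ 2 / 6) + (Real.log (a / (B - 1)) - A * a
        - (B * A - 1) * (1 - m * a)) ≤ 0 := by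
      linarith
    have := mul_nonpos_of_nonneg_of_nonpos hm0 hfin
    linarith

end J21028

namespace J21029

theorem jensen_one (c t : ℝ) (hc : 0 < c) (ht : 0 < t) :
    -(c * Real.log c) ≤ -c * Real.log t + t - c := by
  have h := Real.log_le_sub_one_of_pos (x := t / c) (div_pos ht hc)
  rw [Real.log_div ht.ne' hc.ne'] at h
  have h' := mul_le_mul_of_nonneg_left h hc.le
  have h2 : c * (t / c - 1) = t - c := by field_simp
  nlinarith

theorem jensen_aux {ι : Type*} (Y : Finset ι) (c : ι → ℝ) (hc : ∀ i, 0 < c i) (t : ℝ)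
    (ht : 0 < t) :
    ∑ i ∈ Y, -(c i * Real.log (c i)) ≤
      -(∑ i ∈ Y, c i) * Real.log t + Y.card * t - ∑ i ∈ Y, c i := by
  calc ∑ i ∈ Y, -(c i * Real.log (c i)) ≤ ∑ i ∈ Y, (-(c i) * Real.log t + t - c i) :=
        Finset.sum_le_sum fun i _ => jensen_one _ _ (hc i) ht
    _ = _ := by
        rw [Finset.sum_sub_distrib, Finset.sum_add_distrib, ← Finset.sum_mul,
          Finset.sum_neg_distrib]
        simp

theorem row (b : ℕ) (hb : 6 ≤ b)
    (h2 : ∀ (m a : ℝ), 0 ≤ m → m * b ≤ 1 → (b : ℝ) - 1 ≤ a → a ≤ b →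
      -((1 - m) * Real.log (1 - m)) + m * (Real.log (a / ((b : ℝ) - 1)) - Ab b * a
      - (b * Ab b - 1) * (1 - m * a)) ≤ 0)
    {ι : Type*} [Fintype ι]
    (hext : ∀ (c α β : ι → ℝ), (∀ i, 0 < c i) → (∀ i, 0 ≤ β i) →
      (∀ (q : ι → ℝ) (i0 : ι), (∀ i, 0 ≤ q i) → (∀ i, q i ≤ 1) → ∑ i, c i * q i = 1 →
      (∀ i, i ≠ i0 → q i = 0 ∨ q i = 1) → ∑ i, (α i * q i + β i * q i ^ 2) ≤ 0) →
      ∀ (p : ι → ℝ), (∀ i, 0 ≤ p i) → (∀ i, p i ≤ 1) → ∑ i, c i * p i = 1 →
      ∑ i, (α i * p i + β i * p i ^ 2) ≤ 0)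
    (c : ι → ℝ) (hc : ∀ i, 1 / (b : ℝ) ≤ c i) (hc' : ∀ i, c i ≤ 1 / ((b : ℝ) - 1))
    (p : ι → ℝ) (hp0 : ∀ i, 0 ≤ p i) (hp1 : ∀ i, p i ≤ 1) (hp : ∑ i, c i * p i = 1) :
    ∑ i, p i * (-(c i * Real.log (c i)) - Ab b - Bb b * c i) ≤
      (b * Ab b - 1) * ∑ i, c i * p i * (1 - p i) := by
  classical
  have hb' : (6:ℝ) ≤ b := by exact_mod_cast hb
  have hb1 : (0:ℝ) < (b:ℝ) - 1 := by linarith
  have hb0 : (0:ℝ) < b := by linarith
  have hAe : Ab b = Real.log b - Real.log ((b:ℝ) - 1) := by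
    rw [Ab, Real.log_div hb0.ne' hb1.ne']
  have hBe : Bb b = Real.log ((b:ℝ) - 1) - ((b:ℝ) - 1) * Ab b := by
    rw [hAe, Bb]; ring
  have hlam : 0 ≤ (b:ℝ) * Ab b - 1 := by
    have h := Real.one_sub_inv_le_log_of_pos (x := (b:ℝ) / (b - 1)) (div_pos hb0 hb1)
    have h' : 1 - ((b:ℝ) / (b - 1))⁻¹ = 1 / b := by
      rw [inv_div]; field_simp; ring
    rw [h', div_le_iff₀ hb0] at h
    rw [Ab]
    linarith
  generalize Ab b = A at *
  generalize Bb b = B at *
  have hcpos : ∀ i, 0 < c i := fun i => lt_of_lt_of_le (by positivity) (hc i)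
  have key := hext c (fun i => (-(c i * Real.log (c i)) - A - B * c i) - (b * A - 1) * c i)
    (fun i => (b * A - 1) * c i) hcpos (fun i => mul_nonneg hlam (hcpos i).le) ?_ p hp0 hp1 hp
  · have he : ∑ i, (((-(c i * Real.log (c i)) - A - B * c i) - (b * A - 1) * c i) * p i
        + (b * A - 1) * c i * p i ^ 2) = ∑ i, p i * (-(c i * Real.log (c i)) - A - B * c i)
        - (b * A - 1) * ∑ i, c i * p i * (1 - p i) := by
      rw [Finset.mul_sum, ← Finset.sum_sub_distrib]
      refine Finset.sum_congr rfl fun i _ => ?_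
      ring
    rw [he] at key
    linarith
  · intro q i0 hq0 hq1 hq hqe
    set Y : Finset ι := (Finset.univ.erase i0).filter (fun i => q i = 1) with hY
    have hYm : ∀ i ∈ Y, q i = 1 := fun i hi => (Finset.mem_filter.mp hi).2
    have hsplit : ∀ F : ι → ℝ, (∀ i, q i = 0 → F i = 0) →
        ∑ i, F i = F i0 + ∑ i ∈ Y, F i := by
      intro F hF
      rw [← Finset.add_sum_erase _ _ (Finset.mem_univ i0)]
      congr 1
      symm
      apply Finset.sum_subset (Finset.filter_subset _ _)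
      intro i hi hi'
      have hne : i ≠ i0 := Finset.ne_of_mem_erase hi
      rcases hqe i hne with h | h
      · exact hF i h
      · exact absurd (Finset.mem_filter.mpr ⟨hi, h⟩) hi'
    have hS1 : c i0 * q i0 + ∑ i ∈ Y, c i = 1 := by
      rw [← hq, hsplit (fun i => c i * q i) (fun i hi => by simp [hi])]
      congr 1
      exact Finset.sum_congr rfl fun i hi => by rw [hYm i hi, mul_one]
    have htot : ∑ i, (((-(c i * Real.log (c i)) - A - B * c i) - (b * A - 1) * c i) * q i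
        + (b * A - 1) * c i * q i ^ 2) =
        q i0 * (-(c i0 * Real.log (c i0)) - A - B * c i0)
          - (b * A - 1) * (c i0 * q i0 * (1 - q i0))
        + (∑ i ∈ Y, -(c i * Real.log (c i)) - Y.card * A - B * ∑ i ∈ Y, c i) := by
      rw [hsplit _ (fun i hi => by simp [hi])]
      congr 1
      · ring
      · rw [Finset.mul_sum]
        have h3 : (Y.card : ℝ) * A = ∑ i ∈ Y, A := by simp
        rw [h3, ← Finset.sum_sub_distrib, ← Finset.sum_sub_distrib]
        refine Finset.sum_congr rfl fun i hi => ?_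
        rw [hYm i hi]; ring
    show ∑ i, (((-(c i * Real.log (c i)) - A - B * c i) - (b * A - 1) * c i) * q i
        + (b * A - 1) * c i * q i ^ 2) ≤ 0
    rw [htot]
    have hSlo : (Y.card : ℝ) ≤ b * ∑ i ∈ Y, c i := by
      have h := Finset.card_nsmul_le_sum Y c (1 / (b:ℝ)) (fun i _ => hc i)
      rw [nsmul_eq_mul, mul_one_div, div_le_iff₀ hb0] at h
      linarith
    have hShi : ((b:ℝ) - 1) * ∑ i ∈ Y, c i ≤ Y.card := by
      have h := Finset.sum_le_card_nsmul Y c (1 / ((b:ℝ) - 1)) (fun i _ => hc' i)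
      rw [nsmul_eq_mul, mul_one_div, le_div_iff₀ hb1] at h
      linarith
    have hc0 := hcpos i0
    have hc0lo : 1 ≤ b * c i0 := by
      have h := hc i0
      rw [div_le_iff₀ hb0] at h
      linarith
    have hc0hi : ((b:ℝ) - 1) * c i0 ≤ 1 := by
      have h := hc' i0
      rw [le_div_iff₀ hb1] at h
      linarith
    have hJ := jensen_aux Y c hcpos
    -- the values at `b` and `b - 1`
    have hval : ∀ N : ℕ, N ≤ b → b ≤ N + 1 → Real.log N - N * A - B = 0 := by
      intro N hN1 hN2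
      have hN : N = b ∨ N + 1 = b := by omega
      rcases hN with h | h
      · rw [h, hBe, hAe]; ring
      · have h' : (N:ℝ) = (b:ℝ) - 1 := by rw [← h]; push_cast; ring
        rw [h', hBe]; ring
    set S := ∑ i ∈ Y, c i with hSdef
    set n := Y.card with hn
    rcases eq_or_lt_of_le (hq0 i0) with h0 | h0
    · -- q0 = 0
      rw [← h0] at hS1 ⊢
      have hS : S = 1 := by linarith
      rw [hS] at hSlo hShi hJ ⊢
      have hnb : n ≤ b := by
        have : (n:ℝ) ≤ b := by linarith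
        exact_mod_cast this
      have hnb' : b ≤ n + 1 := by
        have : (b:ℝ) ≤ n + 1 := by linarith
        exact_mod_cast this
      have hnpos : (0:ℝ) < n := by linarith
      have h1 := hJ (1 / n) (by positivity)
      have h3 := hval n hnb hnb'
      rw [one_div, Real.log_inv, mul_inv_cancel₀ hnpos.ne'] at h1
      linarith
    · rcases eq_or_lt_of_le (hq1 i0) with h1 | h1
      · rw [h1] at hS1 ⊢
        have hS : S = 1 - c i0 := by linarith
        rw [hS] at hSlo hShi hJ ⊢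
        have hnb : n + 1 ≤ b := by
          have : (n:ℝ) + 1 ≤ b := by nlinarith
          exact_mod_cast this
        have hnb' : b ≤ n + 1 + 1 := by
          have : (b:ℝ) ≤ n + 1 + 1 := by nlinarith
          exact_mod_cast this
        have hnpos : (0:ℝ) < (n:ℝ) + 1 := by positivity
        have h1 := hJ (1 / (n + 1)) (by positivity)
        have h4 := jensen_one (c i0) (1 / (n + 1)) hc0 (by positivity)
        have h3 := hval (n + 1) hnb hnb'
        push_cast at h3
        rw [one_div, Real.log_inv] at h1 h4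
        have h5 : (n:ℝ) * ((n:ℝ) + 1)⁻¹ + ((n:ℝ) + 1)⁻¹ = 1 := by field_simp
        have h6 : (1 - c i0) * Real.log ((n:ℝ) + 1) + c i0 * Real.log ((n:ℝ) + 1)
            = Real.log ((n:ℝ) + 1) := by ring
        linarith
      · -- 0 < q0 < 1
        have hm0 : 0 < c i0 * q i0 := mul_pos hc0 h0
        have hmc : c i0 * q i0 < c i0 := by nlinarith
        have hnb : n + 1 ≤ b := by
          have h3 : (n:ℝ) < b := by nlinarith
          have h4 : n < b := by exact_mod_cast h3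
          omega
        have hnb' : b ≤ n + 1 := by
          have h3 : (b:ℝ) < n + 1 + 1 := by nlinarith
          have h4 : b < n + 1 + 1 := by exact_mod_cast h3
          omega
        have hnb2 : (n:ℝ) = b - 1 := by
          have h3 : n + 1 = b := le_antisymm hnb hnb'
          rw [← h3]; push_cast; ring
        set m := c i0 * q i0 with hm
        have hS : S = 1 - m := by linarith
        rw [hS] at hSlo hShi hJ ⊢
        rw [hnb2] at hSlo hShi hJ ⊢
        have hmb : m * b ≤ 1 := by linarith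
        have h1m : 0 < 1 - m := by nlinarith
        have ha := h2 m (1 / c i0) hm0.le hmb
          (by rw [le_div_iff₀ hc0]; linarith) (by rw [div_le_iff₀ hc0]; linarith)
        have hq : q i0 = m * (1 / c i0) := by
          rw [hm]; field_simp
        have h5 := hJ ((1 - m) / (b - 1)) (div_pos h1m hb1)
        rw [Real.log_div h1m.ne' hb1.ne', mul_div_cancel₀ _ hb1.ne'] at h5
        rw [Real.log_div (one_div_pos.mpr hc0).ne' hb1.ne', one_div, Real.log_inv,
          ← one_div, ← hq] at ha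
        have h6 : q i0 * (-(c i0 * Real.log (c i0)) - A - B * c i0)
            = -m * Real.log (c i0) - A * q i0 - B * m := by
          rw [hm]; ring
        rw [h6]
        have h7 : m * (-Real.log (c i0) - Real.log (↑b - 1) - A * (1 / c i0)
            - (b * A - 1) * (1 - q i0)) = -m * Real.log (c i0) - m * Real.log (↑b - 1)
            - A * q i0 - (b * A - 1) * (m * (1 - q i0)) := by
          have : m * (A * (1 / c i0)) = A * q i0 := by rw [hq]; ring
          linear_combination (-1) * this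
        rw [h7] at ha
        rw [hBe]
        nlinarith

end J21029

namespace J21030

section aux
variable {d : ℕ} {ι : Type*} [Fintype ι]

theorem aux_trace (w : ι → Fin d → ℝ) (hI : ∑ i, vecMulVec (w i) (w i) = 1) :
    ∑ i, w i ⬝ᵥ w i = d := by
  have h := congrArg Matrix.trace hI
  rw [Matrix.trace_sum, Matrix.trace_one, Fintype.card_fin] at h
  rw [← h]
  exact Finset.sum_congr rfl fun i _ => (Matrix.trace_vecMulVec _ _).symm

theorem aux_row (w : ι → Fin d → ℝ) (hI : ∑ i, vecMulVec (w i) (w i) = 1) (i : ι) :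
    ∑ j, (w i ⬝ᵥ w j) ^ 2 = w i ⬝ᵥ w i := by
  have h : w i ⬝ᵥ ((∑ j, vecMulVec (w j) (w j)) *ᵥ w i) = w i ⬝ᵥ w i := by
    rw [hI, Matrix.one_mulVec]
  rw [← h, Matrix.sum_mulVec, dotProduct_sum]
  refine Finset.sum_congr rfl fun j _ => ?_
  rw [Matrix.vecMulVec_mulVec]
  simp only [dotProduct_smul, MulOpposite.smul_eq_mul_unop, MulOpposite.unop_op]
  rw [dotProduct_comm (w j) (w i), sq]

theorem aux_cs (w : ι → Fin d → ℝ) (i j : ι) :
    (w i ⬝ᵥ w j) ^ 2 ≤ (w i ⬝ᵥ w i) * (w j ⬝ᵥ w j) := by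
  have h := Finset.sum_mul_sq_le_sq_mul_sq Finset.univ (w i) (w j)
  simpa only [dotProduct, sq] using h

theorem aux_le_one (w : ι → Fin d → ℝ) (hI : ∑ i, vecMulVec (w i) (w i) = 1) (i : ι)
    (hc : 0 < w i ⬝ᵥ w i) : w i ⬝ᵥ w i ≤ 1 := by
  have h := aux_row w hI i
  have h2 : (w i ⬝ᵥ w i) ^ 2 ≤ ∑ j, (w i ⬝ᵥ w j) ^ 2 :=
    Finset.single_le_sum (f := fun j => (w i ⬝ᵥ w j) ^ 2) (fun j _ => sq_nonneg _)
      (Finset.mem_univ i)
  rw [h, sq] at h2
  exact le_of_mul_le_mul_right (by linarith) hc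

theorem aux_rho (w : ι → Fin d → ℝ) (i j : ι) (hi : 0 < w i ⬝ᵥ w i) (hj : 0 < w j ⬝ᵥ w j) :
    -1 ≤ (w i ⬝ᵥ w j) / √((w i ⬝ᵥ w i) * (w j ⬝ᵥ w j)) ∧
      (w i ⬝ᵥ w j) / √((w i ⬝ᵥ w i) * (w j ⬝ᵥ w j)) ≤ 1 := by
  rw [← abs_le, abs_div, abs_of_nonneg (Real.sqrt_nonneg _),
    div_le_one (Real.sqrt_pos.2 (mul_pos hi hj))]
  exact Real.abs_le_sqrt (aux_cs w i j)

theorem aux_rho_sq (w : ι → Fin d → ℝ) (i j : ι) (hi : 0 < w i ⬝ᵥ w i) (hj : 0 < w j ⬝ᵥ w j) :
    ((w i ⬝ᵥ w j) / √((w i ⬝ᵥ w i) * (w j ⬝ᵥ w j))) ^ 2 =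
      (w i ⬝ᵥ w j) ^ 2 / ((w i ⬝ᵥ w i) * (w j ⬝ᵥ w j)) := by
  rw [div_pow, Real.sq_sqrt (mul_pos hi hj).le]

end aux

theorem demand {d : ℕ} {ι : Type*} [Fintype ι] (w : ι → Fin d → ℝ)
    (hI : ∑ i, vecMulVec (w i) (w i) = 1) (b : ℕ) (hb : 6 ≤ b)
    (hc : ∀ i, 1 / (b : ℝ) ≤ w i ⬝ᵥ w i) (hc' : ∀ i, w i ⬝ᵥ w i ≤ 1 / ((b : ℝ) - 1))
    (hrow : ∀ (c : ι → ℝ), (∀ i, 1 / (b : ℝ) ≤ c i) → (∀ i, c i ≤ 1 / ((b : ℝ) - 1)) →
      ∀ (p : ι → ℝ), (∀ i, 0 ≤ p i) → (∀ i, p i ≤ 1) → ∑ i, c i * p i = 1 →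
      ∑ i, p i * (-(c i * Real.log (c i)) - Ab b - Bb b * c i) ≤
      (b * Ab b - 1) * ∑ i, c i * p i * (1 - p i)) :
    ∑ i, (-((w i ⬝ᵥ w i) * Real.log (w i ⬝ᵥ w i)) - Ab b - Bb b * (w i ⬝ᵥ w i)) ≤
      (b * Ab b - 1) * ∑ i, ∑ j, (w i ⬝ᵥ w j) ^ 2 *
        (1 - (w i ⬝ᵥ w j) ^ 2 / ((w i ⬝ᵥ w i) * (w j ⬝ᵥ w j))) := by
  classical
  have hbpos : (0 : ℝ) < b := by
    have : (6 : ℝ) ≤ b := by exact_mod_cast hb
    linarith
  have hcpos : ∀ i, 0 < w i ⬝ᵥ w i := fun i =>
    lt_of_lt_of_le (by positivity) (hc i)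
  set c : ι → ℝ := fun i => w i ⬝ᵥ w i with hcdef
  set p : ι → ι → ℝ := fun i j => (w i ⬝ᵥ w j) ^ 2 / (c i * c j) with hpdef
  have hcp : ∀ i, 0 < c i := hcpos
  have hp0 : ∀ i j, 0 ≤ p i j := fun i j =>
    div_nonneg (sq_nonneg _) (mul_pos (hcp i) (hcp j)).le
  have hp1 : ∀ i j, p i j ≤ 1 := fun i j => by
    rw [hpdef]
    simp only
    rw [div_le_one (mul_pos (hcp i) (hcp j))]
    exact aux_cs w i j
  have hcc : ∀ i j, c i * (c j * p i j) = (w i ⬝ᵥ w j) ^ 2 := fun i j => by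
    rw [hpdef]
    have h1 := (hcp i).ne'
    have h2 := (hcp j).ne'
    field_simp
  have hsum : ∀ i, ∑ j, c j * p i j = 1 := fun i => by
    have h1 : c i * ∑ j, c j * p i j = c i * 1 := by
      rw [Finset.mul_sum, Finset.sum_congr rfl (fun j _ => hcc i j), mul_one]
      exact aux_row w hI i
    exact mul_left_cancel₀ (hcp i).ne' h1
  have hsymm : ∀ i j, p i j = p j i := fun i j => by
    simp only [hpdef]
    rw [dotProduct_comm (w i) (w j), mul_comm (c i) (c j)]
  have hr : ∀ i, ∑ j, p i j * (-(c j * Real.log (c j)) - Ab b - Bb b * c j) ≤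
      (b * Ab b - 1) * ∑ j, c j * p i j * (1 - p i j) := fun i =>
    hrow c hc hc' (p i) (hp0 i) (hp1 i) (hsum i)
  have hL : ∑ i, c i * ∑ j, p i j * (-(c j * Real.log (c j)) - Ab b - Bb b * c j) =
      ∑ j, (-(c j * Real.log (c j)) - Ab b - Bb b * c j) := by
    simp only [Finset.mul_sum]
    rw [Finset.sum_comm]
    refine Finset.sum_congr rfl (fun j _ => ?_)
    have e : ∑ i, c i * (p i j * (-(c j * Real.log (c j)) - Ab b - Bb b * c j)) =
        (∑ i, c i * p j i) * (-(c j * Real.log (c j)) - Ab b - Bb b * c j) := by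
      rw [Finset.sum_mul]
      refine Finset.sum_congr rfl (fun i _ => ?_)
      rw [hsymm i j]; ring
    rw [e, hsum j, one_mul]
  have hR : ∑ i, c i * ((b * Ab b - 1) * ∑ j, c j * p i j * (1 - p i j)) =
      (b * Ab b - 1) * ∑ i, ∑ j, (w i ⬝ᵥ w j) ^ 2 * (1 - p i j) := by
    rw [Finset.mul_sum]
    refine Finset.sum_congr rfl (fun i _ => ?_)
    have e : ∑ j, (w i ⬝ᵥ w j) ^ 2 * (1 - p i j) = c i * ∑ j, c j * p i j * (1 - p i j) := by
      rw [Finset.mul_sum]
      refine Finset.sum_congr rfl (fun j _ => ?_)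
      rw [← hcc i j]; ring
    rw [e]; ring
  have hfin : ∑ i, c i * ∑ j, p i j * (-(c j * Real.log (c j)) - Ab b - Bb b * c j) ≤
      ∑ i, c i * ((b * Ab b - 1) * ∑ j, c j * p i j * (1 - p i j)) :=
    Finset.sum_le_sum (fun i _ => mul_le_mul_of_nonneg_left (hr i) (hcp i).le)
  rw [hL, hR] at hfin
  exact hfin

end J21030

end Pool.Agent.Helper7.Simplex.Cube
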