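import Pool.Agent.Helper7.Cube.Defs

set_option linter.all false

open MeasureTheory ProbabilityTheory Matrix
open scoped ENNReal

namespace Pool.Agent.Helper7.Simplex.Cube

namespace J20591

theorem T2_E_int {d : ℕ} (t : ℝ) (ht1 : t < 1) :
    Integrable (fun x : Fin d → ℝ => Real.exp (-(∑ i, x i ^ 2) / (2 * (1 - t)))) := by
  have h1 : (0 : ℝ) < 1 / (2 * (1 - t)) := by
    have : 0 < 1 - t := by linarith
    positivity
  have h2 := Integrable.fintype_prod (ι := Fin d) (E := ℝ) (μ := fun _ => (volume : Measure ℝ))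
    (f := fun (_ : Fin d) (x : ℝ) => Real.exp (-(1 / (2 * (1 - t))) * x ^ 2))
    (fun _ => integrable_exp_neg_mul_sq h1)
  refine h2.congr (Filter.Eventually.of_forall fun x => ?_)
  simp only
  rw [← Real.exp_sum]
  congr 1
  rw [← Finset.mul_sum]
  ring

theorem T2_ident {d : ℕ} (t : ℝ) (ht1 : t < 1) (u y : Fin d → ℝ) :
    -(∑ i, u i ^ 2) / 2 + t * ((1 / 2) * ∑ i, (u i - y i) ^ 2) - t * (∑ i, y i ^ 2) / (2 * (1 - t)) =
    -(∑ i, ((1 - t) • u + t • y) i ^ 2) / (2 * (1 - t)) := by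
  have h1 : 0 < 1 - t := by linarith
  have h0 : 1 - t ≠ 0 := h1.ne'
  have h2 : ∑ i, ((1 - t) • u + t • y) i ^ 2 =
      (1 - t) * ∑ i, u i ^ 2 - t * (1 - t) * (∑ i, (u i - y i) ^ 2) + t * ∑ i, y i ^ 2 := by
    rw [Finset.mul_sum, Finset.mul_sum, Finset.mul_sum, ← Finset.sum_sub_distrib,
      ← Finset.sum_add_distrib]
    refine Finset.sum_congr rfl fun i _ => ?_
    simp only [Pi.add_apply, Pi.smul_apply, smul_eq_mul]
    ring
  rw [h2]
  field_simp
  ring

theorem T2_t {d : ℕ} (t : ℝ) (ht0 : 0 < t) (ht1 : t < 1)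
    (hPL : ∀ f g h : (Fin d → ℝ) → ℝ≥0∞, Measurable f → Measurable g → Measurable h →
      (∀ x y, f x ^ (1 - t) * g y ^ t ≤ h ((1 - t) • x + t • y)) →
      (∫⁻ x, f x) ^ (1 - t) * (∫⁻ x, g x) ^ t ≤ ∫⁻ x, h x)
    (hjen : ∀ (μ : Measure (Fin d → ℝ)) [IsProbabilityMeasure μ] (f : (Fin d → ℝ) → ℝ),
      Integrable f μ →
      ENNReal.ofReal (Real.exp (∫ x, f x ∂μ)) ≤ ∫⁻ x, ENNReal.ofReal (Real.exp (f x)) ∂μ)
    (W : (Fin d → ℝ) → ℝ) (hWm : Measurable W)
    (hW : Integrable (fun x => W x * Real.exp (-(∑ i, x i ^ 2) / (2 * (1 - t)))))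
    (H : (Fin d → ℝ) → ℝ≥0∞) (hH : Measurable H)
    (hle : ∀ g y, H y ≤ ENNReal.ofReal (Real.exp ((1 / 2) * ∑ i, (g i - y i) ^ 2 - W g))) :
    (∫⁻ y, H y * ENNReal.ofReal (Real.exp (-(∑ i, y i ^ 2) / (2 * (1 - t))))) *
      ENNReal.ofReal (Real.exp ((∫ x, W x * Real.exp (-(∑ i, x i ^ 2) / (2 * (1 - t)))) /
        (∫ x : Fin d → ℝ, Real.exp (-(∑ i, x i ^ 2) / (2 * (1 - t)))))) ≤
      ∫⁻ y : Fin d → ℝ, ENNReal.ofReal (Real.exp (-(∑ i, y i ^ 2) / (2 * (1 - t)))) := by
  have h1t : 0 < 1 - t := by linarith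
  have h0t : 1 - t ≠ 0 := h1t.ne'
  have hEint := T2_E_int (d := d) t ht1
  obtain ⟨E, hE⟩ : ∃ E : (Fin d → ℝ) → ℝ,
      E = fun x => Real.exp (-(∑ i, x i ^ 2) / (2 * (1 - t))) := ⟨_, rfl⟩
  have hEx : ∀ x : Fin d → ℝ, Real.exp (-(∑ i, x i ^ 2) / (2 * (1 - t))) = E x := by
    intro x; rw [hE]
  have hZ0 : 0 < ∫ x, E x := by
    rw [hE]
    exact integral_exp_pos hEint
  have hEm : Measurable E := by
    rw [hE]; fun_prop
  have hEpos : ∀ x, 0 < E x := by
    intro x; rw [hE]; exact Real.exp_pos _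
  rw [← hE] at hEint
  simp only [hEx] at hW ⊢
  obtain ⟨Z, hZ⟩ : ∃ Z : ℝ, Z = ∫ x, E x := ⟨_, rfl⟩
  rw [← hZ] at hZ0 ⊢
  have hZe : ∫⁻ x, ENNReal.ofReal (E x) = ENNReal.ofReal Z := by
    rw [hZ, ofReal_integral_eq_lintegral_ofReal hEint
      (Filter.Eventually.of_forall fun x => (hEpos x).le)]
  rw [hZe]
  -- PL
  have hBm : Measurable (fun u : Fin d → ℝ =>
      ENNReal.ofReal (Real.exp ((t / (1 - t)) * W u)) * ENNReal.ofReal (E u)) := by fun_prop
  have hAm : Measurable (fun y : Fin d → ℝ => H y * ENNReal.ofReal (E y)) := by fun_prop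
  have hpl := hPL (fun u => ENNReal.ofReal (Real.exp ((t / (1 - t)) * W u)) * ENNReal.ofReal (E u))
    (fun y => H y * ENNReal.ofReal (E y)) (fun x => ENNReal.ofReal (E x)) hBm hAm
    (by fun_prop) (by
      intro u y
      calc (ENNReal.ofReal (Real.exp ((t / (1 - t)) * W u)) * ENNReal.ofReal (E u)) ^ (1 - t) *
            (H y * ENNReal.ofReal (E y)) ^ t
          ≤ (ENNReal.ofReal (Real.exp ((t / (1 - t)) * W u)) * ENNReal.ofReal (E u)) ^ (1 - t) *
            (ENNReal.ofReal (Real.exp ((1 / 2) * ∑ i, (u i - y i) ^ 2 - W u)) *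
              ENNReal.ofReal (E y)) ^ t := by
            gcongr
            exact hle u y
        _ = ENNReal.ofReal (E ((1 - t) • u + t • y)) := by
            rw [← ENNReal.ofReal_mul (Real.exp_pos _).le, ← ENNReal.ofReal_mul (Real.exp_pos _).le,
              hE]
            simp only
            rw [← Real.exp_add, ← Real.exp_add, ENNReal.ofReal_rpow_of_pos (Real.exp_pos _),
              ENNReal.ofReal_rpow_of_pos (Real.exp_pos _), ← Real.exp_mul, ← Real.exp_mul,
              ← ENNReal.ofReal_mul (Real.exp_pos _).le, ← Real.exp_add, ← T2_ident t ht1 u y]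
            congr 2
            field_simp
            ring)
  rw [hZe] at hpl
  -- Jensen
  set D : (Fin d → ℝ) → ℝ≥0∞ := fun x => ENNReal.ofReal (E x / Z) with hD
  have hDm : Measurable D := by rw [hD]; fun_prop
  have hDlt : ∀ᵐ x ∂(volume : Measure (Fin d → ℝ)), D x < ∞ :=
    Filter.Eventually.of_forall fun x => ENNReal.ofReal_lt_top
  have hDr : ∀ x, (D x).toReal = E x / Z := fun x =>
    ENNReal.toReal_ofReal (div_nonneg (hEpos x).le hZ0.le)
  haveI : IsProbabilityMeasure (volume.withDensity D) := by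
    refine ⟨?_⟩
    rw [withDensity_apply _ MeasurableSet.univ, Measure.restrict_univ, hD]
    simp only
    rw [← ofReal_integral_eq_lintegral_ofReal (hEint.div_const Z)
      (Filter.Eventually.of_forall fun x => div_nonneg (hEpos x).le hZ0.le), integral_div, ← hZ,
      div_self hZ0.ne', ENNReal.ofReal_one]
  have hfi : Integrable (fun x => (t / (1 - t)) * W x) (volume.withDensity D) := by
    rw [integrable_withDensity_iff hDm hDlt]
    refine (hW.const_mul ((t / (1 - t)) / Z)).congr (Filter.Eventually.of_forall fun x => ?_)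
    simp only [hDr]
    ring
  have hj := hjen (volume.withDensity D) (fun x => (t / (1 - t)) * W x) hfi
  rw [integral_withDensity_eq_integral_toReal_smul hDm hDlt,
    lintegral_withDensity_eq_lintegral_mul _ hDm (by fun_prop)] at hj
  have e1 : ∫ x, (D x).toReal • ((t / (1 - t)) * W x) = (t / (1 - t)) * ((∫ x, W x * E x) / Z) := by
    rw [← integral_div, ← integral_const_mul]
    refine integral_congr_ae (Filter.Eventually.of_forall fun x => ?_)
    simp only [hDr, smul_eq_mul]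
    ring
  have e2 : ∫⁻ x, (D * fun x => ENNReal.ofReal (Real.exp ((t / (1 - t)) * W x))) x =
      ENNReal.ofReal Z⁻¹ *
        ∫⁻ x, ENNReal.ofReal (Real.exp ((t / (1 - t)) * W x)) * ENNReal.ofReal (E x) := by
    rw [← lintegral_const_mul _ hBm]
    refine lintegral_congr fun x => ?_
    simp only [hD, Pi.mul_apply]
    rw [div_eq_inv_mul, ENNReal.ofReal_mul (inv_nonneg.mpr hZ0.le)]
    ring
  rw [e1, e2] at hj
  obtain ⟨w, hw⟩ : ∃ w : ℝ, w = (∫ x, W x * E x) / Z := ⟨_, rfl⟩
  rw [← hw] at hj ⊢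
  revert hpl hj
  generalize (∫⁻ x, ENNReal.ofReal (Real.exp ((t / (1 - t)) * W x)) * ENNReal.ofReal (E x)) = B
  generalize (∫⁻ y, H y * ENNReal.ofReal (E y)) = A
  intro hpl hj
  have hZB : ENNReal.ofReal Z * ENNReal.ofReal (Real.exp (t / (1 - t) * w)) ≤ B := by
    calc ENNReal.ofReal Z * ENNReal.ofReal (Real.exp (t / (1 - t) * w))
        ≤ ENNReal.ofReal Z * (ENNReal.ofReal Z⁻¹ * B) := by gcongr
      _ = B := by
        rw [← mul_assoc, ← ENNReal.ofReal_mul hZ0.le, mul_inv_cancel₀ hZ0.ne', ENNReal.ofReal_one,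
          one_mul]
  have hfin : ENNReal.ofReal Z ^ (1 - t) * (A * ENNReal.ofReal (Real.exp w)) ^ t ≤
      ENNReal.ofReal Z ^ (1 - t) * ENNReal.ofReal Z ^ t := by
    calc ENNReal.ofReal Z ^ (1 - t) * (A * ENNReal.ofReal (Real.exp w)) ^ t
        = (ENNReal.ofReal Z * ENNReal.ofReal (Real.exp (t / (1 - t) * w))) ^ (1 - t) * A ^ t := by
          rw [ENNReal.mul_rpow_of_nonneg _ _ ht0.le, ENNReal.mul_rpow_of_nonneg _ _ h1t.le,
            ENNReal.ofReal_rpow_of_pos (Real.exp_pos w),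
            ENNReal.ofReal_rpow_of_pos (Real.exp_pos (t / (1 - t) * w)), ← Real.exp_mul,
            ← Real.exp_mul, show t / (1 - t) * w * (1 - t) = w * t by field_simp]
          ring
      _ ≤ B ^ (1 - t) * A ^ t := by gcongr
      _ ≤ ENNReal.ofReal Z := hpl
      _ = ENNReal.ofReal Z ^ (1 - t) * ENNReal.ofReal Z ^ t := by
          rw [← ENNReal.rpow_add_of_nonneg _ _ h1t.le ht0.le]
          simp
  have hne0 : ENNReal.ofReal Z ^ (1 - t) ≠ 0 := by
    rw [ENNReal.ofReal_rpow_of_pos hZ0]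
    exact (ENNReal.ofReal_pos.mpr (Real.rpow_pos_of_pos hZ0 _)).ne'
  have hnet : ENNReal.ofReal Z ^ (1 - t) ≠ ∞ := by
    rw [ENNReal.ofReal_rpow_of_pos hZ0]
    exact ENNReal.ofReal_ne_top
  have h3 := (ENNReal.mul_le_mul_iff_right hne0 hnet).mp hfin
  exact (ENNReal.rpow_le_rpow_iff ht0).mp h3

end J20591

namespace J20593

theorem T2 {d : ℕ} 
    (hdens : ∀ f : (Fin d → ℝ) → ℝ≥0∞, Measurable f →
      ∫⁻ y, f y ∂(Measure.pi (fun _ : Fin d => gaussianReal 0 1)) =
        ∫⁻ y : Fin d → ℝ, f y * ENNReal.ofReal (∏ i, gpdf (y i)))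
    (W : (Fin d → ℝ) → ℝ) (hWm : Measurable W)
    (hW : Integrable W (Measure.pi (fun _ : Fin d => gaussianReal 0 1)))
    (H : (Fin d → ℝ) → ℝ≥0∞) (hH : Measurable H)
    (ht : ∀ t : ℝ, 0 < t → t < 1 → 
      Integrable (fun x => W x * Real.exp (-(∑ i, x i ^ 2) / (2 * (1 - t)))) →
      (∫⁻ y, H y * ENNReal.ofReal (Real.exp (-(∑ i, y i ^ 2) / (2 * (1 - t))))) *
      ENNReal.ofReal (Real.exp ((∫ x, W x * Real.exp (-(∑ i, x i ^ 2) / (2 * (1 - t)))) /
        (∫ x : Fin d → ℝ, Real.exp (-(∑ i, x i ^ 2) / (2 * (1 - t)))))) ≤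
      ∫⁻ y : Fin d → ℝ, ENNReal.ofReal (Real.exp (-(∑ i, y i ^ 2) / (2 * (1 - t))))) :
    ∫⁻ y, H y ∂(Measure.pi (fun _ : Fin d => gaussianReal 0 1)) ≤
      ENNReal.ofReal (Real.exp (-∫ g, W g ∂(Measure.pi (fun _ : Fin d => gaussianReal 0 1)))) := by
  classical
  set μ := Measure.pi (fun _ : Fin d => gaussianReal 0 1) with hμ
  set E : ℝ → (Fin d → ℝ) → ℝ := fun t x => Real.exp (-(∑ i, x i ^ 2) / (2 * (1 - t))) with hE
  set c : ℝ := ((Real.sqrt (2 * Real.pi))⁻¹) ^ d with hc
  have hc0 : 0 < c := by positivity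
  have hprod : ∀ y : Fin d → ℝ, ∏ i, gpdf (y i) = c * E 0 y := by
    intro y
    simp only [gpdf, hE, hc]
    rw [Finset.prod_mul_distrib, Finset.prod_const, Finset.card_univ, Fintype.card_fin,
      ← Real.exp_sum]
    congr 2
    rw [sub_zero, mul_one, ← Finset.sum_neg_distrib, Finset.sum_div]
  have hEm : ∀ t, Measurable (E t) := by
    intro t
    simp only [hE]
    fun_prop
  have hEpos : ∀ t x, 0 < E t x := fun t x => Real.exp_pos _
  have hmeas : μ = volume.withDensity (fun y => ENNReal.ofReal (c * E 0 y)) := by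
    ext A hA
    rw [withDensity_apply _ hA, ← lintegral_indicator hA, ← lintegral_indicator_one hA, hdens]
    · apply lintegral_congr
      intro y
      rw [hprod]
      by_cases hy : y ∈ A
      · simp [hy]
      · simp [hy]
    · exact measurable_one.indicator hA
  have hdm : Measurable (fun y => c * E 0 y) := (hEm 0).const_mul c
  have hint1 : Integrable (fun y => (c * E 0 y) * W y) := by
    have h := hW
    rw [hmeas] at h
    have := (integrable_withDensity_iff_integrable_smul' (f := fun y => ENNReal.ofReal (c * E 0 y))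
      hdm.ennreal_ofReal (Filter.Eventually.of_forall fun x => ENNReal.ofReal_lt_top)).mp h
    apply this.congr
    filter_upwards with y
    rw [ENNReal.toReal_ofReal (mul_pos hc0 (hEpos 0 y)).le, smul_eq_mul]
  have hintW : Integrable (fun y => W y * E 0 y) := by
    have := hint1.const_mul c⁻¹
    apply this.congr
    filter_upwards with y
    field_simp
  have hWint : ∫ g, W g ∂μ = c * ∫ y, W y * E 0 y := by
    rw [hmeas, integral_withDensity_eq_integral_toReal_smul hdm.ennreal_ofReal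
      (Filter.Eventually.of_forall fun x => ENNReal.ofReal_lt_top), ← integral_const_mul]
    apply integral_congr_ae
    filter_upwards with y
    rw [ENNReal.toReal_ofReal (mul_pos hc0 (hEpos 0 y)).le, smul_eq_mul]
    ring
  have hone : ∫⁻ y, ENNReal.ofReal (c * E 0 y) = 1 := by
    have h := hdens (fun _ => 1) measurable_const
    simp only [one_mul] at h
    rw [lintegral_one, measure_univ] at h
    rw [h]
    apply lintegral_congr
    intro y
    rw [hprod]
  have hintE : Integrable (fun y => E 0 y) := by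
    have h1 : Integrable (fun y => c * E 0 y) := by
      refine ⟨hdm.aestronglyMeasurable, ?_⟩
      rw [hasFiniteIntegral_iff_ofReal (Filter.Eventually.of_forall fun y =>
        (mul_pos hc0 (hEpos 0 y)).le), hone]
      exact ENNReal.one_lt_top
    have := h1.const_mul c⁻¹
    apply this.congr
    filter_upwards with y
    field_simp
  have hZ : c * ∫ y, E 0 y = 1 := by
    rw [← integral_const_mul, integral_eq_lintegral_of_nonneg_ae
      (Filter.Eventually.of_forall fun y => (mul_pos hc0 (hEpos 0 y)).le)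
      hdm.aestronglyMeasurable, hone, ENNReal.toReal_one]
  set Z : ℝ := ∫ y, E 0 y with hZd
  have hZpos : 0 < Z := by
    by_contra h
    push Not at h
    nlinarith
  -- monotonicity in t
  have hmono : ∀ t s : ℝ, s ≤ t → t < 1 → ∀ x, E t x ≤ E s x := by
    intro t s hst ht1 x
    simp only [hE]
    apply Real.exp_le_exp.mpr
    have h0 : 0 ≤ ∑ i, x i ^ 2 := Finset.sum_nonneg fun i _ => sq_nonneg _
    rw [neg_div, neg_div, neg_le_neg_iff]
    apply div_le_div_of_nonneg_left h0 (by linarith) (by linarith)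
  have hcont : ∀ x, Filter.Tendsto (fun n : ℕ => E (1 / ((n : ℝ) + 2)) x) Filter.atTop
      (nhds (E 0 x)) := by
    intro x
    have ht0 : Filter.Tendsto (fun n : ℕ => 1 / ((n : ℝ) + 2)) Filter.atTop (nhds 0) := by
      apply Filter.Tendsto.div_atTop tendsto_const_nhds
      exact Filter.tendsto_atTop_add_const_right _ _ tendsto_natCast_atTop_atTop
    have hca : ContinuousAt (fun t : ℝ => E t x) 0 := by
      simp only [hE]
      apply ContinuousAt.rexp
      apply ContinuousAt.div continuousAt_const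
      · fun_prop
      · norm_num
    exact hca.tendsto.comp ht0
  have htn : ∀ n : ℕ, 0 < 1 / ((n : ℝ) + 2) ∧ 1 / ((n : ℝ) + 2) < 1 := by
    intro n
    have hn : (0 : ℝ) ≤ n := Nat.cast_nonneg n
    constructor
    · positivity
    · rw [div_lt_one (by positivity)]; linarith
  have htmono : ∀ n m : ℕ, n ≤ m → 1 / ((m : ℝ) + 2) ≤ 1 / ((n : ℝ) + 2) := by
    intro n m hnm
    have hn : (0 : ℝ) ≤ n := Nat.cast_nonneg n
    have : (n : ℝ) ≤ m := by exact_mod_cast hnm
    apply one_div_le_one_div_of_le (by positivity)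
    linarith
  -- limits
  have L1 : Filter.Tendsto (fun n : ℕ => ∫⁻ y, H y * ENNReal.ofReal (E (1 / ((n : ℝ) + 2)) y))
      Filter.atTop (nhds (∫⁻ y, H y * ENNReal.ofReal (E 0 y))) := by
    apply lintegral_tendsto_of_tendsto_of_monotone
    · intro n
      exact (hH.mul (hEm _).ennreal_ofReal).aemeasurable
    · filter_upwards with y
      intro n m hnm
      apply mul_le_mul_right
      apply ENNReal.ofReal_le_ofReal
      exact hmono _ _ (htmono n m hnm) (htn n).2 y
    · filter_upwards with y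
      apply ENNReal.Tendsto.const_mul
      · exact (ENNReal.continuous_ofReal.tendsto _).comp (hcont y)
      · left
        exact (ENNReal.ofReal_pos.mpr (hEpos 0 y)).ne'
  have hWt : ∀ n : ℕ, Integrable (fun y => W y * E (1 / ((n : ℝ) + 2)) y) := by
    intro n
    apply hintW.mono (hWm.mul (hEm _)).aestronglyMeasurable
    filter_upwards with y
    show ‖W y * E (1 / ((n : ℝ) + 2)) y‖ ≤ ‖W y * E 0 y‖
    rw [norm_mul, norm_mul]
    apply mul_le_mul_of_nonneg_left _ (norm_nonneg _)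
    rw [Real.norm_of_nonneg (hEpos _ _).le, Real.norm_of_nonneg (hEpos _ _).le]
    exact hmono _ _ (htn n).1.le (htn n).2 y
  have L2 : Filter.Tendsto (fun n : ℕ => ∫ y, W y * E (1 / ((n : ℝ) + 2)) y)
      Filter.atTop (nhds (∫ y, W y * E 0 y)) := by
    apply tendsto_integral_of_dominated_convergence (fun y => ‖W y * E 0 y‖)
    · intro n; exact (hWt n).aestronglyMeasurable
    · exact hintW.norm
    · intro n
      filter_upwards with y
      rw [norm_mul, norm_mul]
      apply mul_le_mul_of_nonneg_left _ (norm_nonneg _)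
      rw [Real.norm_of_nonneg (hEpos _ _).le, Real.norm_of_nonneg (hEpos _ _).le]
      exact hmono _ _ (htn n).1.le (htn n).2 y
    · filter_upwards with y
      exact (hcont y).const_mul _
  have L3 : Filter.Tendsto (fun n : ℕ => ∫ y, E (1 / ((n : ℝ) + 2)) y)
      Filter.atTop (nhds Z) := by
    apply tendsto_integral_of_dominated_convergence (fun y => E 0 y)
    · intro n; exact (hEm _).aestronglyMeasurable
    · exact hintE
    · intro n
      filter_upwards with y
      rw [Real.norm_of_nonneg (hEpos _ _).le]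
      exact hmono _ _ (htn n).1.le (htn n).2 y
    · filter_upwards with y
      exact hcont y
  have hR : ∀ n : ℕ, ∫⁻ y, ENNReal.ofReal (E (1 / ((n : ℝ) + 2)) y) ≤ ENNReal.ofReal Z := by
    intro n
    rw [hZd, ofReal_integral_eq_lintegral_ofReal hintE (Filter.Eventually.of_forall fun y =>
      (hEpos 0 y).le)]
    apply lintegral_mono
    intro y
    exact ENNReal.ofReal_le_ofReal (hmono _ _ (htn n).1.le (htn n).2 y)
  have hn : ∀ n : ℕ, (∫⁻ y, H y * ENNReal.ofReal (E (1 / ((n : ℝ) + 2)) y)) *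
      ENNReal.ofReal (Real.exp ((∫ y, W y * E (1 / ((n : ℝ) + 2)) y) /
        (∫ y, E (1 / ((n : ℝ) + 2)) y))) ≤ ENNReal.ofReal Z := by
    intro n
    exact (ht (1 / ((n : ℝ) + 2)) (htn n).1 (htn n).2 (hWt n)).trans (hR n)
  have L4 : Filter.Tendsto (fun n : ℕ => ENNReal.ofReal (Real.exp ((∫ y, W y *
      E (1 / ((n : ℝ) + 2)) y) / (∫ y, E (1 / ((n : ℝ) + 2)) y)))) Filter.atTop
      (nhds (ENNReal.ofReal (Real.exp ((∫ y, W y * E 0 y) / Z)))) := by
    apply (ENNReal.continuous_ofReal.tendsto _).comp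
    apply (Real.continuous_exp.tendsto _).comp
    exact L2.div L3 hZpos.ne'
  have hlim : (∫⁻ y, H y * ENNReal.ofReal (E 0 y)) *
      ENNReal.ofReal (Real.exp ((∫ y, W y * E 0 y) / Z)) ≤ ENNReal.ofReal Z := by
    apply le_of_tendsto' (ENNReal.Tendsto.mul L1 _ L4 _) hn
    · right; exact ENNReal.ofReal_ne_top
    · left
      exact (ENNReal.ofReal_pos.mpr (Real.exp_pos _)).ne'
  have hw : (∫ y, W y * E 0 y) / Z = ∫ g, W g ∂μ := by
    rw [hWint]
    have : Z = c⁻¹ := by field_simp; linarith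
    rw [this]; field_simp
  rw [hw] at hlim
  set w : ℝ := ∫ g, W g ∂μ with hwd
  have hgoal : ∫⁻ y, H y ∂μ = ENNReal.ofReal c * ∫⁻ y, H y * ENNReal.ofReal (E 0 y) := by
    have hm : Measurable (fun y => H y * ENNReal.ofReal (E 0 y)) :=
      hH.mul (hEm 0).ennreal_ofReal
    rw [hdens H hH, ← lintegral_const_mul _ hm]
    apply lintegral_congr
    intro y
    rw [hprod, ENNReal.ofReal_mul hc0.le]
    ring
  rw [hgoal]
  have hee : ENNReal.ofReal (Real.exp w) * ENNReal.ofReal (Real.exp (-w)) = 1 := by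
    rw [← ENNReal.ofReal_mul (Real.exp_pos _).le, ← Real.exp_add, add_neg_cancel, Real.exp_zero,
      ENNReal.ofReal_one]
  have hcZ : ENNReal.ofReal c * ENNReal.ofReal Z = 1 := by
    rw [← ENNReal.ofReal_mul hc0.le, hZ, ENNReal.ofReal_one]
  calc ENNReal.ofReal c * ∫⁻ y, H y * ENNReal.ofReal (E 0 y)
      = (ENNReal.ofReal c * ((∫⁻ y, H y * ENNReal.ofReal (E 0 y)) *
          ENNReal.ofReal (Real.exp w))) * ENNReal.ofReal (Real.exp (-w)) := by
        rw [mul_assoc, mul_assoc, hee, mul_one]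
    _ ≤ (ENNReal.ofReal c * ENNReal.ofReal Z) * ENNReal.ofReal (Real.exp (-w)) := by
        gcongr
    _ = ENNReal.ofReal (Real.exp (-w)) := by rw [hcZ, one_mul]

end J20593

namespace J20594

theorem meas_inf {d : ℕ} (W : (Fin d → ℝ) → ℝ) :
    Measurable (fun y : Fin d → ℝ => ⨅ g : Fin d → ℝ,
      ENNReal.ofReal (Real.exp ((1 / 2) * ∑ i, (g i - y i) ^ 2 - W g))) := by
  have hc : ∀ g : Fin d → ℝ, Continuous (fun y : Fin d → ℝ =>
      ENNReal.ofReal (Real.exp ((1 / 2) * ∑ i, (g i - y i) ^ 2 - W g))) := by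
    intro g
    apply ENNReal.continuous_ofReal.comp
    apply Real.continuous_exp.comp
    fun_prop
  have hu : UpperSemicontinuous (fun y : Fin d → ℝ => ⨅ g : Fin d → ℝ,
      ENNReal.ofReal (Real.exp ((1 / 2) * ∑ i, (g i - y i) ^ 2 - W g))) :=
    upperSemicontinuous_iInf (fun g => (hc g).upperSemicontinuous)
  exact hu.measurable

end J20594

end Pool.Agent.Helper7.Simplex.Cube
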