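import Pool.Agent.Helper7.Cube.Defs

set_option linter.all false

open MeasureTheory ProbabilityTheory Matrix
open scoped ENNReal

namespace Pool.Agent.Helper7.Simplex.Cube

namespace J20596

theorem quantile_gpdf_pos (u : ℝ) : 0 < gpdf u := by
  unfold gpdf
  positivity

theorem quantile_gpdf_cont : Continuous gpdf := by
  unfold gpdf
  fun_prop

theorem quantile_gpdf_int : Integrable gpdf := by
  have h := integrable_exp_neg_mul_sq (show (0:ℝ) < 1 / 2 by norm_num)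
  have h2 : gpdf = fun u => (Real.sqrt (2 * Real.pi))⁻¹ * Real.exp (-(1 / 2) * u ^ 2) := by
    funext u
    unfold gpdf
    congr 2
    ring
  rw [h2]
  exact h.const_mul _

theorem quantile_tail (hb : ∀ u, HasDerivAt gtail (-gpdf u) u) :
    Filter.Tendsto gtail Filter.atTop (nhds 0) := by
  have h1 : ∀ u, gtail u = gtail 0 - ∫ x in (0:ℝ)..u, gpdf x := by
    intro u
    have h := intervalIntegral.integral_eq_sub_of_hasDerivAt (a := 0) (b := u) (f := gtail)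
      (f' := fun x => -gpdf x) (fun x _ => hb x)
      (quantile_gpdf_cont.neg.intervalIntegrable _ _)
    rw [intervalIntegral.integral_neg] at h
    linarith
  have h2 := intervalIntegral_tendsto_integral_Ioi 0 (quantile_gpdf_int.integrableOn)
    (Filter.tendsto_id (α := ℝ) (x := Filter.atTop))
  have h3 : Filter.Tendsto (fun u => gtail 0 - ∫ x in (0:ℝ)..u, gpdf x) Filter.atTop
      (nhds (gtail 0 - ∫ x in Set.Ioi 0, gpdf x)) := tendsto_const_nhds.sub h2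
  have h4 : gtail 0 - ∫ x in Set.Ioi 0, gpdf x = 0 := sub_self _
  rw [h4] at h3
  exact h3.congr (fun u => (h1 u).symm)

theorem quantile
    (hb : ∀ u, 0 < gtail u ∧ gtail u < 1 ∧ gtail (-u) = 1 - gtail u ∧ HasDerivAt gtail (-gpdf u) u) :
    ∃ Q : ℝ → ℝ, ∀ s : ℝ, -(1 / 2) < s → s < 1 / 2 →
      gtail (Q s) = 1 / 2 - s ∧ HasDerivAt Q (gpdf (Q s))⁻¹ s := by
  have hder : ∀ u, HasDerivAt (fun u => 1 / 2 - gtail u) (gpdf u) u := by
    intro u
    have := (hb u).2.2.2.const_sub (1 / 2)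
    rwa [neg_neg] at this
  have hmono : StrictMono (fun u => 1 / 2 - gtail u) := by
    apply strictMono_of_deriv_pos
    intro u
    rw [(hder u).deriv]
    exact quantile_gpdf_pos u
  have hcont : Continuous (fun u => 1 / 2 - gtail u) :=
    continuous_iff_continuousAt.2 fun u => (hder u).continuousAt
  have ht := quantile_tail (fun u => (hb u).2.2.2)
  have hsurj : ∀ s : ℝ, -(1 / 2) < s → s < 1 / 2 → ∃ u, 1 / 2 - gtail u = s := by
    intro s hs1 hs2
    have h1 : ∃ b, s ≤ (fun u => 1 / 2 - gtail u) b := by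
      obtain ⟨b, hb'⟩ := (ht.eventually (gt_mem_nhds (by linarith : (0:ℝ) < 1 / 2 - s))).exists
      exact ⟨b, by simp only; linarith⟩
    have h2 : ∃ a, (fun u => 1 / 2 - gtail u) a ≤ s := by
      obtain ⟨b, hb'⟩ := (ht.eventually (gt_mem_nhds (by linarith : (0:ℝ) < 1 / 2 + s))).exists
      refine ⟨-b, ?_⟩
      simp only
      rw [(hb b).2.2.1]
      linarith
    exact mem_range_of_exists_le_of_exists_ge hcont h2 h1
  classical
  obtain ⟨Q, hQ⟩ : ∃ Q : ℝ → ℝ, ∀ s : ℝ, -(1 / 2) < s → s < 1 / 2 → 1 / 2 - gtail (Q s) = s := by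
    refine ⟨fun s => if h : ∃ u, 1 / 2 - gtail u = s then h.choose else 0, ?_⟩
    intro s hs1 hs2
    have h := hsurj s hs1 hs2
    simp only [dif_pos h]
    exact h.choose_spec
  refine ⟨Q, ?_⟩
  intro s hs1 hs2
  have hQs := hQ s hs1 hs2
  refine ⟨by linarith, ?_⟩
  have hev : ∀ᶠ y in nhds s, -(1 / 2) < y ∧ y < 1 / 2 :=
    (lt_mem_nhds hs1).and (gt_mem_nhds hs2)
  have hcQ : ContinuousAt Q s := by
    refine tendsto_order.2 ⟨?_, ?_⟩
    · intro a ha
      have h1 : 1 / 2 - gtail a < s := by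
        have := hmono ha
        simp only at this
        linarith
      filter_upwards [hev, lt_mem_nhds h1] with y hy hy2
      have h2 := hQ y hy.1 hy.2
      apply hmono.lt_iff_lt.1
      linarith
    · intro a ha
      have h1 : s < 1 / 2 - gtail a := by
        have := hmono ha
        simp only at this
        linarith
      filter_upwards [hev, gt_mem_nhds h1] with y hy hy2
      have h2 := hQ y hy.1 hy.2
      apply hmono.lt_iff_lt.1
      linarith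
  refine HasDerivAt.of_local_left_inverse (f := fun u => 1 / 2 - gtail u) hcQ (hder (Q s))
    (quantile_gpdf_pos _).ne' ?_
  filter_upwards [hev] with y hy
  exact hQ y hy.1 hy.2

end J20596

namespace J20598

theorem T_fderiv {d : ℕ} {ι : Type*} [Fintype ι] (w : ι → Fin d → ℝ)
    (S : Matrix (Fin d) (Fin d) ℝ) (φ φ' : ι → ℝ → ℝ)
    (hφ : ∀ i s, HasDerivAt (φ i) (φ' i s) s) (y : Fin d → ℝ) :
    ∃ L : (Fin d → ℝ) →L[ℝ] (Fin d → ℝ),
      HasFDerivAt (fun y : Fin d → ℝ => ∑ i, φ i (w i ⬝ᵥ y) • (S *ᵥ w i)) L y ∧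
      L.det = S.det * (∑ i, φ' i (w i ⬝ᵥ y) • vecMulVec (w i) (w i)).det := by
  let ℓ : ι → ((Fin d → ℝ) →L[ℝ] ℝ) := fun i => ∑ j, w i j • ContinuousLinearMap.proj j
  have hℓ : ∀ i v, ℓ i v = w i ⬝ᵥ v := by
    intro i v
    simp [ℓ, dotProduct]
  let M : Matrix (Fin d) (Fin d) ℝ := S * ∑ i, φ' i (w i ⬝ᵥ y) • vecMulVec (w i) (w i)
  refine ⟨LinearMap.toContinuousLinearMap (Matrix.toLin' M), ?_, ?_⟩
  · have h1 : ∀ i ∈ (Finset.univ : Finset ι), HasFDerivAt (fun y : Fin d → ℝ => φ i (w i ⬝ᵥ y) • (S *ᵥ w i))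
        ((φ' i (w i ⬝ᵥ y) • ℓ i).smulRight (S *ᵥ w i)) y := by
      intro i _
      have h2 : HasFDerivAt (fun y : Fin d → ℝ => ℓ i y) (ℓ i) y := (ℓ i).hasFDerivAt
      have h3 := (hφ i (ℓ i y)).comp_hasFDerivAt y h2
      rw [hℓ] at h3
      have h4 := h3.smul_const (S *ᵥ w i)
      refine h4.congr_of_eventuallyEq ?_
      filter_upwards with z
      simp only [Function.comp, hℓ]
    have h5 := HasFDerivAt.fun_sum h1
    refine h5.congr_fderiv ?_
    ext v : 1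
    rw [LinearMap.coe_toContinuousLinearMap', Matrix.toLin'_apply]
    simp only [M]
    rw [← Matrix.mulVec_mulVec, Matrix.sum_mulVec, Matrix.mulVec_sum, ContinuousLinearMap.sum_apply]
    apply Finset.sum_congr rfl
    intro i _
    rw [Matrix.smul_mulVec, Matrix.mulVec_smul, Matrix.vecMulVec_mulVec]
    simp [hℓ, Matrix.mulVec_smul, smul_smul]
  · rw [ContinuousLinearMap.det, LinearMap.coe_toContinuousLinearMap, LinearMap.det_toLin', Matrix.det_mul]


/-- local version; adapt the proof above -/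
theorem T_fderiv_loc {d : ℕ} {ι : Type*} [Fintype ι] (w : ι → Fin d → ℝ)
    (φ : ι → ℝ → ℝ) (φ' : ι → ℝ) (y : Fin d → ℝ)
    (hφ : ∀ i, HasDerivAt (φ i) (φ' i) (w i ⬝ᵥ y)) :
    ∃ L : (Fin d → ℝ) →L[ℝ] (Fin d → ℝ),
      HasFDerivAt (fun y : Fin d → ℝ => ∑ i, φ i (w i ⬝ᵥ y) • w i) L y ∧
      L.det = (∑ i, φ' i • vecMulVec (w i) (w i)).det := by
  let ℓ : ι → ((Fin d → ℝ) →L[ℝ] ℝ) := fun i => ∑ j, w i j • ContinuousLinearMap.proj j
  have hℓ : ∀ i v, ℓ i v = w i ⬝ᵥ v := by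
    intro i v
    simp [ℓ, dotProduct]
  let M : Matrix (Fin d) (Fin d) ℝ := ∑ i, φ' i • vecMulVec (w i) (w i)
  refine ⟨LinearMap.toContinuousLinearMap (Matrix.toLin' M), ?_, ?_⟩
  · have h1 : ∀ i ∈ (Finset.univ : Finset ι), HasFDerivAt (fun y : Fin d → ℝ => φ i (w i ⬝ᵥ y) • w i)
        ((φ' i • ℓ i).smulRight (w i)) y := by
      intro i _
      have h2 : HasFDerivAt (fun y : Fin d → ℝ => ℓ i y) (ℓ i) y := (ℓ i).hasFDerivAt
      have h0 : HasDerivAt (φ i) (φ' i) (ℓ i y) := by rw [hℓ]; exact hφ i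
      have h3 := h0.comp_hasFDerivAt y h2
      have h4 := h3.smul_const (w i)
      refine h4.congr_of_eventuallyEq ?_
      filter_upwards with z
      simp only [Function.comp, hℓ]
    have h5 := HasFDerivAt.fun_sum h1
    refine h5.congr_fderiv ?_
    ext v : 1
    rw [LinearMap.coe_toContinuousLinearMap', Matrix.toLin'_apply]
    simp only [M]
    rw [Matrix.sum_mulVec, ContinuousLinearMap.sum_apply]
    apply Finset.sum_congr rfl
    intro i _
    rw [Matrix.smul_mulVec, Matrix.vecMulVec_mulVec]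
    simp [hℓ, smul_smul]
  · rw [ContinuousLinearMap.det, LinearMap.coe_toContinuousLinearMap, LinearMap.det_toLin']

end J20598

namespace J20600

theorem C_transport {d : ℕ} {ι : Type*} [Fintype ι] (w : ι → Fin d → ℝ)
    (hI : ∑ i, vecMulVec (w i) (w i) = 1)
    (U : Set (Fin d → ℝ)) (hU : MeasurableSet U)
    (φ φ' : ι → ℝ → ℝ)
    (hmono : ∀ x ∈ U, ∀ y ∈ U, ∀ i, w i ⬝ᵥ x < w i ⬝ᵥ y → φ i (w i ⬝ᵥ x) < φ i (w i ⬝ᵥ y))
    (hL : ∀ x ∈ U, ∃ L : (Fin d → ℝ) →L[ℝ] (Fin d → ℝ),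
      HasFDerivAt (fun y : Fin d → ℝ => ∑ i, φ i (w i ⬝ᵥ y) • w i) L x ∧
      L.det = (∑ i, φ' i (w i ⬝ᵥ x) • vecMulVec (w i) (w i)).det)
    (hdet : ∀ x ∈ U, 0 < (∑ i, φ' i (w i ⬝ᵥ x) • vecMulVec (w i) (w i)).det)
    (G : (Fin d → ℝ) → ℝ≥0∞)
    (hG : ∀ x ∈ U, ENNReal.ofReal ((∑ i, φ' i (w i ⬝ᵥ x) • vecMulVec (w i) (w i)).det⁻¹) ≤
      G (∑ i, φ i (w i ⬝ᵥ x) • w i)) :
    volume U ≤ ∫⁻ y, G y := by
  classical
  set T : (Fin d → ℝ) → (Fin d → ℝ) := fun y => ∑ i, φ i (w i ⬝ᵥ y) • w i with hT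
  have hrec : ∀ x : Fin d → ℝ, x = ∑ i, (w i ⬝ᵥ x) • w i := by
    intro x
    have h1 : x = (1 : Matrix (Fin d) (Fin d) ℝ) *ᵥ x := by rw [Matrix.one_mulVec]
    conv_lhs => rw [h1, ← hI]
    ext j
    simp only [Matrix.mulVec, dotProduct, Matrix.sum_apply, Matrix.vecMulVec_apply,
      Finset.sum_apply, Pi.smul_apply, smul_eq_mul, Finset.sum_mul]
    rw [Finset.sum_comm]
    refine Finset.sum_congr rfl fun i _ => Finset.sum_congr rfl fun k _ => ?_
    ring
  have hinj : Set.InjOn T U := by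
    intro x hx y hy hxy
    have hsum : ∑ i, (φ i (w i ⬝ᵥ x) - φ i (w i ⬝ᵥ y)) * (w i ⬝ᵥ x - w i ⬝ᵥ y) = 0 := by
      have h1 : (T x - T y) ⬝ᵥ (x - y) = 0 := by
        rw [hxy, sub_self, zero_dotProduct]
      have h2 : (T x - T y) ⬝ᵥ (x - y) =
          ∑ i, (φ i (w i ⬝ᵥ x) - φ i (w i ⬝ᵥ y)) * (w i ⬝ᵥ x - w i ⬝ᵥ y) := by
        rw [hT]
        simp only
        rw [← Finset.sum_sub_distrib]
        simp only [← sub_smul]
        rw [sum_dotProduct]
        refine Finset.sum_congr rfl fun i _ => ?_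
        rw [smul_dotProduct, dotProduct_sub, smul_eq_mul]
      rw [← h2, h1]
    have hnn : ∀ i, 0 ≤ (φ i (w i ⬝ᵥ x) - φ i (w i ⬝ᵥ y)) * (w i ⬝ᵥ x - w i ⬝ᵥ y) := by
      intro i
      rcases lt_trichotomy (w i ⬝ᵥ x) (w i ⬝ᵥ y) with h | h | h
      · have := hmono x hx y hy i h
        nlinarith
      · rw [h]; simp
      · have := hmono y hy x hx i h
        nlinarith
    have hz := (Finset.sum_eq_zero_iff_of_nonneg (fun i _ => hnn i)).1 hsum
    have heq : ∀ i, w i ⬝ᵥ x = w i ⬝ᵥ y := by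
      intro i
      have h0 := hz i (Finset.mem_univ i)
      rcases lt_trichotomy (w i ⬝ᵥ x) (w i ⬝ᵥ y) with h | h | h
      · have := hmono x hx y hy i h
        nlinarith
      · exact h
      · have := hmono y hy x hx i h
        nlinarith
    rw [hrec x, hrec y]
    simp only [heq]
  let f' : (Fin d → ℝ) → ((Fin d → ℝ) →L[ℝ] (Fin d → ℝ)) := fun x =>
    if h : x ∈ U then (hL x h).choose else 0
  have hf' : ∀ x ∈ U, HasFDerivAt T (f' x) x ∧
      (f' x).det = (∑ i, φ' i (w i ⬝ᵥ x) • vecMulVec (w i) (w i)).det := by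
    intro x hx
    have : f' x = (hL x hx).choose := dif_pos hx
    rw [this]
    exact (hL x hx).choose_spec
  have hcv := lintegral_image_eq_lintegral_abs_det_fderiv_mul volume hU
    (fun x hx => (hf' x hx).1.hasFDerivWithinAt) hinj G
  calc volume U = ∫⁻ x in U, 1 := by rw [setLIntegral_one]
    _ ≤ ∫⁻ x in U, ENNReal.ofReal |(f' x).det| * G (T x) := by
        refine setLIntegral_mono' hU fun x hx => ?_
        rw [(hf' x hx).2]
        have hd := hdet x hx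
        rw [abs_of_pos hd]
        calc (1 : ℝ≥0∞) = ENNReal.ofReal ((∑ i, φ' i (w i ⬝ᵥ x) • vecMulVec (w i) (w i)).det) *
              ENNReal.ofReal ((∑ i, φ' i (w i ⬝ᵥ x) • vecMulVec (w i) (w i)).det⁻¹) := by
              rw [← ENNReal.ofReal_mul hd.le, mul_inv_cancel₀ hd.ne', ENNReal.ofReal_one]
          _ ≤ _ := mul_le_mul_right (hG x hx) _
    _ = ∫⁻ x in T '' U, G x := hcv.symm
    _ ≤ ∫⁻ x, G x := setLIntegral_le_lintegral _ _

end J20600

namespace J20601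

theorem KB_hyper {d : ℕ} (w : Fin d → ℝ) (hw : w ≠ 0) (c : ℝ) :
    volume {x : Fin d → ℝ | w ⬝ᵥ x = c} = 0 := by
  let s : AffineSubspace ℝ (Fin d → ℝ) :=
    { carrier := {x | w ⬝ᵥ x = c}
      smul_vsub_vadd_mem' := by
        intro t p1 p2 p3 h1 h2 h3
        have h1' : w ⬝ᵥ p1 = c := h1
        have h2' : w ⬝ᵥ p2 = c := h2
        have h3' : w ⬝ᵥ p3 = c := h3
        show w ⬝ᵥ (t • (p1 - p2) + p3) = c
        rw [dotProduct_add, dotProduct_smul, dotProduct_sub, h1', h2', h3']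
        simp }
  have hs : s ≠ ⊤ := by
    intro h
    have h0 : (0 : Fin d → ℝ) ∈ s := by rw [h]; trivial
    have h1 : w ∈ s := by rw [h]; trivial
    have h0' : w ⬝ᵥ (0 : Fin d → ℝ) = c := h0
    have h1' : w ⬝ᵥ w = c := h1
    rw [dotProduct_zero] at h0'
    rw [← h0'] at h1'
    exact hw (dotProduct_self_eq_zero.mp h1')
  exact Measure.addHaar_affineSubspace volume s hs

theorem KB_boundary {d : ℕ} {ι : Type*} [Fintype ι] (w : ι → Fin d → ℝ) (hw : ∀ i, w i ≠ 0) :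
    volume {x : Fin d → ℝ | ∀ i, |w i ⬝ᵥ x| ≤ 1 / 2} ≤
      volume {x : Fin d → ℝ | ∀ i, |w i ⬝ᵥ x| < 1 / 2} := by
  have hsub : {x : Fin d → ℝ | ∀ i, |w i ⬝ᵥ x| ≤ 1 / 2} ⊆
      {x : Fin d → ℝ | ∀ i, |w i ⬝ᵥ x| < 1 / 2} ∪
        ⋃ i, ({x : Fin d → ℝ | w i ⬝ᵥ x = 1 / 2} ∪ {x : Fin d → ℝ | w i ⬝ᵥ x = -(1 / 2)}) := by
    intro x hx
    by_cases h : ∀ i, |w i ⬝ᵥ x| < 1 / 2
    · exact Or.inl h
    · push Not at h
      obtain ⟨i, hi⟩ := h
      refine Or.inr (Set.mem_iUnion.mpr ⟨i, ?_⟩)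
      have he : |w i ⬝ᵥ x| = 1 / 2 := le_antisymm (hx i) hi
      rcases abs_eq (by norm_num : (0:ℝ) ≤ 1 / 2) |>.mp he with h1 | h1
      · exact Or.inl h1
      · exact Or.inr h1
  refine (measure_mono hsub).trans ((measure_union_le _ _).trans ?_)
  have hz : volume (⋃ i, ({x : Fin d → ℝ | w i ⬝ᵥ x = 1 / 2} ∪
      {x : Fin d → ℝ | w i ⬝ᵥ x = -(1 / 2)})) = 0 := by
    refine measure_iUnion_null fun i => ?_
    exact measure_union_null (KB_hyper _ (hw i) _) (KB_hyper _ (hw i) _)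
  rw [hz, add_zero]

end J20601

end Pool.Agent.Helper7.Simplex.Cube
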