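import Pool.Agent.Helper7.Simplex.Core
import Pool.Agent.Helper7.Cube.PL
import Pool.Agent.Helper7.Cube.T2
import Pool.Agent.Helper7.Cube.Trans
import Pool.Agent.Helper7.Cube.Pair
import Pool.Agent.Helper7.Cube.Gauss
import Pool.Agent.Helper7.Cube.Row
import Pool.Agent.Helper7.Cube.Asm

set_option linter.all false

open MeasureTheory ProbabilityTheory Matrix
open scoped ENNReal

namespace Pool.Agent.Helper7.Simplex.Cube

theorem prekopa (t : ℝ) (ht0 : 0 < t) (ht1 : t < 1) (d : ℕ)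
    (f g h : (Fin d → ℝ) → ℝ≥0∞) (hf : Measurable f) (hg : Measurable g) (hh : Measurable h)
    (H : ∀ x y, f x ^ (1 - t) * g y ^ t ≤ h ((1 - t) • x + t • y)) :
    (∫⁻ x, f x) ^ (1 - t) * (∫⁻ x, g x) ^ t ≤ ∫⁻ x, h x :=
  J20589.PL_pi t ht0 ht1 (fun f g h hf hg hh H =>
    J20588.PL_one t ht0 ht1 (fun A B C hA hB hC hAn hBn H =>
      J20587.BM_one t ht0 ht1 A B C hA hB hC hAn hBn H) f g h hf hg hh H) d f g h hf hg hh H

theorem t2 {d : ℕ} (W : (Fin d → ℝ) → ℝ) (hWm : Measurable W)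
    (hW : Integrable W (Measure.pi (fun _ : Fin d => gaussianReal 0 1)))
    (H : (Fin d → ℝ) → ℝ≥0∞) (hH : Measurable H)
    (hle : ∀ g y, H y ≤ ENNReal.ofReal (Real.exp ((1 / 2) * ∑ i, (g i - y i) ^ 2 - W g))) :
    ∫⁻ y, H y ∂(Measure.pi (fun _ : Fin d => gaussianReal 0 1)) ≤
      ENNReal.ofReal (Real.exp (-∫ g, W g ∂(Measure.pi (fun _ : Fin d => gaussianReal 0 1)))) :=
  J20593.T2 (fun f hf => J7435.D_density f hf) W hWm hW H hH (fun t ht0 ht1 hint =>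
    J20591.T2_t t ht0 ht1 (fun f g h hf hg hh H => prekopa t ht0 ht1 d f g h hf hg hh H)
      (fun μ _ f hf => J7840.M_jensen μ f hf) W hWm hint H hH hle)

theorem ex_all {d : ℕ} (r κ : ℝ) (hcase : (r = 1.2 ∧ κ = 0.0965) ∨ (r = 1 ∧ κ = 0.085))
    (a b : Fin d → ℝ) (ha : a ⬝ᵥ a = 1) (hb : b ⬝ᵥ b = 1) (δ : ℝ) :
    Integrable (fun y => mfun r δ (a ⬝ᵥ y) (b ⬝ᵥ y))
      (Measure.pi (fun _ : Fin d => gaussianReal 0 1)) ∧
    κ * (1 - (a ⬝ᵥ b) ^ 2) ≤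
        ∫ y, mfun r δ (a ⬝ᵥ y) (b ⬝ᵥ y) ∂(Measure.pi (fun _ : Fin d => gaussianReal 0 1)) := by
  have hr : 0 < r := by rcases hcase with ⟨h, _⟩ | ⟨h, _⟩ <;> rw [h] <;> norm_num
  obtain ⟨h1, h2⟩ := J21026.EX (fun a b ha hb p q hp hq =>
    J21024.gauss_two (fun a b ha hb => J21022.law2 a b ha hb)
      (fun ρ σ h p q hp hq => J21023.gauss_plane ρ σ h p q hp hq) a b ha hb p q hp hq)
    a b ha hb r δ hr
  refine ⟨h1, ?_⟩
  rw [h2]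
  have hcs := J7843.aux_cs (fun i : Fin 2 => if i = 0 then a else b) 0 1
  simp only [↓reduceIte, one_ne_zero, ha, hb, mul_one] at hcs
  have h0 : 0 ≤ 1 - (a ⬝ᵥ b) ^ 2 := by linarith
  have h1' : 1 - (a ⬝ᵥ b) ^ 2 ≤ 1 := by nlinarith [sq_nonneg (a ⬝ᵥ b)]
  obtain ⟨s1, s2⟩ := J21025.EX_scalar _ h0 h1'
  rcases hcase with ⟨h, h'⟩ | ⟨h, h'⟩
  · rw [h, h']; exact s1
  · rw [h, h']; exact s2

theorem vol_rk {d m : ℕ} (w : Fin m → Fin d → ℝ) (hI : ∑ i, vecMulVec (w i) (w i) = 1)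
    (hc0 : ∀ i, 0 < w i ⬝ᵥ w i) (r κ : ℝ) (hr : 1 ≤ r) (hcr : ∀ i, r * (1 - w i ⬝ᵥ w i) ≤ 1)
    (hcase : (r = 1.2 ∧ κ = 0.0965) ∨ (r = 1 ∧ κ = 0.085)) :
    volume {x : Fin d → ℝ | ∀ i, |w i ⬝ᵥ x| < 1 / 2} ≤
      ENNReal.ofReal (Real.exp (-((1 / 2) * ∑ i, (w i ⬝ᵥ w i) * Real.log (w i ⬝ᵥ w i)))) *
      ENNReal.ofReal (Real.exp (-((κ / 2) * ∑ i, ∑ j, (w i ⬝ᵥ w j) ^ 2 *
        (1 - (w i ⬝ᵥ w j) ^ 2 / ((w i ⬝ᵥ w i) * (w j ⬝ᵥ w j)))))) := by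
  obtain ⟨hWm, hWi, hWle⟩ := J21275.W_int w r κ (fun a b ha hb δ => ex_all r κ hcase a b ha hb δ) hc0
  have hpt : ∀ T g, Wfun w r g ≤ Ffun w T g := fun T g =>
    J21274.W_point w hI r hr (fun Y Z T U δ => J20602.PW r hr Y Z T U δ) hc0 hcr T g
  refine le_trans (J21277.iso_vol w hI hc0 (Wfun w r) hWm hWi hpt
    (J20596.quantile g_basic)
    (fun φ φ' y h => J20598.T_fderiv_loc w φ φ' y h)
    (fun U hU φ φ' h1 h2 h3 G h4 => J20600.C_transport w hI U hU φ φ' h1 h2 h3 G h4)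
    (fun T => J21276.dens w hI hc0 (fun t => ⟨(J7445.K_det_pos w hI t).2, k_ineq w hI t⟩) T _
      (fun g => hpt T g))
    (J20594.meas_inf _)
    (fun f hf => J7435.D_density f hf)
    (fun H hH hle => t2 (Wfun w r) hWm hWi H hH hle)) ?_
  refine mul_le_mul_right ?_ _
  exact ENNReal.ofReal_le_ofReal (Real.exp_le_exp.mpr (neg_le_neg hWle))

theorem iso_all {d m : ℕ} (w : Fin m → Fin d → ℝ)
    (hI : ∑ i, vecMulVec (w i) (w i) = 1) (b : ℕ) (hb : 6 ≤ b)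
    (hc : ∀ i, 1 / (b : ℝ) ≤ w i ⬝ᵥ w i) (hc' : ∀ i, w i ⬝ᵥ w i ≤ 1 / ((b : ℝ) - 1)) :
    volume {x : Fin d → ℝ | ∀ i, |w i ⬝ᵥ x| ≤ 1 / 2} ≤
      ENNReal.ofReal (Real.exp ((m * Ab b + d * Bb b) / 2)) := by
  have hb0 : (0 : ℝ) < b := by
    have : 0 < b := by omega
    exact_mod_cast this
  have hc0 : ∀ i, 0 < w i ⬝ᵥ w i := fun i => lt_of_lt_of_le (by positivity) (hc i)
  refine J21278.iso_final w hI b hb hc hc' ?_ ?_ ?_
  · exact J21030.demand w hI b hb hc hc' (fun c h1 h2 p h3 h4 h5 =>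
      J21029.row b hb (fun m a h1 h2 h3 h4 => J21028.two_var b hb m a h1 h2 h3 h4)
        (fun c α β h1 h2 h3 p h4 h5 h6 => J21027.extreme_pt c α β h1 h2 h3 p h4 h5 h6)
        c h1 h2 p h3 h4 h5)
  · refine J20601.KB_boundary w (fun i h0 => ?_)
    have := hc0 i
    rw [h0] at this
    simp at this
  · intro r κ hr hcr hcase
    exact vol_rk w hI hc0 r κ hr hcr hcase

end Pool.Agent.Helper7.Simplex.Cube
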