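import Pool.Agent.Helper7.Simplex.Defs

open MeasureTheory ProbabilityTheory Matrix
open scoped ENNReal

namespace Pool.Agent.Helper7.Simplex.Cube

noncomputable def sfun (Y Z : ℝ) : ℝ := (1 / 2) * (Real.exp (-(Z ^ 2 / 2)) - Real.exp (-(Y ^ 2 / 2)))
noncomputable def mfun (r δ Y Z : ℝ) : ℝ :=
  (1 / 2) * (sfun Y Z * (Y ^ 2 - Z ^ 2) - sfun Y Z ^ 2 / r * (Y ^ 2 + Z ^ 2)) + sfun Y Z * δ
    - 0.6138 * sfun Y Z ^ 2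

noncomputable def Wfun {d : ℕ} {ι : Type*} [Fintype ι] (w : ι → Fin d → ℝ) (r : ℝ)
    (g : Fin d → ℝ) : ℝ :=
  (1 / 2) * ∑ i, ∑ j, (w i ⬝ᵥ w j) ^ 2 *
    mfun r ((1 / 2) * (Real.log (w i ⬝ᵥ w i) - Real.log (w j ⬝ᵥ w j)))
      ((w i ⬝ᵥ g) / √(w i ⬝ᵥ w i)) ((w j ⬝ᵥ g) / √(w j ⬝ᵥ w j))

/-- the quadratic-plus-`KK` functional of the transport values `T` -/
noncomputable def Ffun {d : ℕ} {ι : Type*} [Fintype ι] (w : ι → Fin d → ℝ) (T : ι → ℝ)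
    (g : Fin d → ℝ) : ℝ :=
  (1 / 2) * ∑ i, (w i ⬝ᵥ w i) * T i ^ 2 - (∑ i, (√(w i ⬝ᵥ w i) * T i) • w i) ⬝ᵥ g
    + (1 / 2) * (g ⬝ᵥ g)
    + (1 / 2) * ∑ i, ∑ j, (w i ⬝ᵥ w j) ^ 2 *
      KK (((1 / 2) * Real.log (w i ⬝ᵥ w i) + (1 / 2) * T i ^ 2) -
        ((1 / 2) * Real.log (w j ⬝ᵥ w j) + (1 / 2) * T j ^ 2))

end Pool.Agent.Helper7.Simplex.Cube
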