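import Pool.Agent.Helper7.Cube.Defs

set_option linter.all false

open MeasureTheory ProbabilityTheory Matrix
open scoped ENNReal

namespace Pool.Agent.Helper7.Simplex.Cube

namespace J21031

theorem E_extremal {d : ℕ} 
    (hdet2 : ∀ (G : Matrix (Fin d) (Fin d) ℝ), IsUnit G.det → ∀ u : Fin d → ℝ,
      (G + vecMulVec u u).det = G.det * (1 + u ⬝ᵥ (G⁻¹ *ᵥ u)) ∧
      (G - vecMulVec u u).det = G.det * (1 - u ⬝ᵥ (G⁻¹ *ᵥ u)))
    {ι : Type*} [Fintype ι] (w : ι → Fin d → ℝ) (b : ℕ) (hb : 2 ≤ b)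
    (A : ℝ) (hA : Real.exp A = (b : ℝ) / ((b : ℝ) - 1)) (hN : Fintype.card ι ≤ b * d)
    (hdet : 0 < (∑ i, vecMulVec (w i) (w i)).det) :
    ∃ (m : ℕ) (f : Fin m → ι), 0 < (∑ j, vecMulVec (w (f j)) (w (f j))).det ∧
      (∑ i, vecMulVec (w i) (w i)).det * Real.exp (-(Fintype.card ι * A)) ≤
        (∑ j, vecMulVec (w (f j)) (w (f j))).det * Real.exp (-(m * A)) ∧
      ∀ j, 1 / (b : ℝ) ≤ w (f j) ⬝ᵥ ((∑ j, vecMulVec (w (f j)) (w (f j)))⁻¹ *ᵥ w (f j)) ∧
        w (f j) ⬝ᵥ ((∑ j, vecMulVec (w (f j)) (w (f j)))⁻¹ *ᵥ w (f j)) ≤ 1 / ((b : ℝ) - 1) := by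
  classical
  have hb1 : (0 : ℝ) < (b : ℝ) - 1 := by
    have : (2 : ℝ) ≤ b := by exact_mod_cast hb
    linarith
  have hb0 : (0 : ℝ) < b := by linarith
  obtain ⟨F, hF⟩ : ∃ F : (m : ℕ) → (Fin m → ι) → ℝ, ∀ m f, F m f =
      (∑ j, vecMulVec (w (f j)) (w (f j))).det * Real.exp (-(m * A)) := ⟨_, fun _ _ => rfl⟩
  let e := Fintype.equivFin ι
  have hsum0 : ∑ j, vecMulVec (w (e.symm j)) (w (e.symm j)) = ∑ i, vecMulVec (w i) (w i) :=
    Equiv.sum_comp e.symm (fun i => vecMulVec (w i) (w i))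
  have hF0 : F (Fintype.card ι) e.symm = (∑ i, vecMulVec (w i) (w i)).det *
      Real.exp (-(Fintype.card ι * A)) := by
    rw [hF, hsum0]
  have hmaxex : ∃ (m : ℕ) (f : Fin m → ι), m ≤ b * d + 1 ∧
      ∀ (m' : ℕ) (f' : Fin m' → ι), m' ≤ b * d + 1 → F m' f' ≤ F m f := by
    have : Nonempty (Σ m : Fin (b * d + 2), (Fin m → ι)) :=
      ⟨⟨⟨Fintype.card ι, by omega⟩, e.symm⟩⟩
    obtain ⟨⟨m, f⟩, hmax⟩ := Finite.exists_max
      (fun p : (Σ m : Fin (b * d + 2), (Fin m → ι)) => F p.1 p.2)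
    refine ⟨m, f, by have := m.2; omega, fun m' f' hm' => ?_⟩
    exact hmax ⟨⟨m', by omega⟩, f'⟩
  obtain ⟨m, f, hm, hmax⟩ := hmaxex
  have hcmp : F (Fintype.card ι) e.symm ≤ F m f := hmax _ _ (by omega)
  have hdetpos : 0 < (∑ j, vecMulVec (w (f j)) (w (f j))).det := by
    have h1 : 0 < F m f := by
      refine lt_of_lt_of_le ?_ hcmp
      rw [hF0]
      exact mul_pos hdet (Real.exp_pos _)
    rw [hF] at h1
    exact pos_of_mul_pos_left h1 (Real.exp_pos _).le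
  refine ⟨m, f, hdetpos, ?_, ?_⟩
  · rw [← hF0, ← hF]
    exact hcmp
  obtain ⟨G, hG⟩ : ∃ G : Matrix (Fin d) (Fin d) ℝ, G = ∑ j, vecMulVec (w (f j)) (w (f j)) := ⟨_, rfl⟩
  rw [← hG] at hdetpos ⊢
  have hGu : IsUnit G.det := hdetpos.ne'.isUnit
  obtain ⟨c, hc⟩ : ∃ c : Fin m → ℝ, ∀ j, c j = w (f j) ⬝ᵥ (G⁻¹ *ᵥ w (f j)) := ⟨_, fun _ => rfl⟩
  have hlow : ∀ j, 1 / (b : ℝ) ≤ c j := by
    intro j
    cases m with
    | zero => exact j.elim0
    | succ k =>
      have h1 := hmax k (fun i => f (j.succAbove i)) (by omega)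
      have h2 : ∑ i, vecMulVec (w (f (j.succAbove i))) (w (f (j.succAbove i))) =
          G - vecMulVec (w (f j)) (w (f j)) := by
        rw [hG, Fin.sum_univ_succAbove _ j]
        abel
      rw [hF, hF, h2, (hdet2 G hGu (w (f j))).2, ← hc, ← hG] at h1
      have h3 : Real.exp (-((k : ℝ) * A)) = Real.exp (-(((k + 1 : ℕ) : ℝ) * A)) * Real.exp A := by
        rw [← Real.exp_add]
        congr 1
        push_cast
        ring
      rw [h3] at h1
      have h4 : 0 < G.det * Real.exp (-(((k + 1 : ℕ) : ℝ) * A)) := mul_pos hdetpos (Real.exp_pos _)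
      have h5 : (G.det * Real.exp (-(((k + 1 : ℕ) : ℝ) * A))) * ((1 - c j) * Real.exp A) ≤
          (G.det * Real.exp (-(((k + 1 : ℕ) : ℝ) * A))) * 1 := by
        calc (G.det * Real.exp (-(((k + 1 : ℕ) : ℝ) * A))) * ((1 - c j) * Real.exp A) =
            G.det * (1 - c j) * (Real.exp (-(((k + 1 : ℕ) : ℝ) * A)) * Real.exp A) := by ring
          _ ≤ _ := h1
          _ = _ := by ring
      have h6 := le_of_mul_le_mul_left h5 h4
      rw [hA, mul_div_assoc', div_le_one hb1] at h6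
      rw [div_le_iff₀ hb0]
      linarith
  have htr : ∑ j, c j = d := by
    have h1 : ∀ j, c j = (G⁻¹ * vecMulVec (w (f j)) (w (f j))).trace := by
      intro j
      rw [hc, mul_vecMulVec, trace_vecMulVec, dotProduct_comm]
    rw [Finset.sum_congr rfl (fun j _ => h1 j), ← trace_sum, ← Finset.mul_sum, ← hG,
      nonsing_inv_mul G hGu, trace_one, Fintype.card_fin]
  have hmbd : m ≤ b * d := by
    have h1 : ∑ j : Fin m, (1 / (b : ℝ)) ≤ ∑ j, c j := Finset.sum_le_sum fun j _ => hlow j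
    rw [htr, Finset.sum_const, Finset.card_univ, Fintype.card_fin, nsmul_eq_mul, mul_one_div,
      div_le_iff₀ hb0] at h1
    have h2 : (m : ℝ) ≤ ((b * d : ℕ) : ℝ) := by
      push_cast
      linarith
    exact_mod_cast h2
  intro j
  rw [← hc]
  refine ⟨hlow j, ?_⟩
  have h1 := hmax (m + 1) (Fin.cons (f j) f) (by omega)
  have h2 : ∑ i, vecMulVec (w ((Fin.cons (f j) f : Fin (m + 1) → ι) i))
      (w ((Fin.cons (f j) f : Fin (m + 1) → ι) i)) =
      G + vecMulVec (w (f j)) (w (f j)) := by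
    rw [hG, Fin.sum_univ_succ]
    simp only [Fin.cons_zero, Fin.cons_succ]
    abel
  rw [hF, hF, h2, (hdet2 G hGu (w (f j))).1, ← hc, ← hG] at h1
  have h3 : Real.exp (-((m : ℝ) * A)) = Real.exp (-(((m + 1 : ℕ) : ℝ) * A)) * Real.exp A := by
    rw [← Real.exp_add]
    congr 1
    push_cast
    ring
  rw [h3] at h1
  have h4 : 0 < G.det * Real.exp (-(((m + 1 : ℕ) : ℝ) * A)) := mul_pos hdetpos (Real.exp_pos _)
  have h5 : (G.det * Real.exp (-(((m + 1 : ℕ) : ℝ) * A))) * (1 + c j) ≤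
      (G.det * Real.exp (-(((m + 1 : ℕ) : ℝ) * A))) * Real.exp A := by
    calc (G.det * Real.exp (-(((m + 1 : ℕ) : ℝ) * A))) * (1 + c j) =
        G.det * (1 + c j) * Real.exp (-(((m + 1 : ℕ) : ℝ) * A)) := by ring
      _ ≤ _ := h1
      _ = _ := by ring
  have h6 := le_of_mul_le_mul_left h5 h4
  rw [hA, le_div_iff₀ hb1] at h6
  rw [le_div_iff₀ hb1]
  linarith


/-- version with a volume factor; adapt the proof of `E_extremal` above -/
theorem C_extremal {d : ℕ} 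
    (hdet2 : ∀ (G : Matrix (Fin d) (Fin d) ℝ), IsUnit G.det → ∀ u : Fin d → ℝ,
      (G + vecMulVec u u).det = G.det * (1 + u ⬝ᵥ (G⁻¹ *ᵥ u)) ∧
      (G - vecMulVec u u).det = G.det * (1 - u ⬝ᵥ (G⁻¹ *ᵥ u)))
    {ι : Type*} [Fintype ι] (w : ι → Fin d → ℝ) (b : ℕ) (hb : 2 ≤ b)
    (A : ℝ) (hA : Real.exp A = (b : ℝ) / ((b : ℝ) - 1)) (hN : Fintype.card ι ≤ b * d)
    (hdet : 0 < (∑ i, vecMulVec (w i) (w i)).det)
    (Vol : Set ι → ℝ) (hV0 : 0 < Vol Set.univ)
    (hV : ∀ (m m' : ℕ) (f : Fin m → ι) (f' : Fin m' → ι), Set.range f' ⊆ Set.range f →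
      0 < (∑ j, vecMulVec (w (f' j)) (w (f' j))).det → Vol (Set.range f) ≤ Vol (Set.range f')) :
    ∃ (m : ℕ) (f : Fin m → ι), 0 < (∑ j, vecMulVec (w (f j)) (w (f j))).det ∧
      Vol Set.univ * (∑ i, vecMulVec (w i) (w i)).det * Real.exp (-(Fintype.card ι * A)) ≤
        Vol (Set.range f) * (∑ j, vecMulVec (w (f j)) (w (f j))).det * Real.exp (-(m * A)) ∧
      ∀ j, 1 / (b : ℝ) ≤ w (f j) ⬝ᵥ ((∑ j, vecMulVec (w (f j)) (w (f j)))⁻¹ *ᵥ w (f j)) ∧
        w (f j) ⬝ᵥ ((∑ j, vecMulVec (w (f j)) (w (f j)))⁻¹ *ᵥ w (f j)) ≤ 1 / ((b : ℝ) - 1) := by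
  classical
  have hb1 : (0 : ℝ) < (b : ℝ) - 1 := by
    have : (2 : ℝ) ≤ b := by exact_mod_cast hb
    linarith
  have hb0 : (0 : ℝ) < b := by linarith
  obtain ⟨F, hF⟩ : ∃ F : (m : ℕ) → (Fin m → ι) → ℝ, ∀ m f, F m f =
      if 0 < (∑ j, vecMulVec (w (f j)) (w (f j))).det then
      Vol (Set.range f) * (∑ j, vecMulVec (w (f j)) (w (f j))).det * Real.exp (-(m * A)) else 0 :=
    ⟨_, fun _ _ => rfl⟩
  have hFp : ∀ m (f : Fin m → ι), 0 < (∑ j, vecMulVec (w (f j)) (w (f j))).det → F m f =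
      Vol (Set.range f) * (∑ j, vecMulVec (w (f j)) (w (f j))).det * Real.exp (-(m * A)) := by
    intro m f h
    rw [hF, if_pos h]
  let e := Fintype.equivFin ι
  have hsum0 : ∑ j, vecMulVec (w (e.symm j)) (w (e.symm j)) = ∑ i, vecMulVec (w i) (w i) :=
    Equiv.sum_comp e.symm (fun i => vecMulVec (w i) (w i))
  have hF0 : F (Fintype.card ι) e.symm = Vol Set.univ * (∑ i, vecMulVec (w i) (w i)).det *
      Real.exp (-(Fintype.card ι * A)) := by
    rw [hFp _ _ (by rw [hsum0]; exact hdet), hsum0, e.symm.surjective.range_eq]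
  have hmaxex : ∃ (m : ℕ) (f : Fin m → ι), m ≤ b * d + 1 ∧
      ∀ (m' : ℕ) (f' : Fin m' → ι), m' ≤ b * d + 1 → F m' f' ≤ F m f := by
    have : Nonempty (Σ m : Fin (b * d + 2), (Fin m → ι)) :=
      ⟨⟨⟨Fintype.card ι, by omega⟩, e.symm⟩⟩
    obtain ⟨⟨m, f⟩, hmax⟩ := Finite.exists_max
      (fun p : (Σ m : Fin (b * d + 2), (Fin m → ι)) => F p.1 p.2)
    refine ⟨m, f, by have := m.2; omega, fun m' f' hm' => ?_⟩
    exact hmax ⟨⟨m', by omega⟩, f'⟩
  obtain ⟨m, f, hm, hmax⟩ := hmaxex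
  have hcmp : F (Fintype.card ι) e.symm ≤ F m f := hmax _ _ (by omega)
  have hFpos : 0 < F m f := by
    refine lt_of_lt_of_le ?_ hcmp
    rw [hF0]
    exact mul_pos (mul_pos hV0 hdet) (Real.exp_pos _)
  have hdetpos : 0 < (∑ j, vecMulVec (w (f j)) (w (f j))).det := by
    by_contra hcon
    rw [hF, if_neg hcon] at hFpos
    exact lt_irrefl _ hFpos
  have hVpos : 0 < Vol (Set.range f) := by
    rw [hFp _ _ hdetpos] at hFpos
    exact pos_of_mul_pos_left (pos_of_mul_pos_left hFpos (Real.exp_pos _).le) hdetpos.le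
  refine ⟨m, f, hdetpos, ?_, ?_⟩
  · rw [← hF0, ← hFp _ _ hdetpos]
    exact hcmp
  obtain ⟨G, hG⟩ : ∃ G : Matrix (Fin d) (Fin d) ℝ, G = ∑ j, vecMulVec (w (f j)) (w (f j)) := ⟨_, rfl⟩
  have hFm : F m f = Vol (Set.range f) * G.det * Real.exp (-(m * A)) := by
    rw [hFp _ _ hdetpos, hG]
  rw [← hG] at hdetpos ⊢
  have hGu : IsUnit G.det := hdetpos.ne'.isUnit
  obtain ⟨c, hc⟩ : ∃ c : Fin m → ℝ, ∀ j, c j = w (f j) ⬝ᵥ (G⁻¹ *ᵥ w (f j)) := ⟨_, fun _ => rfl⟩
  have hlow : ∀ j, 1 / (b : ℝ) ≤ c j := by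
    intro j
    rcases le_or_gt 1 (c j) with hcj | hcj
    · refine le_trans ?_ hcj
      rw [div_le_one hb0]
      linarith
    cases m with
    | zero => exact j.elim0
    | succ k =>
      have h1 := hmax k (fun i => f (j.succAbove i)) (by omega)
      have h2 : ∑ i, vecMulVec (w (f (j.succAbove i))) (w (f (j.succAbove i))) =
          G - vecMulVec (w (f j)) (w (f j)) := by
        rw [hG, Fin.sum_univ_succAbove _ j]
        abel
      have hd2 : (∑ i, vecMulVec (w (f (j.succAbove i))) (w (f (j.succAbove i)))).det =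
          G.det * (1 - c j) := by
        rw [h2, (hdet2 G hGu (w (f j))).2, ← hc]
      have hd2pos : 0 < (∑ i, vecMulVec (w (f (j.succAbove i))) (w (f (j.succAbove i)))).det := by
        rw [hd2]
        exact mul_pos hdetpos (by linarith)
      have hVle : Vol (Set.range f) ≤ Vol (Set.range (fun i => f (j.succAbove i))) := by
        refine hV _ _ f (fun i => f (j.succAbove i)) ?_ hd2pos
        rintro _ ⟨i, rfl⟩
        exact ⟨_, rfl⟩
      rw [hFp k _ hd2pos, hFm, hd2] at h1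
      have h3 : Real.exp (-((k : ℝ) * A)) = Real.exp (-(((k + 1 : ℕ) : ℝ) * A)) * Real.exp A := by
        rw [← Real.exp_add]
        congr 1
        push_cast
        ring
      rw [h3] at h1
      have h4 : 0 < Vol (Set.range f) * G.det * Real.exp (-(((k + 1 : ℕ) : ℝ) * A)) :=
        mul_pos (mul_pos hVpos hdetpos) (Real.exp_pos _)
      have h5 : (Vol (Set.range f) * G.det * Real.exp (-(((k + 1 : ℕ) : ℝ) * A))) *
          ((1 - c j) * Real.exp A) ≤
          (Vol (Set.range f) * G.det * Real.exp (-(((k + 1 : ℕ) : ℝ) * A))) * 1 := by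
        calc (Vol (Set.range f) * G.det * Real.exp (-(((k + 1 : ℕ) : ℝ) * A))) *
            ((1 - c j) * Real.exp A) =
            Vol (Set.range f) * (G.det * (1 - c j)) *
              (Real.exp (-(((k + 1 : ℕ) : ℝ) * A)) * Real.exp A) := by ring
          _ ≤ Vol (Set.range (fun i => f (j.succAbove i))) * (G.det * (1 - c j)) *
              (Real.exp (-(((k + 1 : ℕ) : ℝ) * A)) * Real.exp A) := by
            refine mul_le_mul_of_nonneg_right (mul_le_mul_of_nonneg_right hVle ?_) (by positivity)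
            exact (mul_pos hdetpos (by linarith)).le
          _ ≤ _ := h1
          _ = _ := by ring
      have h6 := le_of_mul_le_mul_left h5 h4
      rw [hA, mul_div_assoc', div_le_one hb1] at h6
      rw [div_le_iff₀ hb0]
      linarith
  intro j
  rw [← hc]
  refine ⟨hlow j, ?_⟩
  have hcpos : 0 < c j := lt_of_lt_of_le (by positivity) (hlow j)
  have htr : ∑ j, c j = d := by
    have h1 : ∀ j, c j = (G⁻¹ * vecMulVec (w (f j)) (w (f j))).trace := by
      intro j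
      rw [hc, mul_vecMulVec, trace_vecMulVec, dotProduct_comm]
    rw [Finset.sum_congr rfl (fun j _ => h1 j), ← trace_sum, ← Finset.mul_sum, ← hG,
      nonsing_inv_mul G hGu, trace_one, Fintype.card_fin]
  have hmbd : m ≤ b * d := by
    have h1 : ∑ j : Fin m, (1 / (b : ℝ)) ≤ ∑ j, c j := Finset.sum_le_sum fun j _ => hlow j
    rw [htr, Finset.sum_const, Finset.card_univ, Fintype.card_fin, nsmul_eq_mul, mul_one_div,
      div_le_iff₀ hb0] at h1
    have h2 : (m : ℝ) ≤ ((b * d : ℕ) : ℝ) := by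
      push_cast
      linarith
    exact_mod_cast h2
  have h1 := hmax (m + 1) (Fin.cons (f j) f) (by omega)
  have h2 : ∑ i, vecMulVec (w ((Fin.cons (f j) f : Fin (m + 1) → ι) i))
      (w ((Fin.cons (f j) f : Fin (m + 1) → ι) i)) =
      G + vecMulVec (w (f j)) (w (f j)) := by
    rw [hG, Fin.sum_univ_succ]
    simp only [Fin.cons_zero, Fin.cons_succ]
    abel
  have hd2 : (∑ i, vecMulVec (w ((Fin.cons (f j) f : Fin (m + 1) → ι) i))
      (w ((Fin.cons (f j) f : Fin (m + 1) → ι) i))).det = G.det * (1 + c j) := by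
    rw [h2, (hdet2 G hGu (w (f j))).1, ← hc]
  have hd2pos : 0 < (∑ i, vecMulVec (w ((Fin.cons (f j) f : Fin (m + 1) → ι) i))
      (w ((Fin.cons (f j) f : Fin (m + 1) → ι) i))).det := by
    rw [hd2]
    exact mul_pos hdetpos (by linarith)
  have hrange : Set.range (Fin.cons (f j) f : Fin (m + 1) → ι) = Set.range f := by
    rw [Fin.range_cons]
    exact Set.insert_eq_of_mem ⟨j, rfl⟩
  rw [hFp _ _ hd2pos, hFm, hd2, hrange] at h1
  have h3 : Real.exp (-((m : ℝ) * A)) = Real.exp (-(((m + 1 : ℕ) : ℝ) * A)) * Real.exp A := by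
    rw [← Real.exp_add]
    congr 1
    push_cast
    ring
  rw [h3] at h1
  have h4 : 0 < Vol (Set.range f) * G.det * Real.exp (-(((m + 1 : ℕ) : ℝ) * A)) :=
    mul_pos (mul_pos hVpos hdetpos) (Real.exp_pos _)
  have h5 : (Vol (Set.range f) * G.det * Real.exp (-(((m + 1 : ℕ) : ℝ) * A))) * (1 + c j) ≤
      (Vol (Set.range f) * G.det * Real.exp (-(((m + 1 : ℕ) : ℝ) * A))) * Real.exp A := by
    calc (Vol (Set.range f) * G.det * Real.exp (-(((m + 1 : ℕ) : ℝ) * A))) * (1 + c j) =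
        Vol (Set.range f) * (G.det * (1 + c j)) * Real.exp (-(((m + 1 : ℕ) : ℝ) * A)) := by ring
      _ ≤ _ := h1
      _ = _ := by ring
  have h6 := le_of_mul_le_mul_left h5 h4
  rw [hA, le_div_iff₀ hb1] at h6
  rw [le_div_iff₀ hb1]
  linarith

end J21031

namespace J21279

theorem iso_finite {d m : ℕ} (w : Fin m → Fin d → ℝ) (h : ∑ i, vecMulVec (w i) (w i) = 1) :
    volume {x : Fin d → ℝ | ∀ i, |w i ⬝ᵥ x| ≤ 1 / 2} < ⊤ := by
  have key : ∀ x : Fin d → ℝ, x ⬝ᵥ x = ∑ i, (w i ⬝ᵥ x) ^ 2 := by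
    intro x
    have h1 : x ⬝ᵥ ((∑ i, vecMulVec (w i) (w i)) *ᵥ x) = x ⬝ᵥ x := by rw [h, one_mulVec]
    rw [← h1, Matrix.sum_mulVec, dotProduct_sum]
    refine Finset.sum_congr rfl fun i _ => ?_
    rw [vecMulVec_mulVec, dotProduct_smul, dotProduct_comm x (w i)]
    simp [pow_two]
  have hsub : {x : Fin d → ℝ | ∀ i, |w i ⬝ᵥ x| ≤ 1 / 2} ⊆ Metric.closedBall 0 ((m : ℝ) + 1) := by
    intro x hx
    rw [mem_closedBall_zero_iff, pi_norm_le_iff_of_nonneg (by positivity)]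
    intro j
    have h2 : (x j) ^ 2 ≤ x ⬝ᵥ x := by
      rw [dotProduct]
      have := Finset.single_le_sum (f := fun j => x j * x j) (fun i _ => mul_self_nonneg (x i))
        (Finset.mem_univ j)
      simpa [pow_two] using this
    have h3 : ∑ i, (w i ⬝ᵥ x) ^ 2 ≤ ∑ i : Fin m, (1 : ℝ) := by
      refine Finset.sum_le_sum fun i _ => ?_
      have := hx i
      have h4 := abs_le.1 this
      nlinarith [h4.1, h4.2]
    rw [Finset.sum_const, Finset.card_univ, Fintype.card_fin, nsmul_eq_mul, mul_one] at h3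
    have h5 : (x j) ^ 2 ≤ m := h2.trans ((key x).trans_le h3)
    rw [Real.norm_eq_abs]
    apply abs_le_of_sq_le_sq _ (by positivity)
    nlinarith [h5, (Nat.cast_nonneg m : (0 : ℝ) ≤ m)]
  exact (measure_mono hsub).trans_lt measure_closedBall_lt_top

theorem vol_transfer {d m : ℕ} (S : Matrix (Fin d) (Fin d) ℝ) (hS : S.det ≠ 0)
    (w v : Fin m → Fin d → ℝ) (h : ∀ i, S *ᵥ w i = v i) :
    volume {x : Fin d → ℝ | ∀ i, |v i ⬝ᵥ x| ≤ 1 / 2} =
      ENNReal.ofReal (|S.det|⁻¹) * volume {x : Fin d → ℝ | ∀ i, |w i ⬝ᵥ x| ≤ 1 / 2} := by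
  have hd : LinearMap.det (Matrix.toLin' Sᵀ) ≠ 0 := by
    rw [LinearMap.det_toLin', Matrix.det_transpose]; exact hS
  have := Measure.addHaar_preimage_linearMap (volume : Measure (Fin d → ℝ)) hd
    {x : Fin d → ℝ | ∀ i, |w i ⬝ᵥ x| ≤ 1 / 2}
  rw [LinearMap.det_toLin', Matrix.det_transpose, abs_inv] at this
  rw [← this]
  congr 1
  ext x
  simp only [Set.mem_setOf_eq, Set.mem_preimage, Matrix.toLin'_apply]
  refine forall_congr' fun i => ?_
  have : v i ⬝ᵥ x = w i ⬝ᵥ (Sᵀ *ᵥ x) := by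
    rw [← h i, Matrix.mulVec_transpose, dotProduct_comm (w i), ← dotProduct_mulVec,
      dotProduct_comm]
  rw [this]

theorem core {d : ℕ} {ι : Type*} [Fintype ι] (u : ι → Fin d → ℝ) (b : ℕ) (hb : 6 ≤ b)
    (hN : Fintype.card ι ≤ b * d)
    (hdet : 0 < (∑ i, vecMulVec (u i) (u i)).det)
    (hfac : ∀ (m : ℕ) (w : Fin m → Fin d → ℝ), 0 < (∑ i, vecMulVec (w i) (w i)).det →
      ∃ (S : Matrix (Fin d) (Fin d) ℝ) (w' : Fin m → Fin d → ℝ), S.det ≠ 0 ∧
      |S.det| = √((∑ i, vecMulVec (w i) (w i)).det) ∧ (∀ i, S *ᵥ w' i = w i) ∧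
      ∑ i, vecMulVec (w' i) (w' i) = 1 ∧
      ∀ i, w' i ⬝ᵥ w' i = w i ⬝ᵥ ((∑ j, vecMulVec (w j) (w j))⁻¹ *ᵥ w i))
    (hext : ∀ (A : ℝ), Real.exp A = (b : ℝ) / ((b : ℝ) - 1) →
      ∀ (Vol : Set ι → ℝ), 0 < Vol Set.univ →
      (∀ (m m' : ℕ) (f : Fin m → ι) (f' : Fin m' → ι), Set.range f' ⊆ Set.range f →
      0 < (∑ j, vecMulVec (u (f' j)) (u (f' j))).det → Vol (Set.range f) ≤ Vol (Set.range f')) →
      ∃ (m : ℕ) (f : Fin m → ι), 0 < (∑ j, vecMulVec (u (f j)) (u (f j))).det ∧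
      Vol Set.univ * (∑ i, vecMulVec (u i) (u i)).det * Real.exp (-(Fintype.card ι * A)) ≤
        Vol (Set.range f) * (∑ j, vecMulVec (u (f j)) (u (f j))).det * Real.exp (-(m * A)) ∧
      ∀ j, 1 / (b : ℝ) ≤ u (f j) ⬝ᵥ ((∑ j, vecMulVec (u (f j)) (u (f j)))⁻¹ *ᵥ u (f j)) ∧
        u (f j) ⬝ᵥ ((∑ j, vecMulVec (u (f j)) (u (f j)))⁻¹ *ᵥ u (f j)) ≤ 1 / ((b : ℝ) - 1))
    (hiso : ∀ (m : ℕ) (w : Fin m → Fin d → ℝ), ∑ i, vecMulVec (w i) (w i) = 1 →
      (∀ i, 1 / (b : ℝ) ≤ w i ⬝ᵥ w i) → (∀ i, w i ⬝ᵥ w i ≤ 1 / ((b : ℝ) - 1)) →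
      volume {x : Fin d → ℝ | ∀ i, |w i ⬝ᵥ x| ≤ 1 / 2} ≤
        ENNReal.ofReal (Real.exp ((m * Ab b + d * Bb b) / 2))) :
    volume {x : Fin d → ℝ | ∀ i, |u i ⬝ᵥ x| ≤ 1 / 2} *
      ENNReal.ofReal (√((∑ i, vecMulVec (u i) (u i)).det)) ≤
      ENNReal.ofReal (Real.exp ((Fintype.card ι * Ab b + d * Bb b) / 2)) := by
  set C : Set ι → Set (Fin d → ℝ) := fun s => {x | ∀ i ∈ s, |u i ⬝ᵥ x| ≤ 1 / 2} with hC
  have hCr : ∀ (m : ℕ) (f : Fin m → ι), C (Set.range f) = {x | ∀ j, |u (f j) ⬝ᵥ x| ≤ 1 / 2} := by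
    intro m f
    ext x
    simp [hC]
  have hfin : ∀ (m : ℕ) (f : Fin m → ι), 0 < (∑ j, vecMulVec (u (f j)) (u (f j))).det →
      volume (C (Set.range f)) < ⊤ := by
    intro m f hf
    obtain ⟨S, w', hS0, hS, hSw, hw, -⟩ := hfac m (fun j => u (f j)) hf
    rw [hCr, vol_transfer S hS0 w' (fun j => u (f j)) hSw]
    exact ENNReal.mul_lt_top ENNReal.ofReal_lt_top (iso_finite w' hw)
  have hCu : C Set.univ = {x | ∀ i, |u i ⬝ᵥ x| ≤ 1 / 2} := by
    ext x; simp [hC]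
  have hufin : volume (C Set.univ) < ⊤ := by
    have e := (Fintype.equivFin ι).symm
    have h1 := hfin _ e (by
      rw [e.sum_comp (fun i => vecMulVec (u i) (u i))]
      exact hdet)
    rwa [e.surjective.range_eq] at h1
  have hupos : 0 < volume (C Set.univ) := by
    have hopen : IsOpen {x : Fin d → ℝ | ∀ i, |u i ⬝ᵥ x| < 1 / 2} := by
      have : {x : Fin d → ℝ | ∀ i, |u i ⬝ᵥ x| < 1 / 2} = ⋂ i, {x | |u i ⬝ᵥ x| < 1 / 2} := by
        ext x; simp
      rw [this]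
      refine isOpen_iInter_of_finite fun i => ?_
      refine isOpen_lt ?_ continuous_const
      exact (Continuous.dotProduct continuous_const continuous_id).abs
    have hne : ({x : Fin d → ℝ | ∀ i, |u i ⬝ᵥ x| < 1 / 2}).Nonempty := ⟨0, by intro i; simp⟩
    refine (hopen.measure_pos volume hne).trans_le (measure_mono ?_)
    intro x hx i _
    exact (hx i).le
  have hAb : Real.exp (Ab b) = (b : ℝ) / ((b : ℝ) - 1) := by
    have h6 : (6 : ℝ) ≤ b := by exact_mod_cast hb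
    rw [Ab, Real.exp_log]
    exact div_pos (by linarith) (by linarith)
  obtain ⟨m, f, hf, hle, hlev⟩ := hext (Ab b) hAb (fun s => (volume (C s)).toReal ^ 2)
    (pow_pos (ENNReal.toReal_pos hupos.ne' hufin.ne) 2)
    (by
      intro m m' f f' hsub hf'
      have h1 : volume (C (Set.range f)) ≤ volume (C (Set.range f')) := by
        apply measure_mono
        intro x hx i hi
        exact hx i (hsub hi)
      have h2 := ENNReal.toReal_mono (hfin m' f' hf').ne h1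
      exact pow_le_pow_left₀ ENNReal.toReal_nonneg h2 2)
  obtain ⟨S, w', hS0, hS, hSw, hw, hwl⟩ := hfac m (fun j => u (f j)) hf
  have hv := hiso m w' hw (fun i => by rw [hwl i]; exact (hlev i).1)
    (fun i => by rw [hwl i]; exact (hlev i).2)
  have hvt := vol_transfer S hS0 w' (fun j => u (f j)) hSw
  rw [← hCr] at hvt
  set V := volume {x : Fin d → ℝ | ∀ i, |w' i ⬝ᵥ x| ≤ 1 / 2} with hV
  set D := (∑ j, vecMulVec (u (f j)) (u (f j))).det with hD
  have hvt' : (volume (C (Set.range f))).toReal = |S.det|⁻¹ * V.toReal := by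
    rw [hvt, ENNReal.toReal_mul, ENNReal.toReal_ofReal (by positivity)]
  have hVr : V.toReal ≤ Real.exp ((m * Ab b + d * Bb b) / 2) := by
    have := ENNReal.toReal_mono ENNReal.ofReal_ne_top hv
    rwa [ENNReal.toReal_ofReal (Real.exp_pos _).le] at this
  have hVD : (volume (C (Set.range f))).toReal ^ 2 * D = V.toReal ^ 2 := by
    have h1 : |S.det| ^ 2 = D := by
      rw [hS, Real.sq_sqrt hf.le]
    have h2 : |S.det| ≠ 0 := by simpa using hS0
    rw [hvt', ← h1]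
    field_simp

  rw [hVD] at hle
  have hV2 : V.toReal ^ 2 ≤ Real.exp (m * Ab b + d * Bb b) := by
    have h1 := pow_le_pow_left₀ ENNReal.toReal_nonneg hVr 2
    refine h1.trans_eq ?_
    rw [← Real.exp_nat_mul]
    congr 1
    push_cast
    ring
  have h3 : (volume (C Set.univ)).toReal ^ 2 * (∑ i, vecMulVec (u i) (u i)).det ≤
      Real.exp (Fintype.card ι * Ab b + d * Bb b) := by
    have h4 : (volume (C Set.univ)).toReal ^ 2 * (∑ i, vecMulVec (u i) (u i)).det *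
        Real.exp (-(Fintype.card ι * Ab b)) ≤ Real.exp (d * Bb b) := by
      refine hle.trans ?_
      calc V.toReal ^ 2 * Real.exp (-(m * Ab b)) ≤
          Real.exp (m * Ab b + d * Bb b) * Real.exp (-(m * Ab b)) :=
            mul_le_mul_of_nonneg_right hV2 (Real.exp_pos _).le
        _ = Real.exp (d * Bb b) := by
            rw [← Real.exp_add]; congr 1; ring
    have h5 := mul_le_mul_of_nonneg_right h4 (Real.exp_pos (Fintype.card ι * Ab b)).le
    rw [mul_assoc, ← Real.exp_add, ← Real.exp_add, neg_add_cancel, Real.exp_zero, mul_one] at h5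
    rwa [add_comm] at h5
  rw [← hCu]
  rw [← ENNReal.ofReal_toReal hufin.ne, ← ENNReal.ofReal_mul ENNReal.toReal_nonneg]
  apply ENNReal.ofReal_le_ofReal
  have h6 := Real.sqrt_le_sqrt h3
  rw [Real.sqrt_mul (by positivity), Real.sqrt_sq ENNReal.toReal_nonneg] at h6
  refine h6.trans_eq ?_
  rw [Real.sqrt_eq_iff_mul_self_eq_of_pos (Real.exp_pos _), ← Real.exp_add]
  congr 1
  ring

end J21279

end Pool.Agent.Helper7.Simplex.Cube
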