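import Pool.Agent.Helper7.Cube.Defs

set_option linter.all false

open MeasureTheory ProbabilityTheory Matrix
open scoped ENNReal

namespace Pool.Agent.Helper7.Simplex.Cube

namespace J21032

/-- coordinates: a k-dimensional section of the cube -/
theorem geo (n k : ℕ) (H : Submodule ℝ (EuclideanSpace ℝ (Fin n)))
    (hH : Module.finrank ℝ H = k) :
    ∃ u : Fin n → Fin k → ℝ, ∑ i, vecMulVec (u i) (u i) = 1 ∧
      volume {x : H | ∀ i, |(x : EuclideanSpace ℝ (Fin n)) i| ≤ 1 / 2} =
        volume {x : Fin k → ℝ | ∀ i, |u i ⬝ᵥ x| ≤ 1 / 2} := by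
  classical
  let b : OrthonormalBasis (Fin k) ℝ H := (stdOrthonormalBasis ℝ H).reindex (finCongr hH)
  refine ⟨fun i a => (b a : EuclideanSpace ℝ (Fin n)) i, ?_, ?_⟩
  · ext a c
    rw [Matrix.sum_apply]
    simp only [vecMulVec_apply]
    have h := b.inner_eq_ite a c
    have h2 : inner ℝ (b a) (b c) = inner ℝ (b a : EuclideanSpace ℝ (Fin n)) (b c) := rfl
    rw [h2, PiLp.inner_apply] at h
    simp only [RCLike.inner_apply, conj_trivial] at h
    rw [Matrix.one_apply, ← h]
    exact Finset.sum_congr rfl fun i _ => mul_comm _ _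
  · have h1 := b.measurePreserving_repr_symm
    have h2 := (EuclideanSpace.volume_preserving_symm_measurableEquiv_toLp (Fin k)).symm
    have hS : MeasurableSet {x : H | ∀ i, |(x : EuclideanSpace ℝ (Fin n)) i| ≤ 1 / 2} := by
      have : {x : H | ∀ i, |(x : EuclideanSpace ℝ (Fin n)) i| ≤ 1 / 2} =
          ⋂ i, {x : H | |(x : EuclideanSpace ℝ (Fin n)) i| ≤ 1 / 2} := by
        ext x; simp
      rw [this]
      refine MeasurableSet.iInter fun i => ?_
      refine (isClosed_le ?_ continuous_const).measurableSet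
      fun_prop
    rw [← h1.measure_preimage hS.nullMeasurableSet,
      ← h2.measure_preimage (h1.measurable hS).nullMeasurableSet]
    congr 1
    ext x
    simp only [Set.mem_preimage, Set.mem_ofPred_eq]
    refine forall_congr' fun i => ?_
    have : ((b.repr.symm ((MeasurableEquiv.toLp 2 (Fin k → ℝ)) x) : H) : EuclideanSpace ℝ (Fin n)) i
        = (fun a => (b a : EuclideanSpace ℝ (Fin n)) i) ⬝ᵥ x := by
      rw [← b.sum_repr_symm]
      simp [dotProduct, mul_comm]
    constructor
    · intro h; rw [← this]; exact h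
    · intro h; rw [← this] at h; exact h

end J21032

namespace J21033

theorem numV (n k : ℕ) (hk : 1 ≤ k) (hn : k ≤ n) :
    Real.exp (((n : ℝ) * Ab (n / k + 1) + k * Bb (n / k + 1)) / 2) =
      √((((n / k : ℕ) : ℝ)) ^ (k - n % k) * (((n / k : ℕ) : ℝ) + 1) ^ (n % k)) := by
  have hl : 1 ≤ n / k := (Nat.one_le_div_iff (by omega)).mpr hn
  have hr : n % k < k := Nat.mod_lt _ (by omega)
  have hnk : n = k * (n / k) + n % k := (Nat.div_add_mod n k).symm
  generalize hL : n / k = l at *
  generalize hR : n % k = r at *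
  have hl0 : (0:ℝ) < (l:ℝ) := by exact_mod_cast hl
  have hl1 : (0:ℝ) < (l:ℝ) + 1 := by positivity
  rw [Real.exp_half]
  congr 1
  have e1 : (n : ℝ) * Ab (l + 1) + k * Bb (l + 1)
      = ((k - r : ℕ) : ℝ) * Real.log l + (r : ℝ) * Real.log ((l : ℝ) + 1) := by
    unfold Ab Bb
    rw [Nat.cast_sub hr.le]
    have h1 : ((l + 1 : ℕ) : ℝ) - 1 = l := by push_cast; ring
    have h2 : ((l + 1 : ℕ) : ℝ) = (l : ℝ) + 1 := by push_cast; ring
    rw [h1, h2, Real.log_div hl1.ne' hl0.ne']
    have h3 : (n : ℝ) = k * l + r := by exact_mod_cast hnk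
    rw [h3]; ring
  rw [e1, Real.exp_add, ← Real.log_pow, ← Real.log_pow, Real.exp_log (pow_pos hl0 _),
    Real.exp_log (pow_pos hl1 _)]

end J21033

end Pool.Agent.Helper7.Simplex.Cube
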